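import Pool.Agent.W_4ce76a_h43.Val

set_option autoImplicit false
set_option linter.unusedSectionVars false

/-!
# MP_4ce76a_lc, one universal and one existential quantifier: definitions

Paper proof: table proofs, row 524.

* `Dv a b`: `a` divides `b`; `Same a b`: the tuples `a`, `b` have the same type.
* `Gd k σ s`: `σ` is close to `s` and far from all `γ L ^ p`, `γ ∈ k`.
* `Sit`, `Bd3`: the situation of section 3 of the paper proof, with the second coordinates tending to `β`.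
* `Dom x y`: `v (y n) = o (v (x n))`.
* `RC k`: `k` is relatively algebraically closed in `L p`.
-/

namespace TF43

open TF14 TF45 Polynomial

section Alg

variable {R : Type} [CommRing R]

/-- `F (X, Y + β)` -/
noncomputable def trs (β : R) (F : R[X][X]) : R[X][X] := F.comp (X + C (C β))

/-- `X ^ A Y ^ B u` -/
noncomputable def sp (u : R[X][X]) (A B : ℕ) : R[X][X] := C X ^ A * X ^ B * u

end Alg

variable {p : ℕ} [hp : Fact p.Prime]

/-- divisibility by an element of the valuation ring, as in the atomic formulas -/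
def Dv (a b : L p) : Prop := ∃ x ∈ OL p, b = x * a

/-- the same type -/
def Same {J : Type} (a b : J → L p) : Prop :=
  (∀ i, a i = 0 ↔ b i = 0) ∧ ∀ i j, Dv (a i) (a j) ↔ Dv (b i) (b j)

/-- the sequence `σ` is close to `s` and generic over `k` -/
structure Gd (k : Set (L p)) (σ s : ℕ → L p) : Prop where
  ne : ∀ n, σ n ≠ 0
  ne' : ∀ n, s n ≠ 0
  lim : Tnd σ 0
  quo : Tnd (fun n => s n / σ n) 1
  gen : ∀ γ ∈ k, γ ≠ 0 → ∀ M : ℕ, ∃ n0 : ℕ, ∀ n ≥ n0, ∀ b : L p,
    σ n ≠ γ * b ^ p ∧ (M : ℤ) * (ord (σ n - γ * b ^ p) - ord (σ n)) < ord (σ n)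

/-- The situation: `F`, `u` are tracked over `D`, the points `(x n, y n)` tend to `(0, β)` and lie on `S = σ n`, and there are no
partners. -/
structure Sit {J κ : Type} (k : Set (L p)) (β : L p) (F : J → (L p)[X][X]) (u : (L p)[X][X])
    (A B : ℕ) (D : κ → L p) (Dn : ℕ → κ → L p) (Φ : J → (MvPolynomial κ (K p))[X][X])
    (Υ : (MvPolynomial κ (K p))[X][X]) (x y σ s : ℕ → L p) : Prop where
  tk : Tk D Dn
  hΦ : ∀ j, spz D (Φ j) = F j
  hΥ : spz D Υ = u
  hx : Tnd x 0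
  hy : Tnd y β
  gd : Gd k σ s
  eq : ∀ n, x n ^ A * y n ^ B * u.evalEval (x n) (y n) = σ n
  no : ∀ n, ¬ ∃ x' y' : L p, x' ^ A * y' ^ B * (spz (Dn n) Υ).evalEval x' y' = s n ∧
    Same (fun j => (spz (Dn n) (Φ j)).evalEval x' y') (fun j => (F j).evalEval (x n) (y n))

/-- the family is bad -/
def Bd3 {J : Type} (k : Set (L p)) (β : L p) (F : J → (L p)[X][X]) (u : (L p)[X][X])
    (A B : ℕ) : Prop :=
  ∃ (κ : Type) (_ : Finite κ) (D : κ → L p) (Dn : ℕ → κ → L p)
    (Φ : J → (MvPolynomial κ (K p))[X][X]) (Υ : (MvPolynomial κ (K p))[X][X])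
    (x y σ s : ℕ → L p), Sit k β F u A B D Dn Φ Υ x y σ s

/-- the order of `y n` is small compared with that of `x n` -/
def Dom (x y : ℕ → L p) : Prop :=
  ∀ M : ℕ, ∃ n0 : ℕ, ∀ n ≥ n0, x n ≠ 0 ∧ y n ≠ 0 ∧ (M : ℤ) * ord (y n) ≤ ord (x n)

/-- relatively algebraically closed -/
def RC (k : IntermediateField (K p) (L p)) : Prop :=
  ∀ f : (↥k)[X], f ≠ 0 → ∀ α : L p, aeval α f = 0 → α ∈ k

/-- all coefficients are in `k` -/
def CoefIn (k : IntermediateField (K p) (L p)) (F : (L p)[X][X]) : Prop :=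
  ∃ F0 : (↥k)[X][X], F0.map (mapRingHom (algebraMap (↥k) (L p))) = F

theorem dv_iff {a b : L p} : Dv a b ↔ b = 0 ∨ (a ≠ 0 ∧ ord a ≤ ord b) := by
  constructor
  · rintro ⟨x, hx, rfl⟩
    by_cases hx0 : x = 0
    · left
      rw [hx0, zero_mul]
    by_cases ha : a = 0
    · left
      rw [ha, mul_zero]
    · right
      refine ⟨ha, ?_⟩
      rw [ord_mul hx0 ha]
      have := (mem_OL x).1 hx
      linarith
  · rintro (rfl | ⟨ha, h⟩)
    · exact ⟨0, (OL p).zero_mem, by rw [zero_mul]⟩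
    · by_cases hb : b = 0
      · exact ⟨0, (OL p).zero_mem, by rw [zero_mul, hb]⟩
      · refine ⟨b / a, ?_, by rw [div_mul_cancel₀ _ ha]⟩
        rw [mem_OL, ord_div hb ha]
        linarith

variable {J : Type}

theorem same_refl (a : J → L p) : Same a a := ⟨fun _ => Iff.rfl, fun _ _ => Iff.rfl⟩

theorem same_symm {a b : J → L p} (h : Same a b) : Same b a :=
  ⟨fun i => (h.1 i).symm, fun i j => (h.2 i j).symm⟩

theorem same_trans {a b c : J → L p} (h : Same a b) (h' : Same b c) : Same a c :=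
  ⟨fun i => (h.1 i).trans (h'.1 i), fun i j => (h.2 i j).trans (h'.2 i j)⟩

theorem dv_eqv {a b a' b' : L p} (h : Eqv a b) (h' : Eqv a' b') : Dv a a' ↔ Dv b b' := by
  obtain ⟨w, hw0, hw, hwi, rfl⟩ := h
  obtain ⟨v, hv0, hv, hvi, rfl⟩ := h'
  constructor
  · rintro ⟨x, hx, h⟩
    refine ⟨x * w * v⁻¹, mul_mem (mul_mem hx hw) hvi, ?_⟩
    have h1 : b' = b' * v * v⁻¹ := by rw [mul_assoc, mul_inv_cancel₀ hv0, mul_one]
    rw [h1, h]
    ring
  · rintro ⟨x, hx, rfl⟩
    refine ⟨x * v * w⁻¹, mul_mem (mul_mem hx hv) hwi, ?_⟩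
    have h1 : x * b * v = x * v * (w⁻¹ * w) * b := by
      rw [inv_mul_cancel₀ hw0]
      ring
    rw [h1]
    ring

theorem same_of_eqv {a b : J → L p} (h : ∀ j, Eqv (a j) (b j)) : Same a b :=
  ⟨fun i => eqv_zero (h i), fun i j => dv_eqv (h i) (h j)⟩

theorem dv_scale {l : L p} (hl : l ≠ 0) (a b : L p) : Dv (l * a) (l * b) ↔ Dv a b := by
  constructor
  · rintro ⟨x, hx, h⟩
    refine ⟨x, hx, ?_⟩
    have h1 : l * b = l * (x * a) := by
      rw [h]
      ring
    exact mul_left_cancel₀ hl h1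
  · rintro ⟨x, hx, rfl⟩
    exact ⟨x, hx, by ring⟩

/-- a common factor does not change the type -/
theorem same_scale {l : L p} (hl : l ≠ 0) (a : J → L p) : Same (fun j => l * a j) a :=
  ⟨fun i => by rw [mul_eq_zero]; exact or_iff_right hl, fun i j => dv_scale hl (a i) (a j)⟩

theorem same_comp {I : Type} {a b : J → L p} (h : Same a b) (g : I → J) :
    Same (fun i => a (g i)) (fun i => b (g i)) :=
  ⟨fun i => h.1 (g i), fun i j => h.2 (g i) (g j)⟩

theorem gd_sub {k : Set (L p)} {σ s : ℕ → L p} (h : Gd k σ s) {r : ℕ → ℕ}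
    (hr : StrictMono r) : Gd k (fun n => σ (r n)) (fun n => s (r n)) where
  ne n := h.ne (r n)
  ne' n := h.ne' (r n)
  lim := tnd_sub h.lim hr
  quo := tnd_sub h.quo hr
  gen γ hγ hγ0 M := by
    obtain ⟨n0, hn0⟩ := h.gen γ hγ hγ0 M
    exact ⟨n0, fun n hn b => hn0 (r n) (hn.le.trans (hr.le_apply)) b⟩

theorem sit_sub {κ : Type} {k : Set (L p)} {β : L p} {F : J → (L p)[X][X]} {u : (L p)[X][X]}
    {A B : ℕ} {D : κ → L p} {Dn : ℕ → κ → L p} {Φ : J → (MvPolynomial κ (K p))[X][X]}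
    {Υ : (MvPolynomial κ (K p))[X][X]} {x y σ s : ℕ → L p}
    (h : Sit k β F u A B D Dn Φ Υ x y σ s) {r : ℕ → ℕ} (hr : StrictMono r) :
    Sit k β F u A B D (fun n => Dn (r n)) Φ Υ (fun n => x (r n)) (fun n => y (r n))
      (fun n => σ (r n)) (fun n => s (r n)) where
  tk := tk_sub h.tk hr
  hΦ := h.hΦ
  hΥ := h.hΥ
  hx := tnd_sub h.hx hr
  hy := tnd_sub h.hy hr
  gd := gd_sub h.gd hr
  eq n := h.eq (r n)
  no n := h.no (r n)

theorem Tk_const {κ : Type} (D : κ → L p) : Tk D fun _ => D :=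
  fun m e _ => ⟨0, fun _ _ => near_refl hp.out (ta_L p) m e D⟩

theorem ev_trs {R : Type} [CommRing R] (β : R) (F : R[X][X]) (x y : R) :
    (trs β F).evalEval x y = F.evalEval x (y + β) := by
  unfold trs evalEval
  rw [eval_comp]
  have h1 : (eval (C y) (X + C (C β)) : R[X]) = C (y + β) := by simp
  rw [h1]

theorem ev_sp {R : Type} [CommRing R] (u : R[X][X]) (A B : ℕ) (x y : R) :
    (sp u A B).evalEval x y = x ^ A * y ^ B * u.evalEval x y := by
  unfold sp
  rw [evalEval_mul, evalEval_mul, evalEval_pow, evalEval_pow]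
  simp [evalEval]

theorem opA_trs {R : Type} [CommRing R] (α : R) (F : R[X][X]) : opA α F = trs α (opA 0 F) := by
  unfold opA trs
  rw [comp_assoc]
  congr 1
  simp

theorem map_trs {R S : Type} [CommRing R] [CommRing S] (f : R →+* S) (β : R) (F : R[X][X]) :
    (trs β F).map (mapRingHom f) = trs (f β) (F.map (mapRingHom f)) := by
  unfold trs
  rw [map_comp]
  simp

end TF43
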