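import Pool.Agent.W_4ce76a_h45.QSyn

set_option autoImplicit false
set_option linter.unusedSectionVars false

/-!
# MP_4ce76a_lc, T3: the class of formulas
-/

namespace TF43

open TF45 MvPolynomial

variable {K : Type} [Field K] {n : ℕ}

/-- The class of formulas. -/
inductive Nea : Form K n → Prop
  | eq (f : MvPolynomial (Fin n) K) : Nea (.eq f)
  | dvd (f g : MvPolynomial (Fin n) K) : Nea (.dvd f g)
  | not {φ : Form K n} : Nea φ → Nea (.not φ)
  | and {φ ψ : Form K n} : Nea φ → Nea ψ → Nea (.and φ ψ)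
  | ex (v : Fin n) {φ : Form K n} : Nea φ → φ.Sep v → Nea (.ex v φ)
  | ee (z u : Fin n) {φ : Form K n} : Nea φ → φ.Sep2 z u → Nea (.ex z (.ex u φ))
  | ea (z u : Fin n) {φ : Form K n} : Nea φ → φ.Sep2 z u → Nea (.ex z (.not (.ex u φ)))
  | clo {φ : Form K n} : φ.Clo → Nea φ
  | closed (vs : List (Fin n)) {φ : Form K n} : Nea φ → (∀ u, ¬ (Form.exs vs φ).Free u) →
      Nea (Form.exs vs φ)
  | unary (vs : List (Fin n)) (v : Fin n) {φ : Form K n} : Nea φ → φ.Cst →
      (∀ u, (Form.exs vs φ).Free u → u = v) → Nea (Form.exs vs φ)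

/-- `∃ x_v, φ` for `b = true`, `∀ x_v, φ` for `b = false` -/
def qt (b : Bool) (v : Fin n) (φ : Form K n) : Form K n :=
  if b then .ex v φ else .not (.ex v (.not φ))

/-- `∃ x_v1, ..., ∃ x_vr, φ` for `b = true`, `∀ x_v1, ..., ∀ x_vr, φ` for `b = false` -/
def qts (b : Bool) (vs : List (Fin n)) (φ : Form K n) : Form K n :=
  if b then Form.exs vs φ else Form.alls vs φ

end TF43
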