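import Pool.Agent.W_4ce76a_h43.Def

set_option autoImplicit false
set_option linter.unusedSectionVars false

/-!
# MP_4ce76a_lc, T3: polynomials with coefficients in `k`
-/

namespace TF43

open TF14 TF45 Polynomial

variable {p : ℕ} [hp : Fact p.Prime] {k : IntermediateField (K p) (L p)}

/-- Proof: with `D0 i : k` the elements `D i`, `F0 = spz D0 Φ` (for the `K p`-algebra `k`); `Polynomial.map_map`, `mapRingHom_comp`, and
`(algebraMap k (L p)).comp (aeval D0) = aeval D` (`MvPolynomial.ringHom_ext`). -/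
theorem coef_spz {κ : Type} {D : κ → L p} (hD : ∀ i, D i ∈ k)
    (Φ : (MvPolynomial κ (K p))[X][X]) : CoefIn k (spz D Φ) := by
  refine ⟨spz (fun i => (⟨D i, hD i⟩ : ↥k)) Φ, ?_⟩
  unfold spz
  rw [Polynomial.map_map, mapRingHom_comp]
  congr 2
  apply MvPolynomial.ringHom_ext
  · intro r
    simp only [RingHom.comp_apply, RingHom.coe_coe, MvPolynomial.aeval_C]
    exact (IsScalarTower.algebraMap_apply (K p) (↥k) (L p) r).symm
  · intro i
    simp only [RingHom.comp_apply, RingHom.coe_coe, MvPolynomial.aeval_X]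
    rfl

/-- Proof: `map_opA`. -/
theorem coef_opA {α : L p} (hα : α ∈ k) {F : (L p)[X][X]} (h : CoefIn k F) :
    CoefIn k (opA α F) := by
  obtain ⟨F0, rfl⟩ := h
  exact ⟨opA ⟨α, hα⟩ F0, map_opA _ _ _⟩

/-- Proof: `map_opB`. -/
theorem coef_opB {F : (L p)[X][X]} (h : CoefIn k F) : CoefIn k (opB F) := by
  obtain ⟨F0, rfl⟩ := h
  exact ⟨opB F0, map_opB _ _⟩

/-- Proof: `map_trs`. -/
theorem coef_trs {α : L p} (hα : α ∈ k) {F : (L p)[X][X]} (h : CoefIn k F) :
    CoefIn k (trs α F) := by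
  obtain ⟨F0, rfl⟩ := h
  exact ⟨trs ⟨α, hα⟩ F0, map_trs _ _ _⟩

theorem coef_mul {F G : (L p)[X][X]} (h : CoefIn k F) (h' : CoefIn k G) :
    CoefIn k (F * G) := by
  obtain ⟨F0, rfl⟩ := h
  obtain ⟨G0, rfl⟩ := h'
  exact ⟨F0 * G0, Polynomial.map_mul _⟩

theorem coef_lin {α : L p} (hα : α ∈ k) (B : ℕ) : CoefIn k ((X + C (C α)) ^ B) := by
  refine ⟨(X + C (C ⟨α, hα⟩)) ^ B, ?_⟩
  rw [Polynomial.map_pow, Polynomial.map_add, map_X, map_C, coe_mapRingHom, map_C]
  rfl

/-- Proof: `F = F0.map ..`; the value is the image of `F0.evalEval 0 0` (`Polynomial.coeff_map`, `QSpz_zero`). -/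
theorem coef_val {F : (L p)[X][X]} (h : CoefIn k F) : F.evalEval 0 0 ∈ k := by
  obtain ⟨F0, rfl⟩ := h
  rw [QSpz_zero, coeff_map, coe_mapRingHom, coeff_map]
  exact ((F0.coeff 0).coeff 0).2

/-- The lowest power of `X`.  Proof: strong induction, or: `F ≠ 0`, so some coefficient `(F.coeff j).coeff i` is not zero; let `m` be the smallest
such `i`.  `C X ^ m` divides `F` (`C (X ^ m) ∣ F` iff `X ^ m` divides all coefficients `F.coeff j`: `Polynomial.C_dvd_iff_dvd_coeff`,
`Polynomial.X_pow_dvd_iff`), `F = C X ^ m * H`, and `H.map (evalRingHom 0) ≠ 0`, since `((F.coeff j).coeff m) = (H.coeff j).coeff 0` is not zero for some `j`. -/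
theorem low_X {R : Type} [Field R] {F : R[X][X]} (hF : F ≠ 0) :
    ∃ (m : ℕ) (H : R[X][X]), F = C X ^ m * H ∧ H.map (evalRingHom 0) ≠ 0 := by
  classical
  have hex : ∃ m, ∃ j, (F.coeff j).coeff m ≠ 0 := by
    by_contra hcon
    push Not at hcon
    apply hF
    ext j m
    rw [hcon m j, coeff_zero, coeff_zero]
  obtain ⟨j, hj⟩ := Nat.find_spec hex
  set m := Nat.find hex with hm
  have hlt : ∀ i < m, ∀ j, (F.coeff j).coeff i = 0 := by
    intro i hi j
    by_contra hne
    exact Nat.find_min hex hi ⟨j, hne⟩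
  have hdvd : C (X ^ m : R[X]) ∣ F := by
    rw [C_dvd_iff_dvd_coeff]
    intro i
    rw [X_pow_dvd_iff]
    intro d hd
    exact hlt d hd i
  obtain ⟨H, hH⟩ := hdvd
  refine ⟨m, H, by rw [← C_pow]; exact hH, ?_⟩
  intro h0
  have h1 : (H.coeff j).coeff 0 = 0 := by
    have h2 := congrArg (fun P => P.coeff j) h0
    simp only [coeff_map, coeff_zero, coe_evalRingHom] at h2
    rwa [← coeff_zero_eq_eval_zero] at h2
  apply hj
  rw [hH, coeff_C_mul, coeff_X_pow_mul', if_pos le_rfl, Nat.sub_self, h1]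

private theorem coef_ev {R S : Type} [CommRing R] [CommRing S] (f : R →+* S) (G : R[X][X])
    (b : S) : (G.map (mapRingHom f)).evalEval 0 b = (G.map (evalRingHom 0)).eval₂ f b := by
  have h : (evalEvalRingHom 0 b).comp (mapRingHom (mapRingHom f)) =
      (eval₂RingHom f b).comp (mapRingHom (evalRingHom 0)) := by
    apply Polynomial.ringHom_ext
    · intro a
      simp only [RingHom.comp_apply, coe_mapRingHom, map_C, evalEval_C,
        coe_evalRingHom, coe_eval₂RingHom, eval₂_C]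
      rw [eval_map, eval₂_eq_eval_map, eval_map, eval₂_at_zero, ← coeff_zero_eq_eval_zero]
    · simp
  exact congrArg (fun g => g G) h

/-- (*) of the paper proof.  Proof: `F = F0.map ..`, `F0 ≠ 0`, `low_X` for `F0`: `F0 = C X ^ m * H0`, `U = trs β (H0.map ..)`;
`U.evalEval 0 0 = (H0.map ..).evalEval 0 β = aeval β (H0.map (evalRingHom 0))` is not zero by `hk`, since `β ∉ k`. -/
theorem low_trs (hk : RC k) {F : (L p)[X][X]} (h : CoefIn k F) (hF : F ≠ 0) {β : L p}
    (hβ : β ∉ k) : ∃ (m : ℕ) (U : (L p)[X][X]), U.evalEval 0 0 ≠ 0 ∧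
      trs β F = C X ^ m * U := by
  obtain ⟨F0, rfl⟩ := h
  have hF0 : F0 ≠ 0 := by
    rintro rfl
    exact hF (Polynomial.map_zero _)
  obtain ⟨m, H0, hH, hne⟩ := low_X hF0
  refine ⟨m, trs β (H0.map (mapRingHom (algebraMap (↥k) (L p)))), ?_, ?_⟩
  · rw [ev_trs, zero_add, coef_ev]
    intro h0
    exact hβ (hk _ hne β h0)
  · rw [hH, Polynomial.map_mul, Polynomial.map_pow, map_C]
    unfold trs
    rw [mul_comp, pow_comp, C_comp, coe_mapRingHom, map_X]

end TF43
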