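import Pool.Agent.W_4ce76a_h43.Def

set_option autoImplicit false
set_option linter.unusedSectionVars false

/-!
# MP_4ce76a_lc, T3: fat stop, the generic points (section 5 (a) of row 524)
-/

namespace TF43

open TF14 TF45 Polynomial

variable {p : ℕ} [hp : Fact p.Prime]

/-- Lipschitz estimate at the origin.  Proof: `QSpz_mv2` and induction on `P : MvPolynomial (Fin 2) (L p)` (for `x`, `y` in the valuation ring also
`VG (-C) (value)`); or expand in the coefficients. -/
theorem fat_lip (E : (L p)[X][X]) : ∃ c : ℕ, ∀ (x y : L p) (N : ℤ), 0 ≤ N → VG N x → VG N y →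
    VG (N - c) (E.evalEval x y - E.evalEval 0 0) := by
  induction E using Polynomial.induction_on' with
  | add f g hf hg =>
    obtain ⟨c, hc⟩ := hf
    obtain ⟨d, hd⟩ := hg
    refine ⟨max c d, fun x y N hN hx hy => ?_⟩
    have h1 := vg_mono (m := N - (max c d : ℕ)) (by
      have := le_max_left c d
      have h2 : (c : ℤ) ≤ (max c d : ℕ) := by exact_mod_cast this
      linarith) (hc x y N hN hx hy)
    have h2 := vg_mono (m := N - (max c d : ℕ)) (by
      have := le_max_right c d
      have h2 : (d : ℤ) ≤ (max c d : ℕ) := by exact_mod_cast this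
      linarith) (hd x y N hN hx hy)
    have h3 := vg_add h1 h2
    have h4 : (f + g).evalEval x y - (f + g).evalEval 0 0 =
        f.evalEval x y - f.evalEval 0 0 + (g.evalEval x y - g.evalEval 0 0) := by
      rw [evalEval_add, evalEval_add]
      ring
    rwa [h4]
  | monomial j q =>
    induction q using Polynomial.induction_on' with
    | add f g hf hg =>
      obtain ⟨c, hc⟩ := hf
      obtain ⟨d, hd⟩ := hg
      refine ⟨max c d, fun x y N hN hx hy => ?_⟩
      have h1 := vg_mono (m := N - (max c d : ℕ)) (by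
        have := le_max_left c d
        have h2 : (c : ℤ) ≤ (max c d : ℕ) := by exact_mod_cast this
        linarith) (hc x y N hN hx hy)
      have h2 := vg_mono (m := N - (max c d : ℕ)) (by
        have := le_max_right c d
        have h2 : (d : ℤ) ≤ (max c d : ℕ) := by exact_mod_cast this
        linarith) (hd x y N hN hx hy)
      have h3 := vg_add h1 h2
      have h4 : (monomial j (f + g)).evalEval x y - (monomial j (f + g)).evalEval 0 0 =
          (monomial j f).evalEval x y - (monomial j f).evalEval 0 0 +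
            ((monomial j g).evalEval x y - (monomial j g).evalEval 0 0) := by
        rw [map_add, evalEval_add, evalEval_add]
        ring
      rwa [h4]
    | monomial i a =>
      obtain ⟨c, hc⟩ := vg_bound a
      have hev : ∀ x y : L p, (monomial j (monomial i a)).evalEval x y = a * x ^ i * y ^ j := by
        intro x y
        unfold evalEval
        rw [eval_monomial, eval_mul, eval_monomial, eval_pow, eval_C]
      refine ⟨c, fun x y N hN hx hy => ?_⟩
      rw [hev, hev]
      by_cases hij : i = 0 ∧ j = 0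
      · obtain ⟨rfl, rfl⟩ := hij
        simp only [pow_zero, sub_self]
        exact vg_zero _
      · have h0 : a * (0 : L p) ^ i * 0 ^ j = 0 := by
          by_cases hi : i = 0
          · have hj : j ≠ 0 := fun h => hij ⟨hi, h⟩
            rw [zero_pow hj, mul_zero]
          · rw [zero_pow hi, mul_zero, zero_mul]
        rw [h0, sub_zero]
        have h1 := vg_mul (vg_mul hc (vg_pow hx i)) (vg_pow hy j)
        refine vg_mono ?_ h1
        have h2 : 1 ≤ i + j := by omega
        have h3 : (1 : ℤ) ≤ (i : ℤ) + j := by exact_mod_cast h2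
        nlinarith

/-- Proof.  `A = p * a`.  `γ = E (0, 0) ∈ k`, `b = x n ^ a`: `σ n - γ b ^ p = x n ^ A * (E (x n, y n) - γ)`, `x n ≠ 0`.  For large `n` `E (x n, y n) ≠ 0` has the order `e0`
of `γ` (`spz_tnd`-like: `ev_eqv`, `eqv_iff`; or `fat_lip`), `ord (σ n) = A * ord (x n) + e0`, and `ord (σ n - γ b ^ p) - ord (σ n) = ord (E (x n, y n) - γ) - e0`.
Fix `M` (say `M ≥ 1`).  Suppose `y n = 0` or `M * ord (y n) > ord (x n)`; let `N` be `ord (x n)` if `y n = 0` and the minimum of `ord (x n)`, `ord (y n)` otherwise.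
`N → ∞` and `ord (x n) ≤ M * N`.  By `fat_lip` `ord (E (x n, y n) - γ) ≥ N - c`, so by `gen` with `M' = A * M + 1`
`M' * (N - c - e0) < A * ord (x n) + e0 ≤ A * M * N + e0`, so `N < M' * (c + e0) + e0`, impossible for large `n`. -/
theorem fat_dom {k : Set (L p)} {E : (L p)[X][X]} {x y σ s : ℕ → L p} (hx : Tnd x 0)
    (hy : Tnd y 0) (hG : Gd k σ s) {A : ℕ} (hA : p ∣ A) (hA0 : 0 < A)
    (hE0 : E.evalEval 0 0 ≠ 0) (hEk : E.evalEval 0 0 ∈ k)
    (heq : ∀ n, x n ^ A * E.evalEval (x n) (y n) = σ n) : Dom x y := by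
  intro M
  obtain ⟨a, ha⟩ := hA
  obtain ⟨c, hc⟩ := fat_lip E
  set γ := E.evalEval 0 0 with hγ
  set M1 : ℕ := M + 1 with hM1
  set M' : ℕ := A * M1 + 1 with hM'
  set K : ℤ := max 0 (max ((c : ℤ) + ord γ + 1) ((M' : ℤ) * (c + ord γ) + ord γ)) with hK
  obtain ⟨n0, h0⟩ := tnd_iff.1 hx K
  obtain ⟨n1, h1⟩ := tnd_iff.1 hy K
  obtain ⟨n2, h2⟩ := hG.gen γ hEk hE0 M'
  have hK0 : 0 ≤ K := le_max_left _ _
  have hK1 : (c : ℤ) + ord γ + 1 ≤ K := (le_max_left _ _).trans (le_max_right _ _)
  have hK2 : (M' : ℤ) * (c + ord γ) + ord γ ≤ K := (le_max_right _ _).trans (le_max_right _ _)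
  refine ⟨max n0 (max n1 n2), fun n hn => ?_⟩
  have g0 := h0 n ((le_max_left _ _).trans hn)
  have g1 := h1 n ((le_max_left _ _).trans ((le_max_right _ _).trans hn))
  have g2 := h2 n ((le_max_right _ _).trans ((le_max_right _ _).trans hn))
  rw [sub_zero] at g0 g1
  have hxn : x n ≠ 0 := by
    intro h
    have h3 := heq n
    rw [h, zero_pow hA0.ne', zero_mul] at h3
    exact hG.ne n h3.symm
  have hxK : K ≤ ord (x n) := (vg_ord hxn).1 g0
  -- the main claim
  have main : ∀ N : ℤ, K ≤ N → VG N (x n) → VG N (y n) → ord (x n) ≤ M1 * N → False := by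
    intro N hKN hxN hyN hle
    have hN0 : 0 ≤ N := hK0.trans hKN
    have h3 := hc (x n) (y n) N hN0 hxN hyN
    set z := E.evalEval (x n) (y n) - γ with hz
    have h4 : E.evalEval (x n) (y n) = γ + z := by rw [hz]; ring
    have h5 : VG (ord γ + 1) z := vg_mono (by linarith) h3
    obtain ⟨h6, h7⟩ := ord_add_of_vg hE0 h5
    have h8 : ord (σ n) = A * ord (x n) + ord γ := by
      rw [← heq n, h4, ord_mul (pow_ne_zero _ hxn) h6, ord_pow, h7]
    obtain ⟨h9, h10⟩ := g2 (x n ^ a)
    have h11 : (x n ^ a) ^ p = x n ^ A := by rw [← pow_mul, ha, mul_comm]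
    rw [h11] at h9 h10
    have h12 : σ n - γ * x n ^ A = x n ^ A * z := by
      rw [← heq n, h4]
      ring
    have hz0 : z ≠ 0 := by
      intro h
      apply h9
      have h13 := h12
      rw [h, mul_zero] at h13
      exact sub_eq_zero.1 h13
    have h13 : N - c ≤ ord z := (vg_ord hz0).1 h3
    rw [h12, ord_mul (pow_ne_zero _ hxn) hz0, ord_pow, h8] at h10
    have h14 : (M' : ℤ) * (N - c - ord γ) ≤ (M' : ℤ) * (ord z - ord γ) :=
      mul_le_mul_of_nonneg_left (by linarith) (Int.natCast_nonneg _)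
    have h15 : (A : ℤ) * ord (x n) ≤ A * (M1 * N) :=
      mul_le_mul_of_nonneg_left hle (Int.natCast_nonneg _)
    have h16 : (M' : ℤ) * N = A * (M1 * N) + N := by
      rw [hM']
      push_cast
      ring
    have h17 : (A : ℤ) * ord (x n) + ord z - (A * ord (x n) + ord γ) = ord z - ord γ := by ring
    rw [h17] at h10
    have h18 : (M' : ℤ) * (N - c - ord γ) = M' * N - M' * (c + ord γ) := by ring
    linarith
  have hM1' : (M1 : ℤ) = M + 1 := by
    rw [hM1]
    push_cast
    ring
  have hself : ∀ N : ℤ, 0 ≤ N → N ≤ M1 * N := by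
    intro N hN
    rw [hM1']
    have : 0 ≤ (M : ℤ) * N := mul_nonneg (Int.natCast_nonneg _) hN
    linarith
  have hyn : y n ≠ 0 := by
    intro h
    refine main (ord (x n)) hxK ((vg_ord hxn).2 le_rfl) ?_ (hself _ (hK0.trans hxK))
    rw [h]
    exact vg_zero _
  have hyK : K ≤ ord (y n) := (vg_ord hyn).1 g1
  refine ⟨hxn, hyn, ?_⟩
  by_contra hcon
  rw [not_le] at hcon
  have hy0 : 0 ≤ ord (y n) := hK0.trans hyK
  have h3 : ord (x n) ≤ M1 * ord (y n) := by
    rw [hM1']
    linarith
  rcases le_total (ord (x n)) (ord (y n)) with h | h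
  · exact main (ord (x n)) hxK ((vg_ord hxn).2 le_rfl) ((vg_ord hyn).2 h)
      (hself _ (hK0.trans hxK))
  · exact main (ord (y n)) hyK ((vg_ord hxn).2 h) ((vg_ord hyn).2 le_rfl) h3

end TF43
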