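import Pool.Agent.W_4ce76a_h43.FatC

set_option autoImplicit false
set_option linter.unusedSectionVars false

/-!
# MP_4ce76a_lc, T3: fat stop, the transfer (section 5 (c) of row 524)
-/

namespace TF43

open TF14 TF45 Polynomial

variable {p : ℕ} [hp : Fact p.Prime] {κ : Type}

private theorem FatD_const (D : κ → L p) : Tk D (fun _ : ℕ => D) :=
  fun m e _ => ⟨0, fun _ _ => near_refl hp.out (ta_L p) m e D⟩

private theorem FatD_unif [Finite κ] {D : κ → L p} {Dn : ℕ → κ → L p} (hT : Tk D Dn)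
    (Γ : (MvPolynomial κ (K p))[X][X]) {x : ℕ → L p} (hx : Tnd x 0) {e : L p} (he : e ≠ 0) :
    ∃ d : L p, d ≠ 0 ∧ ∃ n0 : ℕ, ∀ n ≥ n0, ∀ y' : L p, Cl (OL p) d y' 0 →
      Cl (OL p) e ((spz (Dn n) Γ).evalEval (x n) y') ((spz D Γ).evalEval 0 0) := by
  classical
  obtain ⟨P, hP⟩ := spz_mv Γ
  obtain ⟨d, hd, h1⟩ := cont_aeval (O := OL p) P (Sum.elim D ![(0 : L p), 0]) he
  choose m hm using fun i => tk_tnd hT i d hd
  obtain ⟨M, hM⟩ := Finite.exists_le m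
  obtain ⟨nx, hnx⟩ := hx d hd
  refine ⟨d, hd, max M nx, fun n hn y' hy' => ?_⟩
  have h2 := h1 (Sum.elim (Dn n) ![x n, y']) (by
    intro i
    rcases i with i | i
    · exact hm i n ((hM i).trans ((le_max_left _ _).trans hn))
    · fin_cases i
      · exact hnx n ((le_max_right _ _).trans hn)
      · exact hy')
  rw [hP, hP] at h2
  exact h2

/-- The lift for one sequence of units. -/
private theorem FatD_one [Finite κ] {D : κ → L p} {Dn : ℕ → κ → L p} (hT : Tk D Dn)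
    (Υ Q P : (MvPolynomial κ (K p))[X][X])
    (hE1 : (derivative (spz D Υ)).evalEval 0 0 ≠ 0)
    (hQ : (spz D Q).evalEval 0 0 = (derivative (spz D Υ)).evalEval 0 0)
    (hs : ∀ (E : κ → L p) (x y : L p), (spz E Υ).evalEval x y =
        (spz E Υ).evalEval 0 0 + x * (spz E P).evalEval x 0 + y * (spz E Q).evalEval x y)
    {A : ℕ} {x y σ s η : ℕ → L p} (hx : Tnd x 0) (hy : Tnd y 0)
    (hσ : ∀ n, σ n ≠ 0) (hq : Tnd (fun n => s n / σ n) 1)
    (heq : ∀ n, x n ^ A * (spz D Υ).evalEval (x n) (y n) = σ n) (hη : Tnd η 1) :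
    ∃ (y' : ℕ → L p) (n0 : ℕ), Tnd y' 0 ∧ ∀ n ≥ n0, η n ≠ 0 ∧ ord (η n) = 0 ∧
      (x n * η n) ^ A * (spz (Dn n) Υ).evalEval (x n * η n) (y' n) = s n ∧
      ∃ q : L p, q ≠ 0 ∧ ord q = ord ((derivative (spz D Υ)).evalEval 0 0) ∧
        y' n * q = (s n / σ n) * (η n)⁻¹ ^ A * (spz D Υ).evalEval (x n) (y n)
          - (spz (Dn n) Υ).evalEval 0 0 - (x n * η n) * (spz (Dn n) P).evalEval (x n * η n) 0 := by
  classical
  set q0 := ord ((derivative (spz D Υ)).evalEval 0 0) with hq0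
  have hx' : Tnd (fun n => x n * η n) 0 := by
    have h := tnd_mul hx hη
    rwa [zero_mul] at h
  have hE : Tnd (fun n => (spz D Υ).evalEval (x n) (y n)) ((spz D Υ).evalEval 0 0) :=
    spz_tnd (FatD_const D) hx hy Υ
  have hηi : Tnd (fun n => (η n)⁻¹) 1 := by
    have h := tnd_inv hη one_ne_zero
    rwa [_root_.inv_one] at h
  have hg : Tnd (fun n => (s n / σ n) * (η n)⁻¹ ^ A * (spz D Υ).evalEval (x n) (y n))
      ((spz D Υ).evalEval 0 0) := by
    have h := tnd_mul (tnd_mul hq (tnd_pow hηi A)) hE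
    rwa [one_pow, one_mul, one_mul] at h
  obtain ⟨d, hd, n1, hn1⟩ := FatD_unif hT Q hx' (e := tL p ^ (q0 + 1))
    (zpow_ne_zero _ tne)
  obtain ⟨n2, hn2⟩ := hens_y hT Υ hE1 hx' hg hd
  obtain ⟨n3, hn3⟩ := tnd_ord hη one_ne_zero
  choose! y' hy'1 hy'2 using hn2
  have hr : Tnd (fun n => (s n / σ n) * (η n)⁻¹ ^ A * (spz D Υ).evalEval (x n) (y n)
      + (-(spz (Dn n) Υ).evalEval 0 0 + -((x n * η n) * (spz (Dn n) P).evalEval (x n * η n) 0)))
      0 := by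
    have h0 : Tnd (fun _ : ℕ => (0 : L p)) 0 := tnd_const 0
    have h1 : Tnd (fun n => (spz (Dn n) Υ).evalEval 0 0) ((spz D Υ).evalEval 0 0) :=
      spz_tnd hT h0 h0 Υ
    have h2 : Tnd (fun n => (spz (Dn n) P).evalEval (x n * η n) 0) ((spz D P).evalEval 0 0) :=
      spz_tnd hT hx' h0 P
    have h3 : Tnd (fun n => -1 * (spz (Dn n) Υ).evalEval 0 0) (-1 * (spz D Υ).evalEval 0 0) :=
      tnd_mul (tnd_const (-1)) h1
    have h4 : Tnd (fun n => -1 * ((x n * η n) * (spz (Dn n) P).evalEval (x n * η n) 0))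
        (-1 * (0 * (spz D P).evalEval 0 0)) :=
      tnd_mul (tnd_const (-1)) (tnd_mul hx' h2)
    have h5 := tnd_add hg (tnd_add h3 h4)
    simp only [neg_one_mul, zero_mul, neg_zero, add_zero, add_neg_cancel] at h5
    exact h5
  have hq' : ∀ n ≥ max n1 n2, ∃ q : L p, q ≠ 0 ∧ ord q = q0 ∧
        y' n * q = (s n / σ n) * (η n)⁻¹ ^ A * (spz D Υ).evalEval (x n) (y n)
          - (spz (Dn n) Υ).evalEval 0 0
          - (x n * η n) * (spz (Dn n) P).evalEval (x n * η n) 0 := by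
    intro n hn
    have h1 := hn1 n ((le_max_left _ _).trans hn) (y' n) (hy'1 n ((le_max_right _ _).trans hn))
    rw [cl_vg, hQ] at h1
    have h2 := ord_add_of_vg hE1 h1
    rw [add_sub_cancel] at h2
    refine ⟨(spz (Dn n) Q).evalEval (x n * η n) (y' n), h2.1, h2.2, ?_⟩
    have h3 := hy'2 n ((le_max_right _ _).trans hn)
    rw [hs] at h3
    rw [← h3]
    ring
  refine ⟨y', max (max n1 n2) n3, ?_, fun n hn => ?_⟩
  · rw [tnd_iff] at hr ⊢
    intro N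
    obtain ⟨n4, hn4⟩ := hr (N + q0)
    refine ⟨max (max n1 n2) n4, fun n hn => ?_⟩
    obtain ⟨q, hqn, hqo, hqe⟩ := hq' n ((le_max_left _ _).trans hn)
    have h1 := hn4 n ((le_max_right _ _).trans hn)
    rw [sub_zero] at h1 ⊢
    have h2 : (s n / σ n) * (η n)⁻¹ ^ A * (spz D Υ).evalEval (x n) (y n)
      + (-(spz (Dn n) Υ).evalEval 0 0 + -((x n * η n) * (spz (Dn n) P).evalEval (x n * η n) 0))
      = y' n * q := by
      rw [hqe]
      ring
    rw [h2] at h1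
    by_cases hy0 : y' n = 0
    · rw [hy0]
      exact vg_zero _
    · rw [vg_ord (mul_ne_zero hy0 hqn), ord_mul hy0 hqn, hqo] at h1
      rw [vg_ord hy0]
      linarith
  · have hn12 : n ≥ max n1 n2 := (le_max_left _ _).trans hn
    obtain ⟨h1, h2⟩ := hn3 n ((le_max_right _ _).trans hn)
    rw [ord_one] at h2
    refine ⟨h1, h2, ?_, hq' n hn12⟩
    rw [hy'2 n ((le_max_right _ _).trans hn12), mul_pow]
    have h3 : x n ^ A * η n ^ A * (s n / σ n * (η n)⁻¹ ^ A * (spz D Υ).evalEval (x n) (y n)) =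
        (η n * (η n)⁻¹) ^ A * (s n / σ n) * (x n ^ A * (spz D Υ).evalEval (x n) (y n)) := by
      rw [mul_pow]
      ring
    rw [h3, heq, mul_inv_cancel₀ h1, one_pow, one_mul, div_mul_cancel₀ _ (hσ n)]

/-- Transfer with a dominated second coordinate.  Proof.  `X n = ord (x n) → ∞` (`x n ≠ 0` as `A > 0`, `σ n ≠ 0`), `l n = Nat.sqrt (X n).toNat`: `l n → ∞` and
`M * l n ≤ X n` for `n` large, every `M`.  For `η = 1` and `η = 1 + t ^ l n` put `x' = x n * η`, `g = (s n / σ n) * (η⁻¹) ^ A * E (x n, y n) → E (0, 0)`; `hens_y`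
gives `y'` with `E_n (x', y') = g`, so `x' ^ A * E_n (x', y') = s n`.  Let `e0 = ord (E (0, 0))`, `q0 = ord (E_Y (0, 0))`.  For large `n` by `fat_split`
`y' * Q_n (x', y') = g - E_n (0, 0) - x' * P_n (x', 0)`, `ord (Q_n) = q0`, `VG (-c) (P_n)`.  So `y' → 0` for both.  The difference of the two right sides is
`(s n / σ n) * E (x n, y n) * (1 - η⁻¹ ^ A)` up to an element of order at least `X n - c`; its order is `e0 + i * l n` (`fat_bin`), which is less than `X n - c` for large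
`n`.  So not both `y'` are `0` or of order greater than `e0 + i * l n - q0`; choose one with `y' ≠ 0`, `ord y' ≤ e0 + i * l n - q0`.  `ord x' = X n`.  `Dom`: for `M` and large
`n` `M * (e0 + i * l n - q0) ≤ X n`. -/
theorem fat_tr {κ : Type} [Finite κ] {D : κ → L p} {Dn : ℕ → κ → L p} (hT : Tk D Dn)
    (Υ : (MvPolynomial κ (K p))[X][X]) (hE0 : (spz D Υ).evalEval 0 0 ≠ 0)
    (hE1 : (derivative (spz D Υ)).evalEval 0 0 ≠ 0)
    {A : ℕ} (hA0 : 0 < A) {x y σ s : ℕ → L p} (hx : Tnd x 0) (hy : Tnd y 0)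
    (hσ : ∀ n, σ n ≠ 0) (hq : Tnd (fun n => s n / σ n) 1)
    (heq : ∀ n, x n ^ A * (spz D Υ).evalEval (x n) (y n) = σ n) :
    ∃ (x' y' : ℕ → L p) (n0 : ℕ), Tnd x' 0 ∧ Tnd y' 0 ∧ Dom x' y' ∧
      ∀ n ≥ n0, x' n ^ A * (spz (Dn n) Υ).evalEval (x' n) (y' n) = s n := by
  classical
  set E0 := (spz D Υ).evalEval 0 0 with hE0d
  set E1 := (derivative (spz D Υ)).evalEval 0 0 with hE1d
  obtain ⟨i, hi0, hiA, hi⟩ := fat_bin (p := p) hA0
  obtain ⟨Q, P, hQ, hs⟩ := fat_split (p := p) Υ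
  have hxne : ∀ n, x n ≠ 0 := by
    intro n h0
    apply hσ n
    rw [← heq n, h0, zero_pow (by omega), zero_mul]
  -- the orders of x n tend to infinity
  have hX : ∀ N : ℤ, ∃ n0 : ℕ, ∀ n ≥ n0, N ≤ ord (x n) := by
    intro N
    obtain ⟨n0, hn0⟩ := tnd_iff.1 hx N
    refine ⟨n0, fun n hn => ?_⟩
    have h1 := hn0 n hn
    rw [sub_zero, vg_ord (hxne n)] at h1
    exact h1
  obtain ⟨l, hl⟩ : ∃ l : ℕ → ℕ, ∀ n, l n = Nat.sqrt (ord (x n)).toNat := ⟨_, fun _ => rfl⟩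
  have hl1 : ∀ N : ℕ, ∃ n0 : ℕ, ∀ n ≥ n0, N ≤ l n := by
    intro N
    obtain ⟨n0, hn0⟩ := hX ((N : ℤ) * N)
    refine ⟨n0, fun n hn => ?_⟩
    rw [hl, Nat.le_sqrt]
    have h1 := hn0 n hn
    have h2 : (((N * N : ℕ)) : ℤ) ≤ ord (x n) := by
      push_cast
      exact h1
    omega
  have hl2 : ∀ M : ℕ, ∃ n0 : ℕ, ∀ n ≥ n0, 1 ≤ l n ∧ (M : ℤ) * (l n : ℤ) + M ≤ ord (x n) := by
    intro M
    obtain ⟨n0, hn0⟩ := hl1 (2 * M + 1)
    obtain ⟨n1, hn1⟩ := hX 0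
    refine ⟨max n0 n1, fun n hn => ?_⟩
    have h1 := hn0 n ((le_max_left _ _).trans hn)
    have h2 := hn1 n ((le_max_right _ _).trans hn)
    have h3 : l n * l n ≤ (ord (x n)).toNat := by
      rw [hl]
      exact Nat.sqrt_le _
    have h4 : ((l n * l n : ℕ) : ℤ) ≤ ord (x n) := by omega
    push_cast at h4
    have h5 : ((2 * M + 1 : ℕ) : ℤ) ≤ (l n : ℤ) := by exact_mod_cast h1
    push_cast at h5
    refine ⟨by omega, ?_⟩
    have h6 : (0 : ℤ) ≤ M := Int.natCast_nonneg M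
    nlinarith
  -- the two sequences of units
  have hη1 : Tnd (fun _ : ℕ => (1 : L p)) 1 := tnd_const 1
  have hη2 : Tnd (fun n => 1 + tL p ^ l n) 1 := by
    rw [tnd_iff]
    intro N
    obtain ⟨n0, hn0⟩ := hl1 N.toNat
    refine ⟨n0, fun n hn => ?_⟩
    have h1 := hn0 n hn
    rw [add_sub_cancel_left, vg_ord (pow_ne_zero _ tne), ord_tpow]
    omega
  obtain ⟨y1, m1, hy1, h1⟩ := FatD_one hT Υ Q P hE1 (hQ D) hs hx hy hσ hq heq hη1
  obtain ⟨y2, m2, hy2, h2⟩ := FatD_one hT Υ Q P hE1 (hQ D) hs hx hy hσ hq heq hη2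
  -- bounds
  have h0t : Tnd (fun _ : ℕ => (0 : L p)) 0 := tnd_const 0
  have hx1 : Tnd (fun n => x n * 1) 0 := by
    have h := tnd_mul hx hη1
    rwa [zero_mul] at h
  have hx2 : Tnd (fun n => x n * (1 + tL p ^ l n)) 0 := by
    have h := tnd_mul hx hη2
    rwa [zero_mul] at h
  obtain ⟨c1, m3, h3⟩ := tnd_bound (spz_tnd hT hx1 h0t P)
  obtain ⟨c2, m4, h4⟩ := tnd_bound (spz_tnd hT hx2 h0t P)
  have hE : Tnd (fun n => (spz D Υ).evalEval (x n) (y n)) E0 :=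
    spz_tnd (FatD_const D) hx hy Υ
  obtain ⟨m5, h5⟩ := tnd_ord hE hE0
  obtain ⟨m6, h6⟩ := tnd_ord hq one_ne_zero
  set e0 := ord E0 with he0
  set q0 := ord E1 with hq0
  -- the key choice
  have hkey : ∃ n0 : ℕ, ∀ n ≥ n0, ∃ a b : L p, (a = x n * 1 ∧ b = y1 n ∨
      a = x n * (1 + tL p ^ l n) ∧ b = y2 n) ∧ a ≠ 0 ∧ ord a = ord (x n) ∧ b ≠ 0 ∧
      ord b ≤ e0 + i * l n - q0 ∧ a ^ A * (spz (Dn n) Υ).evalEval a b = s n := by
    obtain ⟨m7, h7⟩ := hl2 (i + e0.natAbs + c1 + c2 + 1)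
    refine ⟨max (max (max m1 m2) (max m3 m4)) (max (max m5 m6) m7), fun n hn => ?_⟩
    have hm1 : n ≥ m1 := by
      simp only [ge_iff_le, max_le_iff] at hn
      exact hn.1.1.1
    have hm2 : n ≥ m2 := by
      simp only [ge_iff_le, max_le_iff] at hn
      exact hn.1.1.2
    have hm3 : n ≥ m3 := by
      simp only [ge_iff_le, max_le_iff] at hn
      exact hn.1.2.1
    have hm4 : n ≥ m4 := by
      simp only [ge_iff_le, max_le_iff] at hn
      exact hn.1.2.2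
    have hm5 : n ≥ m5 := by
      simp only [ge_iff_le, max_le_iff] at hn
      exact hn.2.1.1
    have hm6 : n ≥ m6 := by
      simp only [ge_iff_le, max_le_iff] at hn
      exact hn.2.1.2
    have hm7 : n ≥ m7 := by
      simp only [ge_iff_le, max_le_iff] at hn
      exact hn.2.2
    obtain ⟨k1, k2, k3, r1, k4, k5, k6⟩ := h1 n hm1
    obtain ⟨j1, j2, j3, r2, j4, j5, j6⟩ := h2 n hm2
    obtain ⟨g1, g2⟩ := h7 n hm7
    obtain ⟨a1, a2⟩ := h5 n hm5
    obtain ⟨b1, b2⟩ := h6 n hm6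
    rw [ord_one] at b2
    have p1 := h3 n hm3
    have p2 := h4 n hm4
    -- the difference
    have hw := hi (tL p ^ l n) (pow_ne_zero _ tne) (by rw [ord_tpow]; omega)
    rw [ord_tpow] at hw
    obtain ⟨w1, w2⟩ := hw
    have hdne : (s n / σ n) * (spz D Υ).evalEval (x n) (y n) *
        (((1 + tL p ^ l n) ^ A - 1) * ((1 + tL p ^ l n)⁻¹) ^ A) ≠ 0 :=
      mul_ne_zero (mul_ne_zero b1 a1) (mul_ne_zero w1 (pow_ne_zero _ (inv_ne_zero j1)))
    have hdo : ord ((s n / σ n) * (spz D Υ).evalEval (x n) (y n) *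
        (((1 + tL p ^ l n) ^ A - 1) * ((1 + tL p ^ l n)⁻¹) ^ A)) = e0 + i * l n := by
      rw [ord_mul (mul_ne_zero b1 a1) (mul_ne_zero w1 (pow_ne_zero _ (inv_ne_zero j1))),
        ord_mul b1 a1, ord_mul w1 (pow_ne_zero _ (inv_ne_zero j1)), b2, a2, w2, ord_pow,
        ord_inv j1, j2]
      ring
    have hpw : (1 + tL p ^ l n) ^ A * ((1 + tL p ^ l n)⁻¹) ^ A = 1 := by
      rw [← mul_pow, mul_inv_cancel₀ j1, one_pow]
    have hdiff : y1 n * r1 - y2 n * r2 = (s n / σ n) * (spz D Υ).evalEval (x n) (y n) *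
        (((1 + tL p ^ l n) ^ A - 1) * ((1 + tL p ^ l n)⁻¹) ^ A) +
        (x n * (1 + tL p ^ l n) * (spz (Dn n) P).evalEval (x n * (1 + tL p ^ l n)) 0
          - x n * 1 * (spz (Dn n) P).evalEval (x n * 1) 0) := by
      rw [k6, j6]
      have h8 : ((1 + tL p ^ l n) ^ A - 1) * ((1 + tL p ^ l n)⁻¹) ^ A =
          1 - ((1 + tL p ^ l n)⁻¹) ^ A := by
        rw [sub_mul, hpw, one_mul]
      rw [h8, _root_.inv_one, one_pow]
      ring
    have hxo1 : ord (x n * 1) = ord (x n) := by rw [mul_one]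
    have hxo2 : ord (x n * (1 + tL p ^ l n)) = ord (x n) := by
      rw [ord_mul (hxne n) j1, j2, add_zero]
    have hv : VG (e0 + i * l n + 1)
        (x n * (1 + tL p ^ l n) * (spz (Dn n) P).evalEval (x n * (1 + tL p ^ l n)) 0
          - x n * 1 * (spz (Dn n) P).evalEval (x n * 1) 0) := by
      have g3 : e0 ≤ (e0.natAbs : ℤ) := Int.le_natAbs
      simp only [Nat.cast_add, Nat.cast_one] at g2
      have g4 : (0 : ℤ) ≤ ((e0.natAbs : ℤ) + c1 + c2 + 1) * (l n : ℤ) := by positivity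
      have g6 : ((i : ℤ) + (e0.natAbs : ℤ) + c1 + c2 + 1) * (l n : ℤ) =
          (i : ℤ) * l n + ((e0.natAbs : ℤ) + c1 + c2 + 1) * (l n : ℤ) := by ring
      have g5 : (i : ℤ) * l n + ((i : ℤ) + e0.natAbs + c1 + c2 + 1) ≤ ord (x n) := by
        linarith
      have v1 := vg_mul ((vg_ord (mul_ne_zero (hxne n) j1)).2 le_rfl) p2
      have v2 := vg_mul ((vg_ord (mul_ne_zero (hxne n) one_ne_zero)).2 le_rfl) p1
      rw [hxo2] at v1
      rw [hxo1] at v2
      refine vg_sub (vg_mono ?_ v1) (vg_mono ?_ v2)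
      · have : (0 : ℤ) ≤ i := Int.natCast_nonneg i
        have : (0 : ℤ) ≤ c1 := Int.natCast_nonneg c1
        omega
      · have : (0 : ℤ) ≤ i := Int.natCast_nonneg i
        have : (0 : ℤ) ≤ c2 := Int.natCast_nonneg c2
        omega
    obtain ⟨z1, z2⟩ := ord_add_of_vg hdne (by rw [hdo]; exact hv)
    rw [← hdiff] at z1 z2
    rw [hdo] at z2
    -- one of the two
    by_cases hc : y1 n * r1 ≠ 0 ∧ ord (y1 n * r1) ≤ e0 + i * l n
    · refine ⟨x n * 1, y1 n, Or.inl ⟨rfl, rfl⟩, mul_ne_zero (hxne n) one_ne_zero, hxo1,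
        left_ne_zero_of_mul hc.1, ?_, k3⟩
      have c3 := hc.2
      rw [ord_mul (left_ne_zero_of_mul hc.1) k4, k5] at c3
      linarith
    · have v3 : VG (e0 + i * l n + 1) (y1 n * r1) := by
        by_cases hz : y1 n * r1 = 0
        · rw [hz]
          exact vg_zero _
        · rw [vg_ord hz]
          by_contra hcon
          exact hc ⟨hz, by omega⟩
      have hc2 : y2 n * r2 ≠ 0 ∧ ord (y2 n * r2) ≤ e0 + i * l n := by
        by_contra hcon
        have v4 : VG (e0 + i * l n + 1) (y2 n * r2) := by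
          by_cases hz : y2 n * r2 = 0
          · rw [hz]
            exact vg_zero _
          · rw [vg_ord hz]
            by_contra hcon2
            exact hcon ⟨hz, by omega⟩
        have v5 := vg_sub v3 v4
        rw [vg_ord z1, z2] at v5
        omega
      refine ⟨x n * (1 + tL p ^ l n), y2 n, Or.inr ⟨rfl, rfl⟩, mul_ne_zero (hxne n) j1, hxo2,
        left_ne_zero_of_mul hc2.1, ?_, j3⟩
      have c3 := hc2.2
      rw [ord_mul (left_ne_zero_of_mul hc2.1) j4, j5] at c3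
      linarith
  obtain ⟨n0, hn0⟩ := hkey
  choose! x' y' hc hx'0 hx'o hy'0 hy'o hfin using hn0
  refine ⟨x', y', n0, ?_, ?_, ?_, hfin⟩
  · rw [tnd_iff] at hx1 hx2 ⊢
    intro N
    obtain ⟨a1, ha1⟩ := hx1 N
    obtain ⟨a2, ha2⟩ := hx2 N
    refine ⟨max n0 (max a1 a2), fun n hn => ?_⟩
    have hb1 : n ≥ n0 := (le_max_left _ _).trans hn
    have hb2 : n ≥ a1 := (le_max_left _ _).trans ((le_max_right _ _).trans hn)
    have hb3 : n ≥ a2 := (le_max_right _ _).trans ((le_max_right _ _).trans hn)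
    rcases hc n hb1 with ⟨h8, -⟩ | ⟨h8, -⟩
    · rw [h8]
      exact ha1 n hb2
    · rw [h8]
      exact ha2 n hb3
  · rw [tnd_iff] at hy1 hy2 ⊢
    intro N
    obtain ⟨a1, ha1⟩ := hy1 N
    obtain ⟨a2, ha2⟩ := hy2 N
    refine ⟨max n0 (max a1 a2), fun n hn => ?_⟩
    have hb1 : n ≥ n0 := (le_max_left _ _).trans hn
    have hb2 : n ≥ a1 := (le_max_left _ _).trans ((le_max_right _ _).trans hn)
    have hb3 : n ≥ a2 := (le_max_right _ _).trans ((le_max_right _ _).trans hn)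
    rcases hc n hb1 with ⟨-, h8⟩ | ⟨-, h8⟩
    · rw [h8]
      exact ha1 n hb2
    · rw [h8]
      exact ha2 n hb3
  · intro M
    obtain ⟨a1, ha1⟩ := hl2 (M * (i + e0.natAbs + q0.natAbs))
    refine ⟨max n0 a1, fun n hn => ?_⟩
    have hb1 : n ≥ n0 := (le_max_left _ _).trans hn
    have hb2 : n ≥ a1 := (le_max_right _ _).trans hn
    refine ⟨hx'0 n hb1, hy'0 n hb1, ?_⟩
    rw [hx'o n hb1]
    have g1 := hy'o n hb1
    obtain ⟨g2, g3⟩ := ha1 n hb2
    simp only [Nat.cast_mul, Nat.cast_add] at g3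
    have g4 : e0 ≤ (e0.natAbs : ℤ) := Int.le_natAbs
    have g5 : -q0 ≤ (q0.natAbs : ℤ) := by omega
    have g6 : (0 : ℤ) ≤ M := Int.natCast_nonneg M
    have g7 : (1 : ℤ) ≤ (l n : ℤ) := by exact_mod_cast g2
    have g8 : ord (y' n) ≤ (e0.natAbs : ℤ) + (q0.natAbs : ℤ) + i * l n := by linarith
    have g9 : (M : ℤ) * ord (y' n) ≤ M * ((e0.natAbs : ℤ) + (q0.natAbs : ℤ) + i * l n) :=
      mul_le_mul_of_nonneg_left g8 g6
    have g10 : (0 : ℤ) ≤ (M : ℤ) * ((e0.natAbs : ℤ) + (q0.natAbs : ℤ)) * (l n : ℤ) := by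
      positivity
    have g11 : (0 : ℤ) ≤ (M : ℤ) * (i : ℤ) := by positivity
    nlinarith


end TF43
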