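import Pool.Agent.W_4ce76a_h43.LexB
import Pool.Agent.W_4ce76a_h43.FatA
import Pool.Agent.W_4ce76a_h43.FatD

set_option autoImplicit false
set_option linter.unusedSectionVars false

/-!
# MP_4ce76a_lc, T3: fat stop (end of section 5 of row 524)
-/

namespace TF43

open TF14 TF45 Polynomial

variable {p : ℕ} [hp : Fact p.Prime]

/-- fat stop with the value of `u` in `k` -/
theorem fat_in {J : Type} [Finite J] {k : Set (L p)} {F : J → (L p)[X][X]} {u : (L p)[X][X]}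
    {A : ℕ} (hA : p ∣ A) (hA0 : 0 < A) (hu : u.evalEval 0 0 ≠ 0) (huk : u.evalEval 0 0 ∈ k)
    (hu1 : (derivative u).evalEval 0 0 ≠ 0) : ¬ Bd3 k 0 F u A 0 := by
  rintro ⟨κ, hκ, D, Dn, Φ, Υ, x, y, σ, s, h⟩
  have heq : ∀ n, x n ^ A * u.evalEval (x n) (y n) = σ n := by
    intro n
    have h1 := h.eq n
    rwa [pow_zero, mul_one] at h1
  have hxy : Dom x y := fat_dom h.hx h.hy h.gd hA hA0 hu huk heq
  have heq' : ∀ n, x n ^ A * (spz D Υ).evalEval (x n) (y n) = σ n := by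
    intro n
    rw [h.hΥ]
    exact heq n
  obtain ⟨x', y', n0, hx', hy', hxy', h1⟩ := fat_tr h.tk Υ (by rw [h.hΥ]; exact hu)
    (by rw [h.hΥ]; exact hu1) hA0 h.hx h.hy h.gd.ne h.gd.quo heq'
  obtain ⟨n1, h2⟩ := lex_same h.tk h.hΦ h.hx h.hy hxy hx' hy' hxy'
  refine h.no (max n0 n1) ⟨x' (max n0 n1), y' (max n0 n1), ?_, h2 _ (le_max_right _ _)⟩
  rw [pow_zero, mul_one]
  exact h1 _ (le_max_left _ _)

/-- a monomial in `X` times a unit: the values do not depend on the second coordinate -/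
theorem Fat_mono {κ : Type} [Finite κ] {D : κ → L p} {Dn : ℕ → κ → L p} (hT : Tk D Dn)
    (Φ : (MvPolynomial κ (K p))[X][X]) {m : ℕ} {U : (L p)[X][X]} (hU : U.evalEval 0 0 ≠ 0)
    (hΦ : spz D Φ = C X ^ m * U) {x y y' : ℕ → L p} (hx : Tnd x 0) (hy : Tnd y 0)
    (hy' : Tnd y' 0) : ∃ n0 : ℕ, ∀ n ≥ n0, Eqv ((spz (Dn n) Φ).evalEval (x n) (y' n))
      ((spz D Φ).evalEval (x n) (y n)) := by
  classical
  obtain ⟨τ, hτ, d, Ψ, hΨ⟩ := cf_track (S := Unit) (fun _ => U)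
  obtain ⟨dn, hdn⟩ := tk_lift hT d
  have hd : Tk d dn := tk_comp hdn Sum.inr
  obtain ⟨n1, h1⟩ := spz_zero hdn
    (Φ.map (mapRingHom ((MvPolynomial.rename Sum.inl :
      MvPolynomial κ (K p) →ₐ[K p] MvPolynomial (κ ⊕ τ) (K p)) :
      MvPolynomial κ (K p) →+* MvPolynomial (κ ⊕ τ) (K p))) +
      C (C (MvPolynomial.C (-1))) * (C X ^ m * (Ψ ()).map (mapRingHom ((MvPolynomial.rename
        Sum.inr : MvPolynomial τ (K p) →ₐ[K p] MvPolynomial (κ ⊕ τ) (K p)) :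
        MvPolynomial τ (K p) →+* MvPolynomial (κ ⊕ τ) (K p))))) (by
      rw [QNice_add, QNice_mul, QNice_C, QNice_mul, QNice_pow, QNice_X, QNice_inl, QNice_inr,
        hΨ, hΦ]
      ring)
  have h2 : ∀ n ≥ n1, spz (Dn n) Φ = C X ^ m * spz (dn n) (Ψ ()) := by
    intro n hn
    have h3 := h1 n hn
    rw [QNice_add, QNice_mul, QNice_C, QNice_mul, QNice_pow, QNice_X, QNice_inl,
      QNice_inr] at h3
    have h4 : spz (Dn n) Φ - C X ^ m * spz (dn n) (Ψ ()) = 0 := by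
      rw [← h3]
      ring
    exact sub_eq_zero.1 h4
  have h5 := spz_tnd hd hx hy' (Ψ ())
  have h6 := spz_tnd (Tk_const d) hx hy (Ψ ())
  rw [hΨ] at h5 h6
  obtain ⟨n2, h7⟩ := tnd_eqv h5 hU
  obtain ⟨n3, h8⟩ := tnd_eqv h6 hU
  have hev : ∀ (V : (L p)[X][X]) (a b : L p), (C X ^ m * V).evalEval a b =
      a ^ m * V.evalEval a b := by
    intro V a b
    rw [evalEval_mul, evalEval_pow]
    simp [evalEval]
  refine ⟨max n1 (max n2 n3), fun n hn => ?_⟩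
  have hn1 : n1 ≤ n := (le_max_left _ _).trans hn
  have hn2 : n2 ≤ n := (le_max_left _ _).trans ((le_max_right _ _).trans hn)
  have hn3 : n3 ≤ n := (le_max_right _ _).trans ((le_max_right _ _).trans hn)
  rw [h2 n hn1, hΦ, hev, hev]
  exact eqv_mul (eqv_refl _) (eqv_trans (h7 n hn2) (eqv_symm (h8 n hn3)))

/-- fat stop with a family of monomials in `X` -/
theorem fat_out {J : Type} [Finite J] {k : Set (L p)} {F : J → (L p)[X][X]} {u : (L p)[X][X]}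
    {A : ℕ} (hu1 : (derivative u).evalEval 0 0 ≠ 0)
    (hF : ∀ j, F j = 0 ∨ ∃ (m : ℕ) (U : (L p)[X][X]), U.evalEval 0 0 ≠ 0 ∧
      F j = C X ^ m * U) : ¬ Bd3 k 0 F u A 0 := by
  rintro ⟨κ, hκ, D, Dn, Φ, Υ, x, y, σ, s, h⟩
  have heq' : ∀ n, x n ^ A * (spz D Υ).evalEval (x n) (y n) = σ n := by
    intro n
    have h1 := h.eq n
    rw [pow_zero, mul_one] at h1
    rw [h.hΥ]
    exact h1
  obtain ⟨y', n0, hy', h1⟩ := fat_tr1 h.tk Υ (by rw [h.hΥ]; exact hu1) h.hx h.hy h.gd.ne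
    h.gd.quo heq'
  have key : ∀ j, ∃ n1 : ℕ, ∀ n ≥ n1, Eqv ((spz (Dn n) (Φ j)).evalEval (x n) (y' n))
      ((F j).evalEval (x n) (y n)) := by
    intro j
    rcases hF j with h0 | ⟨m, U, hU, hj⟩
    · obtain ⟨n1, hn1⟩ := spz_zero h.tk (Φ j) (by rw [h.hΦ, h0])
      refine ⟨n1, fun n hn => ?_⟩
      rw [hn1 n hn, h0, evalEval_zero, evalEval_zero]
      exact eqv_refl (p := p) 0
    · obtain ⟨n1, hn1⟩ := Fat_mono h.tk (Φ j) hU (by rw [h.hΦ, hj]) h.hx h.hy hy'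
      refine ⟨n1, fun n hn => ?_⟩
      have h2 := hn1 n hn
      rwa [h.hΦ] at h2
  obtain ⟨n1, h2⟩ := QNice_all key
  refine h.no (max n0 n1) ⟨x (max n0 n1), y' (max n0 n1), ?_,
    same_of_eqv (h2 _ (le_max_right _ _))⟩
  rw [pow_zero, mul_one]
  exact h1 _ (le_max_left _ _)

end TF43
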