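import Pool.Agent.W_4ce76a_h43.HensY

set_option autoImplicit false
set_option linter.unusedSectionVars false

/-!
# MP_4ce76a_lc, T3: fat stop, the transfer (section 5 (c) of row 524)
-/

namespace TF43

open TF14 TF45 Polynomial

variable {p : ℕ} [hp : Fact p.Prime]

private theorem fatc_C (c : ZMod p) : algebraMap (ZMod p) (L p) c ∈ OL p := by
  rw [mem_OL]
  have h : algebraMap (ZMod p) (L p) c = HahnSeries.C c :=
    congrArg (fun f : ZMod p →+* L p => f c) (Subsingleton.elim _ _)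
  rw [h]
  unfold ord
  rw [HahnSeries.order_C]

private theorem fatc_mem {w : L p} (hw : w ∈ OL p) (f : (ZMod p)[X]) : aeval w f ∈ OL p := by
  induction f using Polynomial.induction_on with
  | C a =>
    rw [aeval_C]
    exact fatc_C a
  | add f g hf hg =>
    rw [map_add]
    exact add_mem hf hg
  | monomial n a _ =>
    rw [map_mul, map_pow, aeval_C, aeval_X]
    exact mul_mem (fatc_C a) (pow_mem hw _)

private theorem fatc_unit {g : (ZMod p)[X]} (hg : g.coeff 0 ≠ 0) {w : L p} (ho : 0 < ord w) :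
    aeval w g ≠ 0 ∧ ord (aeval w g) = 0 := by
  have hw : w ≠ 0 := by
    rintro rfl
    rw [ord_zero] at ho
    exact lt_irrefl _ ho
  have h1 : aeval w g = algebraMap (ZMod p) (L p) (g.coeff 0) + w * aeval w (divX g) := by
    conv_lhs => rw [← divX_mul_X_add g]
    rw [map_add, map_mul, aeval_X, aeval_C]
    ring
  have h2 : algebraMap (ZMod p) (L p) (g.coeff 0) ≠ 0 := by
    intro h
    exact hg ((map_eq_zero (algebraMap (ZMod p) (L p))).1 h)
  have h3 : ord (algebraMap (ZMod p) (L p) (g.coeff 0)) = 0 := by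
    have h : algebraMap (ZMod p) (L p) (g.coeff 0) = HahnSeries.C (g.coeff 0) :=
      congrArg (fun f : ZMod p →+* L p => f (g.coeff 0)) (Subsingleton.elim _ _)
    rw [h]
    unfold ord
    rw [HahnSeries.order_C]
  have h4 : VG (ord (algebraMap (ZMod p) (L p) (g.coeff 0)) + 1) (w * aeval w (divX g)) := by
    rw [h3, zero_add]
    have h5 := vg_mul ((vg_ord hw).2 (by omega : (1 : ℤ) ≤ ord w))
      (vg_mem.2 (fatc_mem ((mem_OL w).2 ho.le) (divX g)))
    rwa [add_zero] at h5
  have h5 := ord_add_of_vg h2 h4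
  rw [← h1, h3] at h5
  exact h5

/-- The order of `(1 + w) ^ A - 1`.  Proof: the polynomial `(1 + X) ^ A - 1` over `ZMod p` is not zero and vanishes at `0`: it is `X ^ i * g`, `g.eval 0 ≠ 0`,
`1 ≤ i ≤ A`; evaluate at `w` (`ZMod p → L p`): `w ^ i * g(w)`, `g(w)` is a unit (`ord = 0`) since `ord w > 0`.  (Or `A = p ^ a * A'`.) -/
theorem fat_bin {A : ℕ} (hA : 0 < A) : ∃ i : ℕ, 0 < i ∧ i ≤ A ∧ ∀ w : L p, w ≠ 0 → 0 < ord w →
    (1 + w) ^ A - 1 ≠ 0 ∧ ord ((1 + w) ^ A - 1) = i * ord w := by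
  set f : (ZMod p)[X] := (1 + X) ^ A - 1 with hf
  have hmon : ((1 + X : (ZMod p)[X]) ^ A).Monic := by
    rw [add_comm]
    exact (monic_X_add_C (1 : ZMod p)).pow A
  have hdeg0 : ((1 + X : (ZMod p)[X]) ^ A).natDegree = A := by
    rw [add_comm]
    have h := (monic_X_add_C (1 : ZMod p)).natDegree_pow A
    rw [natDegree_X_add_C, mul_one] at h
    exact h
  have hdeg : f.natDegree = A := by
    rw [hf, natDegree_sub_eq_left_of_natDegree_lt (by rw [hdeg0, natDegree_one]; exact hA), hdeg0]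
  have hf0 : f ≠ 0 := by
    intro h
    rw [h, natDegree_zero] at hdeg
    omega
  have hc0 : f.coeff 0 = 0 := by
    rw [coeff_zero_eq_eval_zero, hf]
    simp
  obtain ⟨m, hm⟩ : ∃ m, m = f.natTrailingDegree := ⟨_, rfl⟩
  obtain ⟨g, hg⟩ : X ^ m ∣ f :=
    X_pow_dvd_iff.2 fun d hd => coeff_eq_zero_of_lt_natTrailingDegree (hm ▸ hd)
  refine ⟨m, ?_, ?_, ?_⟩
  · rw [Nat.pos_iff_ne_zero]
    intro h
    rw [hm, natTrailingDegree_eq_zero] at h
    rcases h with h | h
    · exact hf0 h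
    · exact h hc0
  · rw [← hdeg, hm]
    exact natTrailingDegree_le_natDegree f
  · intro w hw ho
    have hgc : g.coeff 0 ≠ 0 := by
      intro h
      have h1 : f.coeff m = 0 := by
        have h2 := coeff_X_pow_mul g m 0
        rw [zero_add] at h2
        rw [hg, h2, h]
      rw [hm] at h1
      exact (mem_support_iff.1 (natTrailingDegree_mem_support_of_nonzero hf0)) h1
    obtain ⟨h1, h2⟩ := fatc_unit hgc ho
    have h3 : (1 + w) ^ A - 1 = w ^ m * aeval w g := by
      have h4 : aeval w f = (1 + w) ^ A - 1 := by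
        rw [hf]
        simp
      rw [← h4]
      conv_lhs => rw [hg]
      rw [map_mul, map_pow, aeval_X]
    rw [h3]
    refine ⟨mul_ne_zero (pow_ne_zero _ hw) h1, ?_⟩
    rw [ord_mul (pow_ne_zero _ hw) h1, h2, add_zero, ord_pow]

/-- The values of `E_n (x, y')` in terms of `E_n (x, 0)`.  Proof: in the outer variable `Γ = divX Γ * X + C (Γ.coeff 0)`; `Q = divX Γ`, value of `spz D Q` at the
origin is the coefficient `1`, that is `(derivative (spz D Γ)).evalEval 0 0`; `P` with `Γ.coeff 0 = divX (Γ.coeff 0) * X + C _`, `P = C (divX (Γ.coeff 0))`,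
`c0 = (Γ.coeff 0).coeff 0`. -/
theorem fat_split {κ : Type} (Γ : (MvPolynomial κ (K p))[X][X]) :
    ∃ (Q P : (MvPolynomial κ (K p))[X][X]),
      (∀ D : κ → L p, (spz D Q).evalEval 0 0 = (derivative (spz D Γ)).evalEval 0 0) ∧
      ∀ (D : κ → L p) (x y : L p), (spz D Γ).evalEval x y =
        (spz D Γ).evalEval 0 0 + x * (spz D P).evalEval x 0 + y * (spz D Q).evalEval x y := by
  refine ⟨divX Γ, C (divX (Γ.coeff 0)), fun D => ?_, fun D x y => ?_⟩
  · rw [QSpz_zero, QSpz_zero, QSpz_coeff, coeff_derivative, coeff_divX]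
    have h1 : ((spz D Γ).coeff (0 + 1) * (((0 : ℕ) : (L p)[X]) + 1)).coeff 0 =
        ((spz D Γ).coeff (0 + 1)).coeff 0 := by
      simp
    rw [h1, QSpz_coeff]
  · have hpsi : ∀ (x : L p) (q : (MvPolynomial κ (K p))[X]),
        (evalRingHom x).comp (mapRingHom
          ((MvPolynomial.aeval D : MvPolynomial κ (K p) →ₐ[K p] L p) :
            MvPolynomial κ (K p) →+* L p)) q = MvPolynomial.aeval D (q.coeff 0) +
        x * (evalRingHom x).comp (mapRingHom
          ((MvPolynomial.aeval D : MvPolynomial κ (K p) →ₐ[K p] L p) :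
            MvPolynomial κ (K p) →+* L p)) (divX q) := by
      intro x q
      conv_lhs => rw [← divX_mul_X_add q]
      rw [map_add, map_mul]
      simp only [RingHom.comp_apply, coe_mapRingHom, Polynomial.map_X, Polynomial.map_C,
        coe_evalRingHom, eval_X, eval_C, RingHom.coe_coe]
      ring
    have h1 : (spz D Γ).evalEval 0 0 = MvPolynomial.aeval D ((Γ.coeff 0).coeff 0) := by
      rw [QSpz_zero, QSpz_coeff]
    have h2 : (spz D (C (divX (Γ.coeff 0)) : (MvPolynomial κ (K p))[X][X])).evalEval x 0 =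
        (evalRingHom x).comp (mapRingHom
          ((MvPolynomial.aeval D : MvPolynomial κ (K p) →ₐ[K p] L p) :
            MvPolynomial κ (K p) →+* L p)) (divX (Γ.coeff 0)) := by
      rw [QSpz_ev, eval₂_C]
    have h3 : (spz D Γ).evalEval x y = (spz D (divX Γ)).evalEval x y * y +
        (evalRingHom x).comp (mapRingHom
          ((MvPolynomial.aeval D : MvPolynomial κ (K p) →ₐ[K p] L p) :
            MvPolynomial κ (K p) →+* L p)) (Γ.coeff 0) := by
      rw [QSpz_ev, QSpz_ev]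
      conv_lhs => rw [← divX_mul_X_add Γ]
      rw [eval₂_add, eval₂_mul_X, eval₂_C]
    rw [h3, hpsi x (Γ.coeff 0), h1, h2]
    ring

/-- Simple transfer.  Proof: `g n = (s n / σ n) * E (x n, y n) → E (0, 0)` (`spz_tnd` with the constant sequence `D`, or `ev_eqv`-like continuity), `hens_y` for a radius `e`
which is small enough for `spz D Q` (`fat_split`, value at the origin not zero) to have constant order; `y' n` for `n ≥ n0`; from
`y' * Q_n (x, y') = g n - E_n (0, 0) - x * P_n (x, 0) → 0` one gets `Tnd y' 0`. -/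
theorem fat_tr1 {κ : Type} [Finite κ] {D : κ → L p} {Dn : ℕ → κ → L p} (hT : Tk D Dn)
    (Υ : (MvPolynomial κ (K p))[X][X]) (hE1 : (derivative (spz D Υ)).evalEval 0 0 ≠ 0)
    {A : ℕ} {x y σ s : ℕ → L p} (hx : Tnd x 0) (hy : Tnd y 0) (hσ : ∀ n, σ n ≠ 0)
    (hq : Tnd (fun n => s n / σ n) 1)
    (heq : ∀ n, x n ^ A * (spz D Υ).evalEval (x n) (y n) = σ n) :
    ∃ (y' : ℕ → L p) (n0 : ℕ), Tnd y' 0 ∧
      ∀ n ≥ n0, x n ^ A * (spz (Dn n) Υ).evalEval (x n) (y' n) = s n := by
  classical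
  have hTD : Tk D fun _ : ℕ => D := fun m e _ => ⟨0, fun n _ => near_refl hp.out (ta_L p) m e D⟩
  have hg : Tnd (fun n => s n / σ n * (spz D Υ).evalEval (x n) (y n))
      ((spz D Υ).evalEval 0 0) := by
    have h1 := tnd_mul hq (spz_tnd hTD hx hy Υ)
    rwa [one_mul] at h1
  have hN : ∀ i : ℕ, ∃ n0 : ℕ, ∀ n ≥ n0, ∃ y' : L p, Cl (OL p) (tL p ^ i) y' 0 ∧
      (spz (Dn n) Υ).evalEval (x n) y' = s n / σ n * (spz D Υ).evalEval (x n) (y n) :=
    fun i => hens_y hT Υ hE1 hx hg (pow_ne_zero i tne)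
  choose N hN using hN
  set k : ℕ → ℕ := fun n => Nat.findGreatest (fun i => N i ≤ n) n with hk
  refine ⟨fun n => if h : ∃ y' : L p, Cl (OL p) (tL p ^ k n) y' 0 ∧
      (spz (Dn n) Υ).evalEval (x n) y' = s n / σ n * (spz D Υ).evalEval (x n) (y n)
    then h.choose else 0, N 0, ?_, ?_⟩
  · intro e he
    obtain ⟨i0, hi0⟩ := QEqv_small e he
    refine ⟨max i0 (N i0), fun n hn => ?_⟩
    have h2 : i0 ≤ n := (le_max_left _ _).trans hn
    have h3 : N i0 ≤ n := (le_max_right _ _).trans hn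
    have h4 : i0 ≤ k n := Nat.le_findGreatest h2 h3
    have h5 : N (k n) ≤ n := Nat.findGreatest_spec (P := fun i => N i ≤ n) h2 h3
    have hx := hN (k n) n h5
    beta_reduce
    rw [dif_pos hx]
    exact hi0 _ h4 _ _ hx.choose_spec.1
  · intro n hn
    have h5 : N (k n) ≤ n := Nat.findGreatest_spec (P := fun i => N i ≤ n) (Nat.zero_le n) hn
    have hx := hN (k n) n h5
    beta_reduce
    rw [dif_pos hx, hx.choose_spec.2]
    have h6 : x n ^ A * (s n / σ n * (spz D Υ).evalEval (x n) (y n)) =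
        s n / σ n * (x n ^ A * (spz D Υ).evalEval (x n) (y n)) := by ring
    rw [h6, heq, div_mul_cancel₀ _ (hσ n)]

end TF43
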