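import Pool.Agent.W_4ce76a_h43.Def

set_option autoImplicit false
set_option linter.unusedSectionVars false

/-!
# MP_4ce76a_lc, T3: generic points (section 2 of row 524)
-/

namespace TF43

open TF14 TF45 Polynomial

variable {p : ℕ} [hp : Fact p.Prime]

/-- the coordinate of level one with index `i` -/
private noncomputable def GenPt_l (i : Fin (p ^ 1)) (x : L p) : L p := lam hp.out (ta_L p) 1 x i

private theorem GenPt_sub (i : Fin (p ^ 1)) (x y : L p) :
    GenPt_l i (x - y) = GenPt_l i x - GenPt_l i y := lam_sub hp.out (ta_L p) 1 x y i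

private theorem GenPt_zero (i : Fin (p ^ 1)) : GenPt_l i (0 : L p) = 0 := by
  have h := GenPt_sub (p := p) i 0 0
  rw [sub_zero, sub_self] at h
  exact h

private theorem GenPt_add (i : Fin (p ^ 1)) (x y : L p) :
    GenPt_l i (x + y) = GenPt_l i x + GenPt_l i y := by
  have h : x + y = x - (0 - y) := by ring
  rw [h, GenPt_sub, GenPt_sub, GenPt_zero]
  ring

private theorem GenPt_mul (i : Fin (p ^ 1)) (r x : L p) :
    GenPt_l i (r ^ p * x) = r * GenPt_l i x := by
  have h := lam_mul_pow hp.out (ta_L p) 1 r x i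
  rw [pow_one] at h
  exact h

private theorem GenPt_vg (i : Fin (p ^ 1)) (N : ℕ) {x : L p} (h : VG ((p * N : ℕ) : ℤ) x) :
    VG (N : ℤ) (GenPt_l i x) := by
  have h1 : Cl (OL p) ((tL p ^ (N : ℤ)) ^ (p ^ 1)) x 0 := by
    have h2 : (tL p ^ (N : ℤ)) ^ (p ^ 1) = tL p ^ ((p * N : ℕ) : ℤ) := by
      rw [zpow_natCast, zpow_natCast, pow_one, ← pow_mul, mul_comm]
    rw [h2, cl_vg, sub_zero]
    exact h
  have h3 := lam_cl hp.out (ta_L p) 1 h1 i
  rw [cl_vg] at h3
  have h4 := GenPt_zero (p := p) i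
  unfold GenPt_l at h4 ⊢
  rwa [h4, sub_zero] at h3

/-- `t ^ i` has the coordinates of a basis vector -/
private theorem GenPt_basis (i j : Fin (p ^ 1)) :
    GenPt_l j (tL p ^ (i : ℕ)) = if j = i then 1 else 0 := by
  have h := lam_unique hp.out (ta_L p) 1 (tL p ^ (i : ℕ)) (fun j => if j = i then 1 else 0) (by
    rw [Finset.sum_eq_single i]
    · simp
    · intro k _ hk
      have : p ^ 1 ≠ 0 := pow_ne_zero _ hp.out.ne_zero
      rw [if_neg hk, zero_pow this, mul_zero]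
    · intro h
      exact absurd (Finset.mem_univ _) h)
  exact congrFun h j

private theorem GenPt_unc : ¬ {x : L p | x ∈ OL p}.Countable := by
  intro h
  have h1 : Function.Injective (fun g : ℕ → ZMod p => ((PowerSeries.mk g : PowerSeries (ZMod p)) : L p)) := by
    intro g g' hg
    have h2 : (PowerSeries.mk g : PowerSeries (ZMod p)) = PowerSeries.mk g' :=
      HahnSeries.ofPowerSeries_injective hg
    funext n
    have h3 := congrArg (PowerSeries.coeff n) h2
    simpa using h3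
  have h4 : Countable {x : L p | x ∈ OL p} := h.to_subtype
  have h5 : Countable (ℕ → ZMod p) :=
    Function.Injective.countable (β := {x : L p | x ∈ OL p})
      (f := fun g : ℕ → ZMod p => ⟨((PowerSeries.mk g : PowerSeries (ZMod p)) : L p), ⟨_, rfl⟩⟩)
      (fun g g' hg => h1 (congrArg Subtype.val hg))
  obtain ⟨f, hf⟩ := exists_surjective_nat (ℕ → ZMod p)
  obtain ⟨n, hn⟩ := hf (fun n => f n n + 1)
  have h6 := congrFun hn n
  simp at h6

/-- Near every `a` there is a point with positive distance from all `γ L ^ p`, `γ ∈ k`.  Proof: `l i x := lam hp.out (ta_L p) 1 x i`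
for the indices `0`, `1` of `Fin (p ^ 1)` (`1 < p ^ 1`).  `lam_sub`, `lam_mul_pow` (`l i (r ^ p * x) = r * l i x`; so `l i (γ * b ^ p) = b * l i γ`),
`lam_cl` / `lam_int` (`VG (p * N) x → VG N (l i x)`).  The elements `w = w0 ^ p + t w1 ^ p` have `l 0 w = w0`, `l 1 w = w1` (`lam_unique`; or
additivity and `l` of `w0 ^ p * 1`, `w1 ^ p * t`).  Put `e = a + t ^ (p m) w`: `VG m (e - a)`, `l 0 e = l 0 a + t ^ m w0`, `l 1 e = l 1 a + t ^ m w1`.
Choose `w0 ∈ {0, 1}` with `l 0 e ≠ 0`.  `OL p` is uncountable (injection `(ℕ → ZMod p) → OL p` by power series) and `w1 ↦ l 1 e / l 0 e` is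
injective, so there is `w1 ∈ OL p` such that `l 1 e / l 0 e` is not in the countable set `{l 1 γ / l 0 γ | γ ∈ k}`.  Let `γ ∈ k`, `γ ≠ 0`.
If `l 0 γ = 0` then `l 0 (e - γ b ^ p) = l 0 e ≠ 0` for all `b`, so `VG (p N) (e - γ b ^ p)` is false for `N > ord (l 0 e)`.  Otherwise
`δ = l 0 e * l 1 γ - l 1 e * l 0 γ ≠ 0` and `δ = l 0 x * l 1 γ - l 1 x * l 0 γ` for `x = e - γ b ^ p`, so `VG (p N) x` is false for `N` with
`N - C > ord δ`, `VG (-C) (l i γ)`.  In both cases `x ≠ 0` and `ord x < p N` (`vg_ord`). -/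
theorem gen_pt {k : Set (L p)} (hk : k.Countable) (a : L p) (m : ℕ) :
    ∃ e : L p, VG m (e - a) ∧ ∀ γ ∈ k, γ ≠ 0 → ∃ N : ℕ, ∀ b : L p,
      e ≠ γ * b ^ p ∧ ord (e - γ * b ^ p) ≤ N := by
  have hp1 : 1 < p ^ 1 := by
    rw [pow_one]
    exact hp.out.one_lt
  obtain ⟨i0, hi0⟩ : ∃ i : Fin (p ^ 1), (i : ℕ) = 0 := ⟨⟨0, by omega⟩, rfl⟩
  obtain ⟨i1, hi1⟩ : ∃ i : Fin (p ^ 1), (i : ℕ) = 1 := ⟨⟨1, hp1⟩, rfl⟩
  have h01 : i0 ≠ i1 := by
    intro h
    rw [h, hi1] at hi0
    exact one_ne_zero hi0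
  have htm : tL p ^ m ≠ 0 := pow_ne_zero _ tne
  have b00 : GenPt_l i0 (1 : L p) = 1 := by
    have h := GenPt_basis i0 i0
    rw [hi0, pow_zero, if_pos rfl] at h
    exact h
  have b01 : GenPt_l i1 (1 : L p) = 0 := by
    have h := GenPt_basis i0 i1
    rw [hi0, pow_zero, if_neg h01.symm] at h
    exact h
  have b10 : GenPt_l i0 (tL p) = 0 := by
    have h := GenPt_basis i1 i0
    rw [hi1, pow_one, if_neg h01] at h
    exact h
  have b11 : GenPt_l i1 (tL p) = 1 := by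
    have h := GenPt_basis i1 i1
    rw [hi1, pow_one, if_pos rfl] at h
    exact h
  -- the element w0
  obtain ⟨w0, hw0, hc⟩ : ∃ w0 : L p, w0 ∈ OL p ∧ GenPt_l i0 a + tL p ^ m * w0 ≠ 0 := by
    by_cases h : GenPt_l i0 a = 0
    · exact ⟨1, (OL p).one_mem, by rw [h, zero_add, mul_one]; exact htm⟩
    · exact ⟨0, (OL p).zero_mem, by rw [mul_zero, add_zero]; exact h⟩
  obtain ⟨c, hcd⟩ : ∃ c : L p, c = GenPt_l i0 a + tL p ^ m * w0 := ⟨_, rfl⟩
  rw [← hcd] at hc
  -- the element w1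
  obtain ⟨w1, hw1, hS⟩ : ∃ w1 : L p, w1 ∈ OL p ∧
      (GenPt_l i1 a + tL p ^ m * w1) / c ∉ (fun γ : L p => GenPt_l i1 γ / GenPt_l i0 γ) '' k := by
    by_contra hno
    push Not at hno
    have hS : ((fun γ : L p => GenPt_l i1 γ / GenPt_l i0 γ) '' k).Countable := hk.image _
    have hinj : Function.Injective (fun w : L p => (GenPt_l i1 a + tL p ^ m * w) / c) := by
      intro w w' h
      have h1 : GenPt_l i1 a + tL p ^ m * w = GenPt_l i1 a + tL p ^ m * w' :=
        (div_left_inj' hc).1 h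
      exact mul_left_cancel₀ htm (add_left_cancel h1)
    have h2 := hS.preimage_of_injOn (f := fun w : L p => (GenPt_l i1 a + tL p ^ m * w) / c)
      hinj.injOn
    exact GenPt_unc (p := p) (h2.mono fun w hw => hno w hw)
  obtain ⟨e, he⟩ : ∃ e : L p, e = a + (tL p ^ m * w0) ^ p * 1 + (tL p ^ m * w1) ^ p * tL p :=
    ⟨_, rfl⟩
  have e0 : GenPt_l i0 e = c := by
    rw [he, GenPt_add, GenPt_add, GenPt_mul, GenPt_mul, b00, b10, hcd]
    ring
  have e1 : GenPt_l i1 e = GenPt_l i1 a + tL p ^ m * w1 := by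
    rw [he, GenPt_add, GenPt_add, GenPt_mul, GenPt_mul, b01, b11]
    ring
  rw [← e1] at hS
  refine ⟨e, ?_, fun γ hγ hγ0 => ?_⟩
  · -- closeness
    have h1 : e - a = (tL p ^ m) ^ p * (w0 ^ p + w1 ^ p * tL p) := by
      rw [he]
      ring
    have h2 : VG ((m : ℕ) : ℤ) (tL p ^ m) := by
      have := vg_tz (p := p) (m : ℤ)
      rwa [zpow_natCast] at this
    have h3 := vg_pow h2 p
    have h4 : w0 ^ p + w1 ^ p * tL p ∈ OL p :=
      add_mem (pow_mem hw0 p) (mul_mem (pow_mem hw1 p) (ta_L p).t_mem)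
    have h5 := vg_mul h3 (vg_mem.2 h4)
    rw [← h1] at h5
    refine vg_mono ?_ h5
    have h6 : (1 : ℤ) ≤ p := by exact_mod_cast hp.out.one_lt.le
    have h7 : (0 : ℤ) ≤ m := Int.natCast_nonneg m
    nlinarith
  · -- genericity
    have hx : ∀ (i : Fin (p ^ 1)) (b : L p),
        GenPt_l i (e - γ * b ^ p) = GenPt_l i e - b * GenPt_l i γ := by
      intro i b
      rw [GenPt_sub, mul_comm γ, GenPt_mul]
    -- it suffices to find `N` with no `VG (p N) x`
    suffices hN : ∃ N : ℕ, ∀ b : L p, ¬ VG ((p * N : ℕ) : ℤ) (e - γ * b ^ p) by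
      obtain ⟨N, hN⟩ := hN
      refine ⟨p * N, fun b => ?_⟩
      have h1 := hN b
      have h2 : e - γ * b ^ p ≠ 0 := by
        intro h
        rw [h] at h1
        exact h1 (vg_zero _)
      refine ⟨fun h => h2 (sub_eq_zero.2 h), ?_⟩
      rw [vg_ord h2] at h1
      omega
    by_cases hγi : GenPt_l i0 γ = 0
    · refine ⟨(ord c).natAbs + 1, fun b hb => ?_⟩
      have h1 := GenPt_vg i0 _ hb
      rw [hx, hγi, mul_zero, sub_zero, e0, vg_ord hc] at h1
      rw [Nat.cast_add, Nat.cast_one] at h1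
      omega
    · have hδ : c * GenPt_l i1 γ - GenPt_l i1 e * GenPt_l i0 γ ≠ 0 := by
        intro h
        refine hS ⟨γ, hγ, ?_⟩
        change GenPt_l i1 γ / GenPt_l i0 γ = GenPt_l i1 e / c
        rw [div_eq_div_iff hγi hc]
        linear_combination h
      obtain ⟨C0, hC0⟩ := vg_bound (GenPt_l i0 γ)
      obtain ⟨C1, hC1⟩ := vg_bound (GenPt_l i1 γ)
      refine ⟨C0 + C1 + (ord (c * GenPt_l i1 γ - GenPt_l i1 e * GenPt_l i0 γ)).natAbs + 1,
        fun b hb => ?_⟩
      have h0 := GenPt_vg i0 _ hb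
      have h1 := GenPt_vg i1 _ hb
      have h2 : c * GenPt_l i1 γ - GenPt_l i1 e * GenPt_l i0 γ =
          GenPt_l i0 (e - γ * b ^ p) * GenPt_l i1 γ - GenPt_l i1 (e - γ * b ^ p) * GenPt_l i0 γ := by
        rw [hx, hx, e0]
        ring
      have h3 := vg_mul h0 hC1
      have h4 := vg_mul h1 hC0
      simp only [Nat.cast_add, Nat.cast_one] at h3 h4
      have h5 := vg_sub (n := (ord (c * GenPt_l i1 γ - GenPt_l i1 e * GenPt_l i0 γ)).natAbs + 1)
        (vg_mono (by omega) h3) (vg_mono (by omega) h4)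
      rw [← h2, vg_ord hδ] at h5
      omega

end TF43
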