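import Pool.Agent.W_4ce76a_h43.GenPt

set_option autoImplicit false
set_option linter.unusedSectionVars false

/-!
# MP_4ce76a_lc, T3: generic sequences (section 2 of row 524)
-/

namespace TF43

open TF14 TF45 Polynomial

variable {p : ℕ} [hp : Fact p.Prime]

/-- normalisation: the sequence divided by the powers of `t` has a convergent subsequence with
a limit of order `0` -/
private theorem GenSeq_norm {s : ℕ → L p} (hs0 : ∀ n, s n ≠ 0) :
    ∃ (r : ℕ → ℕ) (a : L p), StrictMono r ∧ a ≠ 0 ∧ ord a = 0 ∧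
      Tnd (fun n => tL p ^ (-ord (s (r n))) * s (r n)) a := by
  have h1 : ∀ n, tL p ^ (-ord (s n)) * s n ≠ 0 := fun n =>
    mul_ne_zero (zpow_ne_zero _ tne) (hs0 n)
  have h2 : ∀ n, ord (tL p ^ (-ord (s n)) * s n) = 0 := fun n => by
    rw [ord_mul (zpow_ne_zero _ tne) (hs0 n), ord_tzpow]
    ring
  obtain ⟨r, v, hr, -, hlim⟩ := seq_compact p (k := 1)
    (fun n _ => tL p ^ (-ord (s n)) * s n) (fun n _ => (mem_OL _).2 (h2 n).ge)
  have h3 : Tnd (fun n => tL p ^ (-ord (s (r n))) * s (r n)) (v 0) := by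
    intro e he
    obtain ⟨m0, hm0⟩ := hlim e he
    exact ⟨m0, fun n hn => hm0 n hn 0⟩
  obtain ⟨n0, hn0⟩ := tnd_iff.1 h3 1
  have h4 := vg_neg (hn0 n0 le_rfl)
  have h5 := ord_add_of_vg (h1 (r n0)) (y := -(tL p ^ (-ord (s (r n0))) * s (r n0) - v 0))
    (by rw [h2]; exact h4)
  have h6 : tL p ^ (-ord (s (r n0))) * s (r n0) + -(tL p ^ (-ord (s (r n0))) * s (r n0) - v 0)
      = v 0 := by ring
  rw [h6, h2] at h5
  exact ⟨r, v 0, hr, h5.1, h5.2, h3⟩

/-- the generic points with uniform bounds for finitely many elements of `k` -/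
private theorem GenSeq_pts {k : Set (L p)} (hk : k.Countable) (a : L p) :
    ∃ (E : ℕ → L p) (f : L p → ℕ) (B : ℕ → ℕ), (∀ m : ℕ, VG ((m : ℤ) + 1) (E m - a)) ∧
      ∀ m : ℕ, ∀ γ ∈ k, γ ≠ 0 → f γ ≤ m → ∀ b : L p,
        E m ≠ γ * b ^ p ∧ ord (E m - γ * b ^ p) ≤ B m := by
  choose E hE1 hE2 using fun m : ℕ => gen_pt hk a (m + 1)
  obtain ⟨f, hf⟩ := Set.countable_iff_exists_injOn.1 hk
  choose! N hN using hE2
  have hfin : ∀ m : ℕ, {γ | γ ∈ k ∧ f γ ≤ m}.Finite := fun m =>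
    Set.Finite.of_injOn (f := f) (t := Set.Iic m) (fun γ hγ => hγ.2)
      (hf.mono fun γ hγ => hγ.1) (Set.finite_Iic m)
  have hB : ∀ m : ℕ, ∃ B : ℕ, ∀ γ ∈ k, f γ ≤ m → N m γ ≤ B := by
    intro m
    obtain ⟨B, hB⟩ := ((hfin m).image (N m)).bddAbove
    exact ⟨B, fun γ hγ hγm => hB ⟨γ, ⟨hγ, hγm⟩, rfl⟩⟩
  choose B hB using hB
  refine ⟨E, f, B, fun m => ?_, fun m γ hγ hγ0 hγm b => ?_⟩
  · have := hE1 m
    push_cast at this
    exact this
  · obtain ⟨h1, h2⟩ := hN m γ hγ hγ0 b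
    exact ⟨h1, h2.trans (by exact_mod_cast hB m γ hγ hγm)⟩

/-- Proof.  `e' n := s n / t ^ ord (s n)`, of order `0`; `seq_compact` gives a subsequence `r` with `e' (r n) → a`, `ord a = 0`; `ord (s (r n)) → ∞`.  For
`m : ℕ` let `E m` be the element of `gen_pt` for `a`, `m + 1` (so `ord (E m) = 0`), with bound `N m γ`.  If `k` has no nonzero element,
anything works with `E m`; otherwise enumerate the nonzero elements of `k` by `g : ℕ → L p` (`Set.Countable.exists_eq_range`).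
`B m :=` the maximum of `m` and of all `N m (g i * t ^ (-w))`, `i ≤ m`, `w ≤ p` (these elements are in `k` by `ht`).  Choose `T : ℕ → ℕ`
strictly increasing with `ord (s (r n)) > m * B m` for `n ≥ T m`; `μ n :=` the largest `m ≤ n` with `T m ≤ n` (`Nat.findGreatest`),
`μ n → ∞`; shift so that `T 0 = 0` or restrict to `n ≥ T 0` (change `r`).  `σ n := t ^ ord (s (r n)) * E (μ n)`.  `σ n ≠ 0`, `ord (σ n) = ord (s (r n))`,
`s (r n) / σ n = e' (r n) / E (μ n) → a / a = 1`.  `gen`: `γ = g i`, `M`; for `n` with `μ n ≥ max i M`: write `ord (s (r n)) = p q + w`,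
`0 ≤ w < p`; `σ n - γ b ^ p = t ^ ord * (E (μ n) - γ t ^ (-w) * (b t ^ (-q)) ^ p)`, so it is not zero and
`ord (σ n - γ b ^ p) - ord (σ n) = ord (E (μ n) - ..) ≤ B (μ n)`, `M * B (μ n) ≤ μ n * B (μ n) < ord (σ n)`. -/
theorem gen_seq {k : Set (L p)} (hk : k.Countable)
    (ht : ∀ γ ∈ k, ∀ n : ℤ, γ * tL p ^ n ∈ k) {s : ℕ → L p} (hs : Tnd s 0)
    (hs0 : ∀ n, s n ≠ 0) :
    ∃ (r : ℕ → ℕ) (σ : ℕ → L p), StrictMono r ∧ Gd k σ (fun n => s (r n)) := by
  obtain ⟨r0, a, hr0, ha, hoa, hlim⟩ := GenSeq_norm hs0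
  obtain ⟨E, f, B, hE, hB⟩ := GenSeq_pts hk a
  have hpp : 0 < p := hp.out.pos
  have hEo : ∀ m : ℕ, E m ≠ 0 ∧ ord (E m) = 0 := by
    intro m
    have h := ord_add_of_vg ha (y := E m - a) (by
      rw [hoa]
      exact vg_mono (by omega) (hE m))
    rwa [add_sub_cancel, hoa] at h
  have hEt : Tnd E a := by
    rw [tnd_iff]
    intro N
    exact ⟨N.toNat, fun n hn => vg_mono (by omega) (hE n)⟩
  -- the orders tend to infinity
  have hord : ∀ M : ℤ, ∃ n0 : ℕ, ∀ n ≥ n0, M ≤ ord (s n) := by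
    intro M
    obtain ⟨n0, hn0⟩ := tnd_iff.1 hs M
    refine ⟨n0, fun n hn => ?_⟩
    have h := hn0 n hn
    rw [sub_zero] at h
    exact (vg_ord (hs0 n)).1 h
  obtain ⟨ρ, hρ, hρB⟩ := Filter.extraction_forall_of_eventually
    (P := fun n j : ℕ => (n : ℤ) * B n < ord (s (r0 j))) (fun n => by
      obtain ⟨n0, hn0⟩ := hord ((n : ℤ) * B n + 1)
      refine Filter.eventually_atTop.2 ⟨n0, fun j hj => ?_⟩
      have := hn0 (r0 j) (le_trans hj hr0.le_apply)
      show (n : ℤ) * B n < ord (s (r0 j))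
      omega)
  have hr : StrictMono (fun n => r0 (ρ n)) := hr0.comp hρ
  have hσ0 : ∀ n, tL p ^ ord (s (r0 (ρ n))) * E n ≠ 0 := fun n =>
    mul_ne_zero (zpow_ne_zero _ tne) (hEo n).1
  have hσo : ∀ n, ord (tL p ^ ord (s (r0 (ρ n))) * E n) = ord (s (r0 (ρ n))) := fun n => by
    rw [ord_mul (zpow_ne_zero _ tne) (hEo n).1, ord_tzpow, (hEo n).2, add_zero]
  refine ⟨fun n => r0 (ρ n), fun n => tL p ^ ord (s (r0 (ρ n))) * E n, hr, ?_⟩
  refine ⟨hσ0, fun n => hs0 _, ?_, ?_, ?_⟩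
  · rw [tnd_iff]
    intro N
    obtain ⟨n0, hn0⟩ := hord N
    refine ⟨n0, fun n hn => ?_⟩
    rw [sub_zero]
    refine (vg_ord (hσ0 n)).2 ?_
    rw [hσo n]
    exact hn0 _ (hn.le.trans hr.le_apply)
  · have h1 := tnd_mul (tnd_sub hlim hρ) (tnd_inv hEt ha)
    rw [mul_inv_cancel₀ ha] at h1
    have h2 : (fun n => s (r0 (ρ n)) / (tL p ^ ord (s (r0 (ρ n))) * E n)) =
        fun n => tL p ^ (-ord (s (r0 (ρ n)))) * s (r0 (ρ n)) * (E n)⁻¹ := by
      funext n
      rw [zpow_neg, div_eq_mul_inv, mul_inv]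
      ring
    rw [h2]
    exact h1
  · intro γ hγ hγ0 M
    refine ⟨max M ((Finset.range p).sup fun w => f (γ * tL p ^ (-(w : ℤ)))), fun n hn b => ?_⟩
    have hnM : M ≤ n := (le_max_left _ _).trans hn
    have hnw : ∀ w < p, f (γ * tL p ^ (-(w : ℤ))) ≤ n := fun w hw =>
      (Finset.le_sup (f := fun w : ℕ => f (γ * tL p ^ (-(w : ℤ))))
        (Finset.mem_range.2 hw)).trans ((le_max_right _ _).trans hn)
    have hp0 : (0 : ℤ) < p := by exact_mod_cast hpp
    set o : ℤ := ord (s (r0 (ρ n))) with ho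
    obtain ⟨w, hw⟩ : ∃ w : ℕ, o % p = w := Int.eq_ofNat_of_zero_le (Int.emod_nonneg _ hp0.ne')
    have hwp : w < p := by
      have := Int.emod_lt_of_pos o hp0
      rw [hw] at this
      exact_mod_cast this
    have hdiv : o = p * (o / p) + w := by
      rw [← hw]
      exact (Int.mul_ediv_add_emod o p).symm
    have hk1 : γ * tL p ^ (-(w : ℤ)) ∈ k := ht γ hγ _
    have hk2 : γ * tL p ^ (-(w : ℤ)) ≠ 0 := mul_ne_zero hγ0 (zpow_ne_zero _ tne)
    obtain ⟨h1, h2⟩ := hB n _ hk1 hk2 (hnw w hwp) (b * tL p ^ (-(o / p)))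
    have key : tL p ^ o * (γ * tL p ^ (-(w : ℤ)) * (b * tL p ^ (-(o / p))) ^ p) = γ * b ^ p := by
      have e1 : (tL p ^ (-(o / p))) ^ p = tL p ^ (-(p * (o / p))) := by
        rw [← zpow_natCast, ← zpow_mul]
        congr 1
        ring
      have e2 : tL p ^ o * (tL p ^ (-(w : ℤ)) * tL p ^ (-(p * (o / p)))) = 1 := by
        rw [← zpow_add₀ tne, ← zpow_add₀ tne]
        have : o + (-(w : ℤ) + -(p * (o / p))) = 0 := by omega
        rw [this, zpow_zero]
      rw [mul_pow, e1]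
      calc tL p ^ o * (γ * tL p ^ (-(w : ℤ)) * (b ^ p * tL p ^ (-(p * (o / p)))))
          = γ * b ^ p * (tL p ^ o * (tL p ^ (-(w : ℤ)) * tL p ^ (-(p * (o / p))))) := by ring
        _ = γ * b ^ p := by rw [e2, mul_one]
    have hne : E n - γ * tL p ^ (-(w : ℤ)) * (b * tL p ^ (-(o / p))) ^ p ≠ 0 := sub_ne_zero.2 h1
    have hdiff : tL p ^ o * E n - γ * b ^ p =
        tL p ^ o * (E n - γ * tL p ^ (-(w : ℤ)) * (b * tL p ^ (-(o / p))) ^ p) := by
      rw [mul_sub, key]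
    have hdo : ord (tL p ^ o * E n - γ * b ^ p) =
        o + ord (E n - γ * tL p ^ (-(w : ℤ)) * (b * tL p ^ (-(o / p))) ^ p) := by
      rw [hdiff, ord_mul (zpow_ne_zero _ tne) hne, ord_tzpow]
    have h3 := hσo n
    rw [← ho] at h3
    constructor
    · have h4 : tL p ^ o * E n - γ * b ^ p ≠ 0 := by
        rw [hdiff]
        exact mul_ne_zero (zpow_ne_zero _ tne) hne
      exact sub_ne_zero.1 h4
    · show (M : ℤ) * (ord (tL p ^ o * E n - γ * b ^ p) - ord (tL p ^ o * E n)) <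
        ord (tL p ^ o * E n)
      rw [hdo, h3, add_sub_cancel_left]
      have h5 := hρB n
      rw [← ho] at h5
      have h6 : (M : ℤ) * ord (E n - γ * tL p ^ (-(w : ℤ)) * (b * tL p ^ (-(o / p))) ^ p) ≤
          M * B n := mul_le_mul_of_nonneg_left h2 (by positivity)
      have h7 : (M : ℤ) * B n ≤ n * B n := by
        have : (M : ℤ) ≤ n := by exact_mod_cast hnM
        exact mul_le_mul_of_nonneg_right this (by positivity)
      linarith

end TF43
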