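import Pool.Agent.W_4ce76a_h43.Def

set_option autoImplicit false
set_option linter.unusedSectionVars false

/-!
# MP_4ce76a_lc, T3: Hensel's lemma for tracked polynomials, uniformly in `n`
-/

namespace TF43

open TF14 TF45 Polynomial

variable {p : ℕ} [hp : Fact p.Prime]

/-- Proof: `root_cont (ta_L p).hens (nontriv (ta_L p))` for the limit polynomial `(spz D Γ).map (evalRingHom 0) - C (value)` and the polynomials
`(spz (Dn n) Γ).map (evalRingHom (x n)) - C (g n)`: `natDegree ≤ Γ.natDegree`, the coefficients converge: the `j`-th coefficient is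
`((spz (Dn n) Γ).coeff j).eval (x n)`, which is a polynomial over `K p` in `Dn n`, `x n` (`spz_tnd` for `C (Γ.coeff j)`, whose value at `(x n, 0)` is this
coefficient).  Model: `solve` in `QSpz.lean`.  (Or from `tame_core` of `W_4ce76a_h14b` with `A = 1`, `U = 1`, `r = 1`.) -/
theorem hens_y {κ : Type} [Finite κ] {D : κ → L p} {Dn : ℕ → κ → L p} (hT : Tk D Dn)
    (Γ : (MvPolynomial κ (K p))[X][X]) (h1 : (derivative (spz D Γ)).evalEval 0 0 ≠ 0)
    {x g : ℕ → L p} (hx : Tnd x 0) (hg : Tnd g ((spz D Γ).evalEval 0 0)) {e : L p}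
    (he : e ≠ 0) : ∃ n0 : ℕ, ∀ n ≥ n0, ∃ y' : L p, Cl (OL p) e y' 0 ∧
      (spz (Dn n) Γ).evalEval (x n) y' = g n := by
  classical
  have hev : ∀ (F : (L p)[X][X]) (x y : L p), F.evalEval x y = (F.map (evalRingHom x)).eval y := by
    intro F x y
    rw [QSpz_eval₂, eval_map]
  obtain ⟨v, hv⟩ : ∃ v, v = (spz D Γ).evalEval 0 0 := ⟨_, rfl⟩
  rw [← hv] at hg
  have hdeg : ∀ (E : κ → L p) (x : L p),
      ((spz E Γ).map (evalRingHom x)).natDegree ≤ Γ.natDegree := by
    intro E x
    refine natDegree_map_le.trans ?_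
    unfold spz
    exact natDegree_map_le
  have hdegC : ∀ (E : κ → L p) (x a : L p),
      ((spz E Γ).map (evalRingHom x) - C a).natDegree ≤ Γ.natDegree := by
    intro E x a
    refine (natDegree_sub_le _ _).trans (max_le (hdeg E x) ?_)
    rw [natDegree_C]
    exact Nat.zero_le _
  have hg0 : ((spz D Γ).map (evalRingHom 0) - C v).eval 0 = 0 := by
    rw [eval_sub, eval_C, ← hev, hv, sub_self]
  have hg1 : ((spz D Γ).map (evalRingHom 0) - C v).derivative.eval 0 ≠ 0 := by
    rw [derivative_sub, derivative_C, sub_zero, derivative_map, ← hev]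
    exact h1
  obtain ⟨d₁, hd₁, hroot⟩ := root_cont (ta_L p).hens (nontriv (ta_L p))
    ((spz D Γ).map (evalRingHom 0) - C v) Γ.natDegree (hdegC D 0 v) hg0 hg1 he
  -- convergence of the coefficients
  have hcf : ∀ j : ℕ, Tnd (fun n => ((spz (Dn n) Γ).map (evalRingHom (x n))).coeff j)
      (((spz D Γ).map (evalRingHom 0)).coeff j) := by
    intro j
    have h0 : Tnd (fun _ : ℕ => (0 : L p)) 0 := tnd_const 0
    have h2 := spz_tnd hT hx h0 (C (Γ.coeff j))
    have h3 : ∀ (E : κ → L p) (z w : L p), (spz E (C (Γ.coeff j))).evalEval z w =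
        ((spz E Γ).map (evalRingHom z)).coeff j := by
      intro E z w
      rw [coeff_map]
      unfold spz evalEval
      rw [map_C, coeff_map, eval_C]
      rfl
    simp only [h3] at h2
    exact h2
  have hcf' : ∀ j : Fin (Γ.natDegree + 1), ∃ n0 : ℕ, ∀ n ≥ n0,
      Cl (OL p) d₁ (((spz (Dn n) Γ).map (evalRingHom (x n))).coeff j)
        (((spz D Γ).map (evalRingHom 0)).coeff j) := fun j => hcf j d₁ hd₁
  choose m hm using hcf'
  obtain ⟨M, hM⟩ := Finite.exists_le m
  obtain ⟨n1, hn1⟩ := hg d₁ hd₁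
  refine ⟨max M n1, fun n hn => ?_⟩
  obtain ⟨θ, hθ, -, hcl⟩ := hroot ((spz (Dn n) Γ).map (evalRingHom (x n)) - C (g n))
    (hdegC (Dn n) (x n) (g n)) (by
      intro i
      have h3 : Cl (OL p) d₁ (((spz (Dn n) Γ).map (evalRingHom (x n))).coeff i)
          (((spz D Γ).map (evalRingHom 0)).coeff i) := by
        by_cases hi : i < Γ.natDegree + 1
        · exact hm ⟨i, hi⟩ n ((hM ⟨i, hi⟩).trans ((le_max_left _ _).trans hn))
        · rw [coeff_eq_zero_of_natDegree_lt (lt_of_le_of_lt (hdeg (Dn n) (x n)) (by omega)),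
            coeff_eq_zero_of_natDegree_lt (lt_of_le_of_lt (hdeg D 0) (by omega))]
          exact cl_refl _ _
      have h4 : Cl (OL p) d₁ (-(C (g n) : (L p)[X]).coeff i) (-(C v : (L p)[X]).coeff i) := by
        rw [coeff_C, coeff_C]
        split_ifs with h5
        · obtain ⟨u, hu, h6⟩ := hn1 n ((le_max_right _ _).trans hn)
          exact ⟨-u, (OL p).neg_mem u hu, by rw [mul_neg, ← h6]; ring⟩
        · exact cl_refl _ _
      rw [coeff_sub, coeff_sub, sub_eq_add_neg, sub_eq_add_neg]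
      exact Cont_add h3 h4)
  refine ⟨θ, hcl, ?_⟩
  rw [hev]
  rw [eval_sub, eval_C] at hθ
  exact sub_eq_zero.1 hθ

end TF43
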