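import Pool.Agent.W_4ce76a_h43.Start

set_option autoImplicit false
set_option linter.unusedSectionVars false

/-!
# MP_4ce76a_lc, T3: the key lemma for polynomials in several variables
-/

namespace TF43

open TF14 TF45 MvPolynomial

variable {p : ℕ} [hp : Fact p.Prime] {ι J : Type}

/-- bounded first coordinates -/
theorem KeyM_fin [Finite ι] [Finite J] (f : J → MvPolynomial (ι ⊕ Fin 2) (K p)) {c : ι → L p}
    {cn : ℕ → ι → L p} (hc : Tk c cn) {y : ℕ → L p} {v : L p} (hy : Tnd y v) :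
    ∃ r : ℕ → ℕ, StrictMono r ∧
      ((∃ v : L p, Tk (pr c v) fun n => pr (cn (r n)) (y (r n))) ∨
      ∃ w : ℕ → L p, ∀ z : ℕ → L p, ∃ (n : ℕ) (z' : L p),
        Same (fun j => aeval (Sum.elim (cn (r n)) ![y (r n), z']) (f j))
          (fun j => aeval (Sum.elim c ![w n, z n]) (f j))) := by
  obtain ⟨vn, hv⟩ := tk_lift1 hc v
  have hs : Tnd (fun n => y n - vn n) 0 := by
    have h1 := tnd_diff hy (tk_tnd hv (Sum.inr ()))
    have h2 : v - pr c v (Sum.inr ()) = 0 := sub_self v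
    rwa [h2] at h1
  by_cases hf : ∃ᶠ n in Filter.atTop, y n - vn n = 0
  · obtain ⟨r, hr, hr'⟩ := Filter.extraction_of_frequently_atTop hf
    refine ⟨r, hr, Or.inl ⟨v, ?_⟩⟩
    have h1 := tk_sub hv hr
    have h2 : (fun n => pr (cn (r n)) (vn (r n))) = fun n => pr (cn (r n)) (y (r n)) := by
      funext n
      rw [sub_eq_zero.1 (hr' n)]
    rw [← h2]
    exact h1
  · rw [Filter.not_frequently, Filter.eventually_atTop] at hf
    obtain ⟨n0, hn0⟩ := hf
    have hsh : StrictMono fun n : ℕ => n + n0 := fun a b hab => Nat.add_lt_add_right hab _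
    have hP : ∀ j, ∃ Φ : Polynomial (Polynomial (MvPolynomial (ι ⊕ Unit) (K p))), ∀ (D : ι ⊕ Unit → L p) (a b : L p),
        (spz D Φ).evalEval a b = aeval (Sum.elim D ![a, b]) (aeval (Sum.elim
          (fun i => X (Sum.inl (Sum.inl i))) ![X (Sum.inl (Sum.inr ())) + X (Sum.inr 0),
            X (Sum.inr 1)] : ι ⊕ Fin 2 → MvPolynomial ((ι ⊕ Unit) ⊕ Fin 2) (K p)) (f j)) :=
      fun j => mv_spz _
    choose Φ hΦ using hP
    have hval : ∀ (j : J) (c : ι → L p) (v a b : L p), (spz (pr c v) (Φ j)).evalEval a b =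
        aeval (Sum.elim c ![v + a, b]) (f j) := by
      intro j c v a b
      rw [hΦ, ← AlgHom.comp_apply, comp_aeval]
      congr 1
      apply congrArg
      funext q
      rcases q with q | q
      · simp [pr]
      · fin_cases q
        · simp [pr]
        · simp [pr]
    obtain ⟨r, σ, hr, -, h1⟩ := key (tk_sub hv hsh) Φ (tnd_sub hs hsh)
      (fun n => hn0 _ (Nat.le_add_left _ _))
    refine ⟨fun n => r n + n0, hsh.comp hr, Or.inr ⟨fun n => v + σ n, fun z => ?_⟩⟩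
    obtain ⟨n, z', h2⟩ := h1 z
    refine ⟨n, z', ?_⟩
    simp only [hval, add_sub_cancel] at h2
    exact h2

/-- first coordinates which tend to infinity -/
theorem KeyM_inf [Finite ι] [Finite J] (f : J → MvPolynomial (ι ⊕ Fin 2) (K p)) {c : ι → L p}
    {cn : ℕ → ι → L p} (hc : Tk c cn) {y : ℕ → L p} (hy0 : ∀ n, y n ≠ 0)
    (hy : Tnd (fun n => (y n)⁻¹) 0) :
    ∃ r : ℕ → ℕ, StrictMono r ∧
      ∃ w : ℕ → L p, ∀ z : ℕ → L p, ∃ (n : ℕ) (z' : L p),
        Same (fun j => aeval (Sum.elim (cn (r n)) ![y (r n), z']) (f j))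
          (fun j => aeval (Sum.elim c ![w n, z n]) (f j)) := by
  choose N g hg using fun j => QInit_inv (p := p) (ι := ι) 0 (f j)
  obtain ⟨M, hM⟩ := Finite.exists_le N
  have hP : ∀ j, ∃ Φ : Polynomial (Polynomial (MvPolynomial ι (K p))), ∀ (D : ι → L p) (a b : L p),
      (spz D Φ).evalEval a b = aeval (Sum.elim D ![a, b]) (X (Sum.inr 0) ^ (M - N j) * g j) :=
    fun j => mv_spz _
  choose Φ hΦ using hP
  have hval : ∀ (j : J) (c : ι → L p) (a b : L p), a ≠ 0 → (spz c (Φ j)).evalEval a b =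
      a ^ M * aeval (Sum.elim c ![a⁻¹, b]) (f j) := by
    intro j c a b ha
    have h1 := hg j c ![a, b] ha
    have h2 : Function.update (![a, b] : Fin 2 → L p) 0 a⁻¹ = ![a⁻¹, b] := by
      funext q
      fin_cases q
      · simp
      · simp
    rw [hΦ, map_mul, map_pow, aeval_X, h1]
    simp only [Sum.elim_inr, Matrix.cons_val_zero]
    rw [h2, ← mul_assoc, ← pow_add, Nat.sub_add_cancel (hM j)]
  obtain ⟨r, σ, hr, hσ, h1⟩ := key hc Φ hy (fun n => inv_ne_zero (hy0 n))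
  refine ⟨r, hr, fun n => (σ n)⁻¹, fun z => ?_⟩
  obtain ⟨n, z', h2⟩ := h1 z
  refine ⟨n, z', ?_⟩
  simp only [hval _ _ _ _ (inv_ne_zero (hy0 _)), hval _ _ _ _ (hσ n), inv_inv] at h2
  exact same_trans (same_symm (same_scale (pow_ne_zero M (inv_ne_zero (hy0 _))) _))
    (same_trans h2 (same_scale (pow_ne_zero M (hσ n)) _))

theorem key_main [Finite ι] [Finite J] (f : J → MvPolynomial (ι ⊕ Fin 2) (K p)) {c : ι → L p}
    {cn : ℕ → ι → L p} (hc : Tk c cn) (y : ℕ → L p) :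
    ∃ r : ℕ → ℕ, StrictMono r ∧
      ((∃ v : L p, Tk (pr c v) fun n => pr (cn (r n)) (y (r n))) ∨
      ∃ w : ℕ → L p, ∀ z : ℕ → L p, ∃ (n : ℕ) (z' : L p),
        Same (fun j => aeval (Sum.elim (cn (r n)) ![y (r n), z']) (f j))
          (fun j => aeval (Sum.elim c ![w n, z n]) (f j))) := by
  rcases cpt_inf (a := y) with ⟨r, v, hr, hv⟩ | ⟨r, hr, h0, hv⟩
  · obtain ⟨r', hr', h1⟩ := KeyM_fin f (tk_sub hc hr) hv
    exact ⟨fun n => r (r' n), hr.comp hr', h1⟩
  · obtain ⟨r', hr', h1⟩ := KeyM_inf f (tk_sub hc hr) h0 hv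
    exact ⟨fun n => r (r' n), hr.comp hr', Or.inr h1⟩

end TF43
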