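import Pool.Agent.W_4ce76a_h43.Coef

set_option autoImplicit false
set_option linter.unusedSectionVars false

/-!
# MP_4ce76a_lc, T3: the lexicographic law (section 5 (b) of row 524)
-/

namespace TF43

open TF14 TF45 Polynomial

variable {p : ℕ} [hp : Fact p.Prime]

/-- Integers: `Y → ∞` and `X` is eventually larger than every multiple of `Y`; then the comparison of `m X + r Y + q` with `m' X + r' Y + q'` is
eventually the lexicographic one.  Proof: `P := m < m' ∨ (m = m' ∧ (r < r' ∨ (r = r' ∧ q ≤ q')))`.  Take `n` with `Y ≥ |q| + |q'| + 1`,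
`X ≥ (r + r' + |q| + |q'| + 1) Y`; cases. -/
theorem lex_int (m m' r r' : ℕ) (q q' : ℤ) : ∃ P : Prop, ∀ X Y : ℕ → ℤ,
    (∀ N : ℤ, ∃ n0 : ℕ, ∀ n ≥ n0, N ≤ Y n) →
    (∀ M : ℕ, ∃ n0 : ℕ, ∀ n ≥ n0, (M : ℤ) * Y n ≤ X n) →
    ∃ n0 : ℕ, ∀ n ≥ n0, ((m : ℤ) * X n + r * Y n + q ≤ m' * X n + r' * Y n + q' ↔ P) := by
  refine ⟨m < m' ∨ (m = m' ∧ (r < r' ∨ (r = r' ∧ q ≤ q'))), fun X Y hY hX => ?_⟩
  obtain ⟨n1, h1⟩ := hY (|q| + |q'| + 1)
  obtain ⟨n2, h2⟩ := hX (r + r' + 1)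
  refine ⟨max n1 n2, fun n hn => ?_⟩
  have e1 := h1 n ((le_max_left _ _).trans hn)
  have e2 := h2 n ((le_max_right _ _).trans hn)
  push_cast at e2
  have q1 := le_abs_self q
  have q2 := neg_abs_le q
  have q3 := le_abs_self q'
  have q4 := neg_abs_le q'
  have y0 : 0 ≤ Y n := by
    have := abs_nonneg q
    have := abs_nonneg q'
    linarith
  have r0 : (0 : ℤ) ≤ r * Y n := mul_nonneg (Int.natCast_nonneg r) y0
  have r1 : (0 : ℤ) ≤ r' * Y n := mul_nonneg (Int.natCast_nonneg r') y0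
  have e3 : (r : ℤ) * Y n + r' * Y n + Y n ≤ X n := by
    have h : ((r : ℤ) + r' + 1) * Y n = r * Y n + r' * Y n + Y n := by ring
    linarith
  have x0 : 0 ≤ X n := by linarith
  rcases lt_trichotomy m m' with hm | hm | hm
  · have h3 : (m : ℤ) * X n + X n ≤ m' * X n := by
      have h4 : (m : ℤ) + 1 ≤ m' := by exact_mod_cast hm
      have h5 := mul_le_mul_of_nonneg_right h4 x0
      linarith
    exact ⟨fun _ => Or.inl hm, fun _ => by linarith⟩
  · subst hm
    rcases lt_trichotomy r r' with hr | hr | hr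
    · have h3 : (r : ℤ) * Y n + Y n ≤ r' * Y n := by
        have h4 : (r : ℤ) + 1 ≤ r' := by exact_mod_cast hr
        have h5 := mul_le_mul_of_nonneg_right h4 y0
        linarith
      exact ⟨fun _ => Or.inr ⟨rfl, Or.inl hr⟩, fun _ => by linarith⟩
    · subst hr
      constructor
      · intro h
        exact Or.inr ⟨rfl, Or.inr ⟨rfl, by linarith⟩⟩
      · rintro (h | ⟨_, h | ⟨_, h⟩⟩)
        · exact absurd h (lt_irrefl _)
        · exact absurd h (lt_irrefl _)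
        · linarith
    · have h3 : (r' : ℤ) * Y n + Y n ≤ r * Y n := by
        have h4 : (r' : ℤ) + 1 ≤ r := by exact_mod_cast hr
        have h5 := mul_le_mul_of_nonneg_right h4 y0
        linarith
      constructor
      · intro h
        exact absurd h (by linarith)
      · rintro (h | ⟨_, h | ⟨h, _⟩⟩)
        · exact absurd h (lt_irrefl _)
        · exact absurd h (not_lt.2 hr.le)
        · exact absurd h hr.ne'
  · have h3 : (m' : ℤ) * X n + X n ≤ m * X n := by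
      have h4 : (m' : ℤ) + 1 ≤ m := by exact_mod_cast hm
      have h5 := mul_le_mul_of_nonneg_right h4 x0
      linarith
    constructor
    · intro h
      exact absurd h (by linarith)
    · rintro (h | ⟨h, _⟩)
      · exact absurd h (not_lt.2 hm.le)
      · exact absurd h hm.ne'

/-- Proof: `low_X`: `F = C X ^ m * H`; `H.map (evalRingHom 0) = X ^ r * h`, `h.eval 0 ≠ 0` (`exists_eq_pow_rootMultiplicity_mul_and_not_dvd`); all coefficients
of `H - (X ^ r * h).map C` are divisible by `X` (`C_dvd_iff_dvd_coeff`, `X_dvd_iff`).  `h' = h.map C`. -/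
theorem lex_form {F : (L p)[X][X]} (hF : F ≠ 0) :
    ∃ (m r : ℕ) (h' H' : (L p)[X][X]), h'.evalEval 0 0 ≠ 0 ∧
      F = C X ^ m * (X ^ r * h' + C X * H') := by
  obtain ⟨m, H, hH, hne⟩ := low_X hF
  obtain ⟨h, hh, hnd⟩ := exists_eq_pow_rootMultiplicity_mul_and_not_dvd
    (H.map (evalRingHom (0 : L p))) hne 0
  rw [C_0, sub_zero] at hh hnd
  set r := (H.map (evalRingHom (0 : L p))).rootMultiplicity 0 with hr
  have h1 : (C X : (L p)[X][X]) ∣ H - (X ^ r * h).map C := by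
    rw [C_dvd_iff_dvd_coeff]
    intro i
    rw [X_dvd_iff, coeff_sub, coeff_sub, coeff_map, ← hh, coeff_map, coeff_C_zero,
      coe_evalRingHom, ← coeff_zero_eq_eval_zero, sub_self]
  obtain ⟨H', hH'⟩ := h1
  refine ⟨m, r, h.map C, H', ?_, ?_⟩
  · rw [QSpz_zero, coeff_map, coeff_C_zero]
    intro h0
    exact hnd (X_dvd_iff.2 h0)
  · rw [hH, ← hH', Polynomial.map_mul, Polynomial.map_pow, map_X]
    ring

theorem LexA_id {κ : Type} (D : κ → L p) (F U V : (MvPolynomial κ (K p))[X][X]) (a b : ℕ) :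
    spz D (F + C (C (MvPolynomial.C (-1))) * (C X ^ a * (X ^ b * U + C X * V))) =
      spz D F - C X ^ a * (X ^ b * spz D U + C X * spz D V) := by
  have hX : spz D (X : (MvPolynomial κ (K p))[X][X]) = X := by
    unfold spz
    rw [map_X]
  rw [QNice_add, QNice_mul, QNice_C, QNice_mul, QNice_pow, QNice_X, QNice_add, QNice_mul,
    QNice_mul, QNice_pow, QNice_X, hX]
  ring

theorem LexA_ev {R : Type} [CommRing R] (U V : R[X][X]) (a b : ℕ) (x y : R) :
    (C X ^ a * (X ^ b * U + C X * V) : R[X][X]).evalEval x y =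
      x ^ a * (y ^ b * U.evalEval x y + x * V.evalEval x y) := by
  simp [evalEval]

/-- Tracked version.  Proof: `lex_form`; if `F = 0` use `spz_zero`.  `cf_track` for `h'`, `H'` (index type `Bool` or `Fin 2`), `tk_lift`, identity persists
(`spz_zero` for the difference, `QNice_inl`, `QNice_inr` as in `nice_not_bd`); the value at `(x n, y n)` is
`x ^ m * y ^ r * (h'n + (x / y ^ r) * H'n)`; `h'n → h' (0, 0)`, `H'n` is bounded (`spz_tnd`, `tnd_bound`), `x / y ^ r → 0` because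
`ord x - r ord y ≥ ord y → ∞` (`Dom` with `M = r + 1`); `tnd_ord`. -/
theorem lex_one {F : (L p)[X][X]} (hF : F ≠ 0) : ∃ (m r : ℕ) (q : ℤ), ∀ (κ : Type) [Finite κ]
    (D : κ → L p) (Dn : ℕ → κ → L p) (Φ : (MvPolynomial κ (K p))[X][X]) (x y : ℕ → L p),
    Tk D Dn → spz D Φ = F → Tnd x 0 → Tnd y 0 → Dom x y →
    ∃ n0 : ℕ, ∀ n ≥ n0, (spz (Dn n) Φ).evalEval (x n) (y n) ≠ 0 ∧
      ord ((spz (Dn n) Φ).evalEval (x n) (y n)) = m * ord (x n) + r * ord (y n) + q := by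
  classical
  obtain ⟨m, r, h', H', hne, hFe⟩ := lex_form hF
  refine ⟨m, r, ord (h'.evalEval 0 0), fun κ _ D Dn Φ x y hTk hΦ hx hy hdom => ?_⟩
  obtain ⟨σ, hσ, d, Ψ, hΨ⟩ := cf_track (S := Bool) (fun b => cond b h' H')
  have hΨt : spz d (Ψ true) = h' := hΨ true
  have hΨf : spz d (Ψ false) = H' := hΨ false
  obtain ⟨dn, hdn⟩ := tk_lift hTk d
  have hd : Tk d dn := tk_comp hdn Sum.inr
  obtain ⟨n1, hn1⟩ := spz_zero hdn
    (Φ.map (mapRingHom ((MvPolynomial.rename Sum.inl :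
      MvPolynomial κ (K p) →ₐ[K p] MvPolynomial (κ ⊕ σ) (K p)) :
      MvPolynomial κ (K p) →+* MvPolynomial (κ ⊕ σ) (K p))) +
      C (C (MvPolynomial.C (-1))) * (C X ^ m * (X ^ r * (Ψ true).map (mapRingHom
      ((MvPolynomial.rename Sum.inr : MvPolynomial σ (K p) →ₐ[K p] MvPolynomial (κ ⊕ σ) (K p)) :
      MvPolynomial σ (K p) →+* MvPolynomial (κ ⊕ σ) (K p))) + C X * (Ψ false).map (mapRingHom
      ((MvPolynomial.rename Sum.inr : MvPolynomial σ (K p) →ₐ[K p] MvPolynomial (κ ⊕ σ) (K p)) :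
      MvPolynomial σ (K p) →+* MvPolynomial (κ ⊕ σ) (K p)))))) (by
        rw [LexA_id, QNice_inl, QNice_inr, QNice_inr, hΨt, hΨf, hΦ, ← hFe, sub_self])
  have hU := spz_tnd hd hx hy (Ψ true)
  rw [hΨt] at hU
  obtain ⟨n2, hn2⟩ := tnd_ord hU hne
  obtain ⟨N, n3, hn3⟩ := tnd_bound (spz_tnd hd hx hy (Ψ false))
  obtain ⟨n4, hn4⟩ := hdom (r + 1)
  obtain ⟨n5, hn5⟩ := tnd_iff.1 hy (ord (h'.evalEval 0 0) + 1 + N)
  refine ⟨n1 + n2 + n3 + n4 + n5, fun n hn => ?_⟩
  have e1 := hn1 n (by omega)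
  rw [LexA_id, QNice_inl, QNice_inr, QNice_inr] at e1
  obtain ⟨e2, e2'⟩ := hn2 n (by omega)
  have e3 := hn3 n (by omega)
  obtain ⟨hx0, hy0, e4⟩ := hn4 n (by omega)
  have e5 := hn5 n (by omega)
  rw [sub_zero, vg_ord hy0] at e5
  rw [sub_eq_zero.1 e1, LexA_ev]
  have hyr : y n ^ r ≠ 0 := pow_ne_zero _ hy0
  have o1 : ord (y n ^ r * (spz (dn n) (Ψ true)).evalEval (x n) (y n)) =
      r * ord (y n) + ord (h'.evalEval 0 0) := by
    rw [ord_mul hyr e2, ord_pow, e2']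
  have v1 : VG (ord (y n ^ r * (spz (dn n) (Ψ true)).evalEval (x n) (y n)) + 1)
      (x n * (spz (dn n) (Ψ false)).evalEval (x n) (y n)) := by
    refine vg_mono ?_ (vg_mul ((vg_ord hx0).2 le_rfl) e3)
    rw [o1]
    push_cast at e4
    have h6 : ((r : ℤ) + 1) * ord (y n) = r * ord (y n) + ord (y n) := by ring
    linarith
  obtain ⟨a1, a2⟩ := ord_add_of_vg (mul_ne_zero hyr e2) v1
  have hxm : x n ^ m ≠ 0 := pow_ne_zero _ hx0
  refine ⟨mul_ne_zero hxm a1, ?_⟩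
  rw [ord_mul hxm a1, a2, o1, ord_pow]
  ring

end TF43
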