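import Pool.Agent.W_4ce76a_h43.LexA

set_option autoImplicit false
set_option linter.unusedSectionVars false

/-!
# MP_4ce76a_lc, T3: the lexicographic law (section 5 (b) of row 524)
-/

namespace TF43

open TF14 TF45 Polynomial

variable {p : ℕ} [hp : Fact p.Prime]

/-- The type is eventually a fixed one.  Proof: `Z j := F j = 0`; for `F j = 0` `spz_zero`, for `F j ≠ 0` `lex_one`; `Q i j` from `dv_iff`, `lex_int`
(`X n = ord (x n)`, `Y n = ord (y n) → ∞` by `Tnd y 0` and `y n ≠ 0`); finitely many `i`, `j` (`QNice_all`). -/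
theorem lex_law {J : Type} [Finite J] (F : J → (L p)[X][X]) :
    ∃ (Z : J → Prop) (Q : J → J → Prop), ∀ (κ : Type) [Finite κ]
    (D : κ → L p) (Dn : ℕ → κ → L p) (Φ : J → (MvPolynomial κ (K p))[X][X]) (x y : ℕ → L p),
    Tk D Dn → (∀ j, spz D (Φ j) = F j) → Tnd x 0 → Tnd y 0 → Dom x y →
    ∃ n0 : ℕ, ∀ n ≥ n0, (∀ j, (spz (Dn n) (Φ j)).evalEval (x n) (y n) = 0 ↔ Z j) ∧
      ∀ i j, Dv ((spz (Dn n) (Φ i)).evalEval (x n) (y n))
        ((spz (Dn n) (Φ j)).evalEval (x n) (y n)) ↔ Q i j := by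
  have hpair : ∀ i j, ∃ P : Prop, ∀ (κ : Type) [Finite κ]
      (D : κ → L p) (Dn : ℕ → κ → L p) (Φ : J → (MvPolynomial κ (K p))[X][X]) (x y : ℕ → L p),
      Tk D Dn → (∀ j, spz D (Φ j) = F j) → Tnd x 0 → Tnd y 0 → Dom x y →
      ∃ n0 : ℕ, ∀ n ≥ n0, (Dv ((spz (Dn n) (Φ i)).evalEval (x n) (y n))
        ((spz (Dn n) (Φ j)).evalEval (x n) (y n)) ↔ P) := by
    intro i j
    by_cases hj : F j = 0
    · refine ⟨True, ?_⟩
      intro κ _ D Dn Φ x y hT hΦ hx hy hxy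
      obtain ⟨n0, h⟩ := spz_zero hT (Φ j) (by rw [hΦ j, hj])
      refine ⟨n0, fun n hn => ⟨fun _ => trivial, fun _ => ?_⟩⟩
      rw [dv_iff, h n hn]
      left
      simp [evalEval]
    · by_cases hi : F i = 0
      · obtain ⟨m, r, q, h⟩ := lex_one hj
        refine ⟨False, ?_⟩
        intro κ _ D Dn Φ x y hT hΦ hx hy hxy
        obtain ⟨n0, h0⟩ := spz_zero hT (Φ i) (by rw [hΦ i, hi])
        obtain ⟨n1, h1⟩ := h κ D Dn (Φ j) x y hT (hΦ j) hx hy hxy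
        refine ⟨max n0 n1, fun n hn => ⟨fun hd => ?_, fun hf => hf.elim⟩⟩
        rw [dv_iff, h0 n ((le_max_left _ _).trans hn)] at hd
        rcases hd with hd | hd
        · exact (h1 n ((le_max_right _ _).trans hn)).1 hd
        · exact hd.1 (by simp [evalEval])
      · obtain ⟨mi, ri, qi, hi'⟩ := lex_one hi
        obtain ⟨mj, rj, qj, hj'⟩ := lex_one hj
        obtain ⟨P, hP⟩ := lex_int mi mj ri rj qi qj
        refine ⟨P, ?_⟩
        intro κ _ D Dn Φ x y hT hΦ hx hy hxy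
        obtain ⟨n0, h0⟩ := hi' κ D Dn (Φ i) x y hT (hΦ i) hx hy hxy
        obtain ⟨n1, h1⟩ := hj' κ D Dn (Φ j) x y hT (hΦ j) hx hy hxy
        have hY : ∀ N : ℤ, ∃ n0 : ℕ, ∀ n ≥ n0, N ≤ ord (y n) := by
          intro N
          obtain ⟨a, ha⟩ := tnd_iff.1 hy N
          obtain ⟨b, hb⟩ := hxy 0
          refine ⟨max a b, fun n hn => ?_⟩
          have h2 := ha n ((le_max_left _ _).trans hn)
          rw [sub_zero] at h2
          exact (vg_ord (hb n ((le_max_right _ _).trans hn)).2.1).1 h2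
        have hX : ∀ M : ℕ, ∃ n0 : ℕ, ∀ n ≥ n0, (M : ℤ) * ord (y n) ≤ ord (x n) := by
          intro M
          obtain ⟨b, hb⟩ := hxy M
          exact ⟨b, fun n hn => (hb n hn).2.2⟩
        obtain ⟨n2, h2⟩ := hP (fun n => ord (x n)) (fun n => ord (y n)) hY hX
        refine ⟨max n0 (max n1 n2), fun n hn => ?_⟩
        obtain ⟨a0, a1⟩ := h0 n ((le_max_left _ _).trans hn)
        obtain ⟨b0, b1⟩ := h1 n ((le_max_left _ _).trans ((le_max_right _ _).trans hn))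
        have c := h2 n ((le_max_right _ _).trans ((le_max_right _ _).trans hn))
        rw [dv_iff, a1, b1, ← c]
        constructor
        · rintro (h | h)
          · exact absurd h b0
          · exact h.2
        · intro h
          exact Or.inr ⟨a0, h⟩
  have hz : ∀ j, ∀ (κ : Type) [Finite κ]
      (D : κ → L p) (Dn : ℕ → κ → L p) (Φ : J → (MvPolynomial κ (K p))[X][X]) (x y : ℕ → L p),
      Tk D Dn → (∀ j, spz D (Φ j) = F j) → Tnd x 0 → Tnd y 0 → Dom x y →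
      ∃ n0 : ℕ, ∀ n ≥ n0, ((spz (Dn n) (Φ j)).evalEval (x n) (y n) = 0 ↔ F j = 0) := by
    intro j κ _ D Dn Φ x y hT hΦ hx hy hxy
    by_cases hj : F j = 0
    · obtain ⟨n0, h⟩ := spz_zero hT (Φ j) (by rw [hΦ j, hj])
      refine ⟨n0, fun n hn => ⟨fun _ => hj, fun _ => ?_⟩⟩
      rw [h n hn]
      simp [evalEval]
    · obtain ⟨m, r, q, h⟩ := lex_one hj
      obtain ⟨n0, h0⟩ := h κ D Dn (Φ j) x y hT (hΦ j) hx hy hxy
      exact ⟨n0, fun n hn => ⟨fun h1 => absurd h1 (h0 n hn).1, fun h1 => absurd h1 hj⟩⟩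
  choose Q hQ using hpair
  refine ⟨fun j => F j = 0, Q, ?_⟩
  intro κ _ D Dn Φ x y hT hΦ hx hy hxy
  obtain ⟨n0, h0⟩ := QNice_all (fun j => hz j κ D Dn Φ x y hT hΦ hx hy hxy)
  obtain ⟨n1, h1⟩ := QNice_all (J := J × J) (fun ij => hQ ij.1 ij.2 κ D Dn Φ x y hT hΦ hx hy hxy)
  exact ⟨max n0 n1, fun n hn => ⟨fun j => h0 n ((le_max_left _ _).trans hn) j,
    fun i j => h1 n ((le_max_right _ _).trans hn) (i, j)⟩⟩

/-- Proof: `lex_law` for both (for the second one with the constant sequence `D`: `Tk D (fun _ => D)` by `near_refl`). -/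
theorem lex_same {J κ : Type} [Finite J] [Finite κ] {F : J → (L p)[X][X]} {D : κ → L p}
    {Dn : ℕ → κ → L p} {Φ : J → (MvPolynomial κ (K p))[X][X]} (hT : Tk D Dn)
    (hΦ : ∀ j, spz D (Φ j) = F j) {x y x' y' : ℕ → L p} (hx : Tnd x 0) (hy : Tnd y 0)
    (hxy : Dom x y) (hx' : Tnd x' 0) (hy' : Tnd y' 0) (hxy' : Dom x' y') :
    ∃ n0 : ℕ, ∀ n ≥ n0, Same (fun j => (spz (Dn n) (Φ j)).evalEval (x' n) (y' n))
      (fun j => (F j).evalEval (x n) (y n)) := by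
  obtain ⟨Z, Q, h⟩ := lex_law F
  have hT' : Tk D (fun _ : ℕ => D) := fun m e _ =>
    ⟨0, fun _ _ => near_refl hp.out (ta_L p) m e D⟩
  obtain ⟨n0, h0⟩ := h κ D Dn Φ x' y' hT hΦ hx' hy' hxy'
  obtain ⟨n1, h1⟩ := h κ D (fun _ => D) Φ x y hT' hΦ hx hy hxy
  refine ⟨max n0 n1, fun n hn => ?_⟩
  obtain ⟨a0, a1⟩ := h0 n ((le_max_left _ _).trans hn)
  obtain ⟨b0, b1⟩ := h1 n ((le_max_right _ _).trans hn)
  simp only [hΦ] at b0 b1
  exact ⟨fun i => (a0 i).trans (b0 i).symm, fun i j => (a1 i j).trans (b1 i j).symm⟩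

end TF43
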