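import Pool.Agent.W_4ce76a_h43.Def

set_option autoImplicit false
set_option linter.unusedSectionVars false

/-!
# MP_4ce76a_lc, T3: the relative algebraic closure of `K (D)` in `L`
-/

namespace TF43

open TF14 TF45 Polynomial

variable {p : ℕ} [hp : Fact p.Prime]

private theorem RelK_adjoin {k E : Type} [Field k] [Field E] [Algebra k E] [Countable k]
    {S : Set E} (hS : S.Countable) : Countable (IntermediateField.adjoin k S) := by
  have h1 : (Set.range (algebraMap k E) ∪ S).Countable := (Set.countable_range _).union hS
  have h2 := Subfield.cardinalMk_closure_le_max (Set.range (algebraMap k E) ∪ S)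
  have h3 : Cardinal.mk (Subfield.closure (Set.range (algebraMap k E) ∪ S)) ≤ Cardinal.aleph0 := by
    refine h2.trans (max_le ?_ le_rfl)
    exact Cardinal.le_aleph0_iff_set_countable.2 h1
  exact Cardinal.mk_le_aleph0_iff.1 h3

/-- Proof: `F p = IntermediateField.adjoin (ZMod p) {tL p}` is countable (its elements are in `Subfield.closure` of a countable set, which is
countable, Mathlib file `SetTheory/Cardinal/Subfield`); `K p = algebraicClosure (F p) (L p)`: `mem_algebraicClosure_iff`, `Algebraic.countable (F p) (L p)`. -/
theorem countable_K : Countable (K p) := by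
  have h0 : Countable (F p) := RelK_adjoin (k := ZMod p) (E := L p) (Set.countable_singleton (tL p))
  have h1 := Algebraic.countable (F p) (L p)
  have h2 : ((K p : Set (L p))).Countable := by
    refine h1.mono fun x hx => ?_
    exact mem_algebraicClosure_iff.1 hx
  exact h2.to_subtype

/-- Proof: `F1 := IntermediateField.adjoin (K p) (Set.range D)` is countable (as above, `Subfield.closure` of a countable set),
`k := (algebraicClosure F1 (L p)).restrictScalars (K p)`, `Algebraic.countable F1 (L p)`.  `RC k`: a root in `L p` of a nonzero polynomial over `k` is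
algebraic over `k`, and `k` is algebraic over `F1`, so it is algebraic over `F1` (`IsAlgebraic.restrictScalars`, as in `closed_K`). -/
theorem exists_k {κ : Type} [Finite κ] (D : κ → L p) :
    ∃ k : IntermediateField (K p) (L p), (∀ i, D i ∈ k) ∧ (k : Set (L p)).Countable ∧ RC k := by
  have hK : Countable (K p) := countable_K
  have h0 : Countable (IntermediateField.adjoin (K p) (Set.range D)) :=
    RelK_adjoin (k := K p) (E := L p) (Set.countable_range D)
  let F1 : IntermediateField (K p) (L p) := IntermediateField.adjoin (K p) (Set.range D)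
  have h0' : Countable F1 := h0
  let k1 : IntermediateField F1 (L p) := algebraicClosure F1 (L p)
  refine ⟨k1.restrictScalars (K p), fun i => ?_, ?_, ?_⟩
  · have h1 : D i ∈ F1 := IntermediateField.subset_adjoin _ _ ⟨i, rfl⟩
    have h2 : D i ∈ k1 := by
      have h3 := k1.algebraMap_mem (⟨D i, h1⟩ : F1)
      exact h3
    exact h2
  · have h1 := Algebraic.countable F1 (L p)
    refine h1.mono fun x hx => ?_
    have h2 : x ∈ k1 := hx
    exact mem_algebraicClosure_iff.1 h2
  · intro f hf α hα
    have h1 : Algebra.IsAlgebraic F1 k1 := algebraicClosure.isAlgebraic F1 (L p)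
    have h2 : IsAlgebraic k1 α := ⟨f, hf, hα⟩
    have h3 : IsAlgebraic F1 α := IsAlgebraic.restrictScalars F1 h2
    have h4 : α ∈ k1 := mem_algebraicClosure_iff.2 h3
    exact h4

/-- Proof: `tL p` is in `K p` (`tK p`), `k` is a subfield. -/
theorem k_tpow (k : IntermediateField (K p) (L p)) {γ : L p} (hγ : γ ∈ k) (n : ℤ) :
    γ * tL p ^ n ∈ k := by
  have h1 : tL p ∈ k := k.algebraMap_mem (tK p)
  exact k.mul_mem hγ (zpow_mem h1 n)

end TF43
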