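import Pool.Agent.W_4ce76a_h43.Step
import Pool.Agent.W_4ce76a_h43.GenSeq

set_option autoImplicit false
set_option linter.unusedSectionVars false

/-!
# MP_4ce76a_lc, T3: the key lemma (sections 1 and 3 of row 524)
-/

namespace TF43

open TF14 TF45 Polynomial

variable {p : ℕ} [hp : Fact p.Prime]

/-- convergent witnesses -/
theorem start_bd {J κ : Type} [Finite J] [Finite κ] {k : IntermediateField (K p) (L p)}
    (hk : RC k) {D : κ → L p} {Dn : ℕ → κ → L p} (hT : Tk D Dn) (hD : ∀ i, D i ∈ k)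
    (Φ : J → (MvPolynomial κ (K p))[X][X]) {σ s : ℕ → L p} (hG : Gd (k : Set (L p)) σ s)
    {z : ℕ → L p} {β : L p} (hz : Tnd z β) :
    ∃ (n : ℕ) (z' : L p), Same (fun j => (spz (Dn n) (Φ j)).evalEval (s n) z')
      (fun j => (spz D (Φ j)).evalEval (σ n) (z n)) := by
  by_contra hcon
  push Not at hcon
  have h1s : ∀ D : κ → L p, spz D (1 : (MvPolynomial κ (K p))[X][X]) = 1 := by
    intro D
    unfold spz
    rw [Polynomial.map_one]
  have h1 : Bd3 (k : Set (L p)) β (fun j => spz D (Φ j)) 1 1 0 := by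
    refine ⟨κ, inferInstance, D, Dn, Φ, 1, σ, z, σ, s, ⟨hT, fun j => rfl, h1s D, hG.lim, hz, hG,
      fun n => ?_, fun n => ?_⟩⟩
    · rw [pow_one, pow_zero, mul_one, evalEval_one, mul_one]
    · rintro ⟨x', y', h2, h3⟩
      rw [pow_one, pow_zero, mul_one, h1s, evalEval_one, mul_one] at h2
      rw [h2] at h3
      exact hcon n y' h3
  obtain ⟨u', A', B', h2, h3, -⟩ := trans_step hk (fun j => coef_spz hD (Φ j))
    (⟨1, by rw [Polynomial.map_one]⟩ : CoefIn k (1 : (L p)[X][X]))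
    (fun h => hp.out.one_lt.ne' (Nat.dvd_one.1 h.1)) (Nat.zero_le 1) (one_ne_zero (α := L p))
    (by rw [Polynomial.map_one, map_one]) h1
  exact not_bd3 hk h3 h2

theorem Start_refl {κ : Type} (M : ℕ) (Φ : (MvPolynomial κ (K p))[X][X])
    (hM : Φ.natDegree ≤ M) (D : κ → L p) (x : L p) {w : L p} (hw : w ≠ 0) :
    (spz D (Φ.reflect M)).evalEval x w = w ^ M * (spz D Φ).evalEval x w⁻¹ := by
  have h0 : spz D (Φ.reflect M) = (spz D Φ).reflect M := by
    unfold spz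
    rw [reflect_map]
  have hd : (spz D Φ).natDegree ≤ M := by
    unfold spz
    exact natDegree_map_le.trans hM
  rw [h0, QSpz_eval₂, QSpz_eval₂]
  letI := invertibleOfNonzero (inv_ne_zero hw)
  have h1 := eval₂_reflect_mul_pow (evalRingHom x) w⁻¹ M (spz D Φ) hd
  rw [invOf_eq_inv, inv_inv] at h1
  rw [← h1, mul_comm (w ^ M), mul_assoc, ← mul_pow, inv_mul_cancel₀ hw, one_pow, mul_one]

/-- witnesses which tend to infinity -/
theorem start_inf {J κ : Type} [Finite J] [Finite κ] {k : IntermediateField (K p) (L p)}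
    (hk : RC k) {D : κ → L p} {Dn : ℕ → κ → L p} (hT : Tk D Dn) (hD : ∀ i, D i ∈ k)
    (Φ : J → (MvPolynomial κ (K p))[X][X]) {σ s : ℕ → L p} (hG : Gd (k : Set (L p)) σ s)
    {z : ℕ → L p} (hz0 : ∀ n, z n ≠ 0) (hz : Tnd (fun n => (z n)⁻¹) 0) :
    ∃ (n : ℕ) (z' : L p), Same (fun j => (spz (Dn n) (Φ j)).evalEval (s n) z')
      (fun j => (spz D (Φ j)).evalEval (σ n) (z n)) := by
  obtain ⟨M, hM⟩ := Finite.exists_le fun j => (Φ j).natDegree
  obtain ⟨n, w, hw⟩ := start_bd hk hT hD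
    (fun o : Option J => o.elim (X : (MvPolynomial κ (K p))[X][X]) fun j => (Φ j).reflect M) hG hz
  have hX : ∀ (D : κ → L p) (x y : L p),
      (spz D (X : (MvPolynomial κ (K p))[X][X])).evalEval x y = y := by
    intro D x y
    unfold spz
    simp [evalEval]
  have hw0 : w ≠ 0 := by
    intro h0
    have h1 := (hw.1 none).1 (by
      simp only [Option.elim_none]
      rw [hX, h0])
    simp only [Option.elim_none] at h1
    rw [hX] at h1
    exact inv_ne_zero (hz0 n) h1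
  refine ⟨n, w⁻¹, ?_⟩
  have h1 := same_comp hw (fun j : J => some j)
  simp only [Option.elim_some] at h1
  simp only [Start_refl M _ (hM _) _ _ hw0, Start_refl M _ (hM _) _ _ (inv_ne_zero (hz0 n)),
    inv_inv] at h1
  exact same_trans (same_symm (same_scale (pow_ne_zero M hw0) _))
    (same_trans h1 (same_scale (pow_ne_zero M (inv_ne_zero (hz0 n))) _))

/-- the key lemma -/
theorem key {J κ : Type} [Finite J] [Finite κ] {D : κ → L p} {Dn : ℕ → κ → L p}
    (hT : Tk D Dn) (Φ : J → (MvPolynomial κ (K p))[X][X]) {s : ℕ → L p} (hs : Tnd s 0)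
    (hs0 : ∀ n, s n ≠ 0) :
    ∃ (r : ℕ → ℕ) (σ : ℕ → L p), StrictMono r ∧ (∀ n, σ n ≠ 0) ∧ ∀ z : ℕ → L p,
      ∃ (n : ℕ) (z' : L p), Same (fun j => (spz (Dn (r n)) (Φ j)).evalEval (s (r n)) z')
        (fun j => (spz D (Φ j)).evalEval (σ n) (z n)) := by
  obtain ⟨k, hD, hkc, hk⟩ := exists_k D
  obtain ⟨r, σ, hr, hG⟩ := gen_seq hkc (fun γ hγ n => k_tpow k hγ n) hs hs0
  refine ⟨r, σ, hr, hG.ne, fun z => ?_⟩
  rcases cpt_inf (a := z) with ⟨r', β, hr', hβ⟩ | ⟨r', hr', h0, hβ⟩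
  · obtain ⟨n, z', h1⟩ := start_bd hk (tk_sub hT (hr.comp hr')) hD Φ (gd_sub hG hr') hβ
    exact ⟨r' n, z', h1⟩
  · obtain ⟨n, z', h1⟩ := start_inf hk (tk_sub hT (hr.comp hr')) hD Φ (gd_sub hG hr') h0 hβ
    exact ⟨r' n, z', h1⟩

end TF43
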