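import Pool.Agent.W_4ce76a_h43.Def
import Pool.Agent.W_4ce76a_h14b.T4c

set_option autoImplicit false
set_option linter.unusedSectionVars false

/-!
# MP_4ce76a_lc, T3: tame stop (section 4 of row 524)
-/

namespace TF43

open TF14 TF45 Polynomial

variable {p : ℕ} [hp : Fact p.Prime]

theorem tame {J : Type} [Finite J] {k : Set (L p)} {F : J → (L p)[X][X]} {u : (L p)[X][X]}
    {A B : ℕ} (hN : Nice (fun o : Option J => o.elim (sp u A B) F)) (hu : u.evalEval 0 0 ≠ 0)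
    (hAB : ¬ (p ∣ A ∧ p ∣ B)) : ¬ Bd3 k 0 F u A B := by
  classical
  rintro ⟨κ, hκ, D, Dn, Φ, Υ, x, y, σ, s, hS⟩
  obtain ⟨G, hG0, hG1, hF⟩ := hN
  have hune : u ≠ 0 := by
    intro h
    apply hu
    rw [h, evalEval_zero]
  have hCX : (C X : (L p)[X][X]) ≠ 0 := by
    rw [Ne, C_eq_zero]
    exact X_ne_zero
  have hsp : sp u A B ≠ 0 :=
    mul_ne_zero (mul_ne_zero (pow_ne_zero _ hCX) (pow_ne_zero _ X_ne_zero)) hune
  obtain ⟨a0, b0, U0, V0, hU0, hV0, hE0⟩ : ∃ (a b : ℕ) (U V : (L p)[X][X]),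
      U.evalEval 0 0 ≠ 0 ∧ V.evalEval 0 0 ≠ 0 ∧ V * sp u A B = C X ^ a * G ^ b * U := by
    rcases hF none with h0 | h0
    · exact absurd h0 hsp
    · exact h0
  obtain ⟨rfl, rfl, hE⟩ := sp_nice hG0 hG1 hu hU0 hV0 hE0
  have hF' : ∀ j, ∃ (a b : ℕ) (U V : (L p)[X][X]), U.evalEval 0 0 ≠ 0 ∧ V.evalEval 0 0 ≠ 0 ∧
      (F j = 0 ∨ V * F j = C X ^ a * G ^ b * U) := by
    intro j
    rcases hF (some j) with h0 | ⟨a, b, U, V, hU, hV, hEj⟩
    · refine ⟨0, 0, 1, 1, ?_, ?_, Or.inl h0⟩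
      · simp [evalEval]
      · simp [evalEval]
    · exact ⟨a, b, U, V, hU, hV, Or.inr hEj⟩
  choose a b U V hU hV hEj using hF'
  obtain ⟨τ, hτ, d, Ψ, hΨ⟩ := cf_track (S := Unit ⊕ Option J ⊕ Option J)
    (Sum.elim (fun _ => G) (Sum.elim (fun o => o.elim U0 U) (fun o => o.elim V0 V)))
  obtain ⟨dn, hdn⟩ := tk_lift hS.tk d
  let lf : (MvPolynomial κ (K p))[X][X] → (MvPolynomial (κ ⊕ τ) (K p))[X][X] := fun P =>
    P.map (mapRingHom ((MvPolynomial.rename Sum.inl :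
      MvPolynomial κ (K p) →ₐ[K p] MvPolynomial (κ ⊕ τ) (K p)) :
      MvPolynomial κ (K p) →+* MvPolynomial (κ ⊕ τ) (K p)))
  let rt : (MvPolynomial τ (K p))[X][X] → (MvPolynomial (κ ⊕ τ) (K p))[X][X] := fun P =>
    P.map (mapRingHom ((MvPolynomial.rename Sum.inr :
      MvPolynomial τ (K p) →ₐ[K p] MvPolynomial (κ ⊕ τ) (K p)) :
      MvPolynomial τ (K p) →+* MvPolynomial (κ ⊕ τ) (K p)))
  have hlf : ∀ (D' : κ → L p) (d' : τ → L p) (P : (MvPolynomial κ (K p))[X][X]),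
      spz (Sum.elim D' d') (lf P) = spz D' P := fun D' d' P => QNice_inl D' d' P
  have hrt : ∀ (D' : κ → L p) (d' : τ → L p) (P : (MvPolynomial τ (K p))[X][X]),
      spz (Sum.elim D' d') (rt P) = spz d' P := fun D' d' P => QNice_inr D' d' P
  have hΨG : spz d (Ψ (Sum.inl ())) = G := hΨ (Sum.inl ())
  have hΨU0 : spz d (Ψ (Sum.inr (Sum.inl none))) = U0 := hΨ (Sum.inr (Sum.inl none))
  have hΨV0 : spz d (Ψ (Sum.inr (Sum.inr none))) = V0 := hΨ (Sum.inr (Sum.inr none))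
  have hΨU : ∀ j, spz d (Ψ (Sum.inr (Sum.inl (some j)))) = U j :=
    fun j => hΨ (Sum.inr (Sum.inl (some j)))
  have hΨV : ∀ j, spz d (Ψ (Sum.inr (Sum.inr (some j)))) = V j :=
    fun j => hΨ (Sum.inr (Sum.inr (some j)))
  obtain ⟨n, x', y', e1, e2⟩ := tame_aux (a := a) (b := b) hdn (fun j => lf (Φ j))
    (fun j => rt (Ψ (Sum.inr (Sum.inl (some j))))) (fun j => rt (Ψ (Sum.inr (Sum.inr (some j)))))
    (lf Υ) (rt (Ψ (Sum.inl ()))) (rt (Ψ (Sum.inr (Sum.inl none))))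
    (rt (Ψ (Sum.inr (Sum.inr none)))) hAB (by
      intro j
      rcases hEj j with h | h
      · left
        rw [hlf, hS.hΦ, h]
      · right
        rw [QNice_mul, QNice_mul, QNice_mul, QNice_pow, QNice_pow, QNice_X, hlf, hrt, hrt, hrt,
          hΨG, hΨU, hΨV, hS.hΦ, h]) (by
      rw [QNice_mul, QNice_mul, QNice_mul, QNice_pow, QNice_pow, t4_Y, hlf, hrt, hrt, hrt,
        hΨG, hΨU0, hΨV0, hS.hΥ, hE]) (by rw [hrt, hΨG]; exact hG1)
    (by rw [hlf, hS.hΥ]; exact hu) (by rw [hrt, hΨU0]; exact hU0)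
    (by rw [hrt, hΨV0]; exact hV0) (by intro j; rw [hrt, hΨU]; exact hU j)
    (by intro j; rw [hrt, hΨV]; exact hV j) hS.hx hS.hy hS.gd.ne hS.gd.quo (by
      intro n
      rw [hlf, hS.hΥ]
      exact hS.eq n)
  simp only [hlf] at e1 e2
  have hlf' : ∀ (m : ℕ) (P : (MvPolynomial κ (K p))[X][X]),
      spz (Sum.elim (Dn m) (dn m)) (lf P) = spz (Dn m) P := fun m P => hlf _ _ P
  refine hS.no n ⟨x', y', e1, same_of_eqv fun j => ?_⟩
  have h3 := e2 j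
  rw [hS.hΦ] at h3
  exact h3

end TF43
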