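import Pool.Agent.W_4ce76a_h43.Fat
import Pool.Agent.W_4ce76a_h43.Tame
import Pool.Agent.W_4ce76a_h43.RelK

set_option autoImplicit false
set_option linter.unusedSectionVars false

/-!
# MP_4ce76a_lc, T3: the moves (section 3 of row 524)
-/

namespace TF43

open TF14 TF45 Polynomial

variable {p : ℕ} [hp : Fact p.Prime]

/-- the invariants -/
structure Inv {J : Type} (k : IntermediateField (K p) (L p)) (F : J → (L p)[X][X])
    (u : (L p)[X][X]) (A B : ℕ) : Prop where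
  hF : ∀ j, CoefIn k (F j)
  hu : CoefIn k u
  h0 : u.evalEval 0 0 ≠ 0
  hAB : ¬ (p ∣ A ∧ p ∣ B)

section Alg

variable {R : Type} [CommRing R]

theorem trs_zero (F : R[X][X]) : trs 0 F = F := by
  unfold trs
  simp

theorem trs_mul (β : R) (F G : R[X][X]) : trs β (F * G) = trs β F * trs β G := by
  unfold trs
  rw [mul_comp]

theorem trs_sp (β : R) (u : R[X][X]) (A B : ℕ) :
    trs β (sp u A B) = sp ((X + C (C β)) ^ B * trs β u) A 0 := by
  unfold trs sp
  simp only [mul_comp, pow_comp, C_comp, X_comp, pow_zero, mul_one]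
  ring

theorem opA_sp (u : R[X][X]) (A B : ℕ) : opA 0 (sp u A B) = sp (opA 0 u) (A + B) B := by
  unfold opA sp
  simp only [mul_comp, pow_comp, C_comp, X_comp, map_zero, add_zero, mul_pow, pow_add]
  ring

theorem opB_sp (u : R[X][X]) (A B : ℕ) : opB (sp u A B) = sp (opB u) (A + B) A := by
  unfold opB sp
  simp only [eval₂_mul, eval₂_pow, eval₂_C, eval₂_X, coe_eval₂RingHom, mul_pow, pow_add]
  ring

/-- the restriction of `F (X, X Y)` to `X = 0` is constant -/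
theorem opA_map0 (F : R[X][X]) : (opA 0 F).map (evalRingHom 0) = C (F.evalEval 0 0) := by
  unfold opA
  rw [map_comp]
  have h1 : (map (evalRingHom 0) (C X * (X + C (C 0))) : R[X]) = C 0 := by simp
  rw [h1, comp_C]
  congr 1
  rw [eval_map, ← QSpz_eval₂]

end Alg

section Moves

theorem spz_trs {κ : Type} (D : κ → L p) (a : L p) (Φ : (MvPolynomial κ (K p))[X][X]) :
    spz (pr D a) (trs (MvPolynomial.X (Sum.inr ())) (Φ.map (mapRingHom
      ((MvPolynomial.rename Sum.inl : MvPolynomial κ (K p) →ₐ[K p]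
        MvPolynomial (κ ⊕ Unit) (K p)) : MvPolynomial κ (K p) →+*
        MvPolynomial (κ ⊕ Unit) (K p))))) = trs a (spz D Φ) := by
  have h1 := spz_map (Sum.inl : κ → κ ⊕ Unit) (pr D a) Φ
  have h2 : pr D a ∘ Sum.inl = D := by
    funext i
    rfl
  rw [h2] at h1
  rw [← h1]
  unfold spz
  rw [map_trs]
  congr 1
  simp [pr]

theorem spz_lin {κ : Type} (D : κ → L p) (a : L p) :
    spz (pr D a) (X + C (C (MvPolynomial.X (Sum.inr ()))) :
      (MvPolynomial (κ ⊕ Unit) (K p))[X][X]) = X + C (C a) := by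
  unfold spz
  simp [pr]

theorem ev_lin {R : Type} [CommRing R] (a x y : R) :
    (X + C (C a) : R[X][X]).evalEval x y = y + a := by
  simp [evalEval]

variable {J : Type} {k : Set (L p)} {F : J → (L p)[X][X]} {u : (L p)[X][X]} {A B : ℕ}

/-- translation of the second coordinate -/
theorem trans_bd {β : L p} (h : Bd3 k β F u A B) :
    Bd3 k 0 (fun j => trs β (F j)) ((X + C (C β)) ^ B * trs β u) A 0 := by
  obtain ⟨κ, hκ, D, Dn, Φ, Υ, x, y, σ, s, h⟩ := h
  obtain ⟨βn, hβ⟩ := tk_lift1 h.tk β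
  refine ⟨κ ⊕ Unit, inferInstance, pr D β, fun n => pr (Dn n) (βn n),
    fun j => trs (MvPolynomial.X (Sum.inr ())) ((Φ j).map (mapRingHom
      ((MvPolynomial.rename Sum.inl : MvPolynomial κ (K p) →ₐ[K p]
        MvPolynomial (κ ⊕ Unit) (K p)) : MvPolynomial κ (K p) →+*
        MvPolynomial (κ ⊕ Unit) (K p)))),
    (X + C (C (MvPolynomial.X (Sum.inr ())))) ^ B * trs (MvPolynomial.X (Sum.inr ()))
      (Υ.map (mapRingHom ((MvPolynomial.rename Sum.inl : MvPolynomial κ (K p) →ₐ[K p]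
        MvPolynomial (κ ⊕ Unit) (K p)) : MvPolynomial κ (K p) →+*
        MvPolynomial (κ ⊕ Unit) (K p)))),
    x, fun n => y n - β, σ, s, ⟨hβ, fun j => ?_, ?_, h.hx, ?_, h.gd, fun n => ?_,
      fun n => ?_⟩⟩
  · rw [spz_trs, h.hΦ]
  · rw [QNice_mul, QNice_pow, spz_trs, spz_lin, h.hΥ]
  · have h1 := tnd_diff h.hy (tnd_const β)
    rwa [sub_self] at h1
  · rw [evalEval_mul, evalEval_pow, ev_lin, ev_trs, sub_add_cancel, pow_zero, mul_one,
      ← mul_assoc]
    exact h.eq n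
  · rintro ⟨x', y', h1, h2⟩
    refine h.no n ⟨x', y' + βn n, ?_, ?_⟩
    · rw [QNice_mul, QNice_pow, spz_trs, spz_lin, evalEval_mul, evalEval_pow, ev_lin, ev_trs,
        pow_zero, mul_one, ← mul_assoc] at h1
      exact h1
    · simp only [spz_trs, ev_trs, sub_add_cancel] at h2
      exact h2

theorem Step_der (G : (L p)[X][X]) :
    (derivative G).evalEval 0 0 = (derivative (G.map (evalRingHom 0))).eval 0 := by
  rw [QSpz_eval₂, derivative_map, eval_map]

theorem Step_map {β c : L p} (h0 : u.map (evalRingHom 0) = C c) :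
    ((X + C (C β)) ^ B * trs β u).map (evalRingHom 0) = (X + C β) ^ B * C c := by
  unfold trs
  rw [Polynomial.map_mul, map_comp, h0, C_comp, Polynomial.map_pow]
  simp

/-- a translation step -/
theorem trans_step [Finite J] {k : IntermediateField (K p) (L p)} (hk : RC k) {β : L p}
    (hF : ∀ j, CoefIn k (F j)) (hu : CoefIn k u) (hAB : ¬ (p ∣ A ∧ p ∣ B)) (hBA : B ≤ A) {c : L p}
    (hc : c ≠ 0) (h0 : u.map (evalRingHom 0) = C c) (h : Bd3 (k : Set (L p)) β F u A B) :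
    ∃ (u' : (L p)[X][X]) (A' B' : ℕ), Bd3 (k : Set (L p)) 0 (fun j => trs β (F j)) u' A' B' ∧
      Inv k (fun j => trs β (F j)) u' A' B' ∧ trs β (sp u A B) = sp u' A' B' := by
  have hval : ∀ y : L p, u.evalEval 0 y = c := by
    intro y
    rw [QSpz_eval₂, ← eval_map, h0, eval_C]
  by_cases hβ0 : β = 0
  · subst hβ0
    refine ⟨u, A, B, ?_, ⟨?_, hu, ?_, hAB⟩, trs_zero _⟩
    · simp only [trs_zero]
      exact h
    · intro j
      rw [trs_zero]
      exact hF j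
    · rw [hval]
      exact hc
  have h1 := trans_bd h
  have hu0 : ((X + C (C β)) ^ B * trs β u).evalEval 0 0 ≠ 0 := by
    rw [evalEval_mul, evalEval_pow, ev_lin, ev_trs, zero_add, hval]
    exact mul_ne_zero (pow_ne_zero _ hβ0) hc
  have hu1 : ¬ p ∣ B → (derivative ((X + C (C β)) ^ B * trs β u)).evalEval 0 0 ≠ 0 := by
    intro hB
    have : CharP (L p) p := (ta_L p).char
    have hBL : (B : L p) ≠ 0 := by
      rw [Ne, CharP.cast_eq_zero_iff (L p) p]
      exact hB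
    rw [Step_der, Step_map h0, derivative_mul, derivative_C, mul_zero, add_zero,
      derivative_X_add_C_pow]
    simp only [eval_mul, eval_pow, eval_add, eval_X, eval_C, zero_add]
    exact mul_ne_zero (mul_ne_zero hBL (pow_ne_zero _ hβ0)) hc
  by_cases hβ : β ∈ k
  · by_cases hA : p ∣ A
    · exfalso
      have hB : ¬ p ∣ B := fun hB => hAB ⟨hA, hB⟩
      have hA0 : 0 < A := by
        rcases Nat.eq_zero_or_pos A with h2 | h2
        · have h3 : B = 0 := by omega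
          rw [h3] at hB
          exact absurd (dvd_zero p) hB
        · exact h2
      exact fat_in hA hA0 hu0 (coef_val (coef_mul (coef_lin hβ B) (coef_trs hβ hu)))
        (hu1 hB) h1
    · exact ⟨_, A, 0, h1, ⟨fun j => coef_trs hβ (hF j),
        coef_mul (coef_lin hβ B) (coef_trs hβ hu), hu0, fun h2 => hA h2.1⟩, trs_sp β u A B⟩
  · exfalso
    have hmono : ∀ j, trs β (F j) = 0 ∨ ∃ (m : ℕ) (U : (L p)[X][X]), U.evalEval 0 0 ≠ 0 ∧
        trs β (F j) = C X ^ m * U := by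
      intro j
      by_cases hj : F j = 0
      · left
        rw [hj]
        unfold trs
        rw [zero_comp]
      · right
        exact low_trs hk (hF j) hj hβ
    by_cases hA : p ∣ A
    · exact fat_out (hu1 fun hB => hAB ⟨hA, hB⟩) hmono h1
    · refine tame ?_ hu0 (fun h2 => hA h2.1) h1
      refine ⟨X, by simp [evalEval], by simp [evalEval], fun o => ?_⟩
      rcases o with _ | j
      · right
        refine ⟨A, 0, (X + C (C β)) ^ B * trs β u, 1, hu0, by simp [evalEval], ?_⟩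
        simp only [Option.elim_none, sp, pow_zero, mul_one, one_mul]
      · rcases hmono j with h2 | ⟨m, U, hU, h2⟩
        · left
          exact h2
        · right
          refine ⟨m, 0, U, 1, hU, by simp [evalEval], ?_⟩
          simp only [Option.elim_some, pow_zero, mul_one, one_mul]
          exact h2

/-- the first chart without translation -/
theorem moveA {κ : Type} [Finite κ] {D : κ → L p} {Dn : ℕ → κ → L p}
    {Φ : J → (MvPolynomial κ (K p))[X][X]} {Υ : (MvPolynomial κ (K p))[X][X]}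
    {x y σ s : ℕ → L p} (h : Sit k 0 F u A B D Dn Φ Υ x y σ s) {α : L p}
    (hx0 : ∀ n, x n ≠ 0) (hα : Tnd (fun n => y n / x n) α) :
    Bd3 k α (fun j => opA 0 (F j)) (opA 0 u) (A + B) B := by
  have hsp : ∀ (D : κ → L p) (Φ : (MvPolynomial κ (K p))[X][X]),
      spz D (opA 0 Φ) = opA 0 (spz D Φ) := by
    intro D Φ
    unfold spz
    rw [map_opA, map_zero]
  refine ⟨κ, inferInstance, D, Dn, fun j => opA 0 (Φ j), opA 0 Υ, x, fun n => y n / x n, σ, s,
    ⟨h.tk, fun j => ?_, ?_, h.hx, hα, h.gd, fun n => ?_, fun n => ?_⟩⟩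
  · rw [hsp, h.hΦ]
  · rw [hsp, h.hΥ]
  · rw [ev_opA, add_zero, mul_div_cancel₀ _ (hx0 n), pow_add, div_pow, mul_assoc (x n ^ A),
      mul_div_cancel₀ _ (pow_ne_zero _ (hx0 n))]
    exact h.eq n
  · rintro ⟨x', y', h1, h2⟩
    refine h.no n ⟨x', x' * y', ?_, ?_⟩
    · rw [hsp, ev_opA, add_zero] at h1
      rw [← h1, mul_pow, pow_add]
      ring
    · simp only [hsp, ev_opA, add_zero, mul_div_cancel₀ _ (hx0 n)] at h2
      exact h2

/-- the second chart -/
theorem moveB {κ : Type} [Finite κ] {D : κ → L p} {Dn : ℕ → κ → L p}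
    {Φ : J → (MvPolynomial κ (K p))[X][X]} {Υ : (MvPolynomial κ (K p))[X][X]}
    {x y σ s : ℕ → L p} (h : Sit k 0 F u A B D Dn Φ Υ x y σ s)
    (hy0 : ∀ n, y n ≠ 0) (hα : Tnd (fun n => x n / y n) 0) :
    Bd3 k 0 (fun j => opB (F j)) (opB u) (A + B) A := by
  refine ⟨κ, inferInstance, D, Dn, fun j => opB (Φ j), opB Υ, y, fun n => x n / y n, σ, s,
    ⟨h.tk, fun j => ?_, ?_, h.hy, hα, h.gd, fun n => ?_, fun n => ?_⟩⟩
  · rw [QStep_spzB, h.hΦ]
  · rw [QStep_spzB, h.hΥ]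
  · rw [ev_opB, mul_div_cancel₀ _ (hy0 n), pow_add, div_pow, mul_comm (y n ^ A), mul_assoc (y n ^ B),
      mul_div_cancel₀ _ (pow_ne_zero _ (hy0 n)), mul_comm (y n ^ B)]
    exact h.eq n
  · rintro ⟨x', y', h1, h2⟩
    refine h.no n ⟨x' * y', x', ?_, ?_⟩
    · rw [QStep_spzB, ev_opB] at h1
      rw [← h1, mul_pow, pow_add]
      ring
    · simp only [QStep_spzB, ev_opB, mul_div_cancel₀ _ (hy0 n)] at h2
      exact h2

/-- compactness -/
theorem cpt {a : ℕ → L p} {N : ℕ} (h : ∀ n, VG (-(N : ℤ)) (a n)) :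
    ∃ (r : ℕ → ℕ) (α : L p), StrictMono r ∧ Tnd (fun n => a (r n)) α := by
  obtain ⟨r, v, hr, -, hlim⟩ := seq_compact p (k := 1) (fun n _ => tL p ^ N * a n)
    (fun n _ => by
      have h1 := vg_mul ((vg_ord (pow_ne_zero N tne)).2 (ord_tpow N).ge) (h n)
      rw [add_neg_cancel] at h1
      exact vg_mem.1 h1)
  refine ⟨r, (tL p ^ N)⁻¹ * v 0, hr, ?_⟩
  have h1 : Tnd (fun n => tL p ^ N * a (r n)) (v 0) := fun e he => by
    obtain ⟨m0, hm0⟩ := hlim e he
    exact ⟨m0, fun n hn => hm0 n hn 0⟩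
  have h2 := tnd_mul (tnd_const (tL p ^ N)⁻¹) h1
  have h3 : (fun n => (tL p ^ N)⁻¹ * (tL p ^ N * a (r n))) = fun n => a (r n) := by
    funext n
    rw [← mul_assoc, inv_mul_cancel₀ (pow_ne_zero N tne), one_mul]
  rw [h3] at h2
  exact h2

/-- a sequence has a convergent subsequence or a subsequence tending to infinity -/
theorem cpt_inf {a : ℕ → L p} : (∃ (r : ℕ → ℕ) (α : L p), StrictMono r ∧ Tnd (fun n => a (r n)) α) ∨
    ∃ r : ℕ → ℕ, StrictMono r ∧ (∀ n, a (r n) ≠ 0) ∧ Tnd (fun n => (a (r n))⁻¹) 0 := by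
  by_cases hc : ∃ N : ℕ, ∃ᶠ n in Filter.atTop, VG (-(N : ℤ)) (a n)
  · left
    obtain ⟨N, hf⟩ := hc
    obtain ⟨r, hr, hr'⟩ := Filter.extraction_of_frequently_atTop hf
    obtain ⟨r', α, hr1, hα⟩ := cpt (a := fun n => a (r n)) hr'
    exact ⟨fun n => r (r' n), α, hr.comp hr1, hα⟩
  · right
    have hc' : ∀ N : ℕ, ∃ n1 : ℕ, ∀ n ≥ n1, ¬ VG (-(N : ℤ)) (a n) := by
      intro N
      have h6 : ¬ ∃ᶠ n in Filter.atTop, VG (-(N : ℤ)) (a n) := fun h7 => hc ⟨N, h7⟩
      rw [Filter.not_frequently, Filter.eventually_atTop] at h6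
      exact h6
    obtain ⟨n1, hn1⟩ := hc' 0
    have hne : ∀ n ≥ n1, a n ≠ 0 := by
      intro n hn h0
      apply hn1 n hn
      rw [h0]
      exact vg_zero _
    refine ⟨fun n => n + n1, fun a b hab => Nat.add_lt_add_right hab _,
      fun n => hne _ (Nat.le_add_left _ _), ?_⟩
    rw [tnd_iff]
    intro N
    obtain ⟨n2, hn2⟩ := hc' N.toNat
    refine ⟨n2, fun n hn => ?_⟩
    have h1 := hne (n + n1) (Nat.le_add_left _ _)
    have h2 := hn2 (n + n1) (hn.trans (Nat.le_add_right _ _))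
    rw [vg_ord h1] at h2
    rw [sub_zero, vg_ord (inv_ne_zero h1), ord_inv h1]
    have := Int.self_le_toNat N
    omega

/-- one of the quotients converges along a subsequence -/
theorem quot_lim {x y : ℕ → L p} (hxy : ∀ n, x n ≠ 0 ∨ y n ≠ 0) :
    (∃ (r : ℕ → ℕ) (α : L p), StrictMono r ∧ (∀ n, x (r n) ≠ 0) ∧
      Tnd (fun n => y (r n) / x (r n)) α) ∨
    ∃ r : ℕ → ℕ, StrictMono r ∧ (∀ n, y (r n) ≠ 0) ∧ Tnd (fun n => x (r n) / y (r n)) 0 := by
  by_cases hx : ∃ᶠ n in Filter.atTop, x n ≠ 0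
  · obtain ⟨r, hr, hr'⟩ := Filter.extraction_of_frequently_atTop hx
    rcases cpt_inf (a := fun n => y (r n) / x (r n)) with ⟨r', α, hr1, hα⟩ | ⟨r', hr1, h0, hα⟩
    · exact Or.inl ⟨fun n => r (r' n), α, hr.comp hr1, fun n => hr' _, hα⟩
    · right
      refine ⟨fun n => r (r' n), hr.comp hr1, fun n h1 => h0 n ?_, ?_⟩
      · rw [h1, zero_div]
      · simp only [inv_div] at hα
        exact hα
  · right
    rw [Filter.not_frequently, Filter.eventually_atTop] at hx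
    obtain ⟨n0, hn0⟩ := hx
    have h0 : ∀ n, x (n + n0) = 0 := fun n => not_not.1 (hn0 _ (Nat.le_add_left _ _))
    refine ⟨fun n => n + n0, fun a b hab => Nat.add_lt_add_right hab _, fun n h1 => ?_, ?_⟩
    · rcases hxy (n + n0) with h2 | h2
      · exact h2 (h0 n)
      · exact h2 h1
    · simp only [h0, zero_div]
      exact tnd_const 0

/-- a step -/
theorem step [Finite J] {k : IntermediateField (K p) (L p)} (hk : RC k)
    (hI : Inv k F u A B) (h : Bd3 (k : Set (L p)) 0 F u A B) :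
    ∃ (F' : J → (L p)[X][X]) (u' : (L p)[X][X]) (A' B' : ℕ), Bd3 (k : Set (L p)) 0 F' u' A' B' ∧
      Inv k F' u' A' B' ∧
      ((∃ α, (∀ j, F' j = opA α (F j)) ∧ sp u' A' B' = opA α (sp u A B)) ∨
        ((∀ j, F' j = opB (F j)) ∧ sp u' A' B' = opB (sp u A B))) := by
  obtain ⟨κ, hκ, D, Dn, Φ, Υ, x, y, σ, s, h⟩ := h
  have hxy : ∀ n, x n ≠ 0 ∨ y n ≠ 0 := by
    intro n
    by_contra hn
    push Not at hn
    have h1 := h.eq n
    rw [hn.1, hn.2] at h1
    apply h.gd.ne n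
    rw [← h1]
    rcases Nat.eq_zero_or_pos A with hA | hA
    · rcases Nat.eq_zero_or_pos B with hB | hB
      · exact absurd ⟨hA ▸ dvd_zero p, hB ▸ dvd_zero p⟩ hI.hAB
      · rw [zero_pow hB.ne', mul_zero, zero_mul]
    · rw [zero_pow hA.ne', zero_mul, zero_mul]
  rcases quot_lim hxy with ⟨r, α, hr, hr0, hα⟩ | ⟨r, hr, hr0, hα⟩
  · have h1 := moveA (sit_sub h hr) hr0 hα
    have hAB : ¬ (p ∣ A + B ∧ p ∣ B) := fun h2 =>
      hI.hAB ⟨(Nat.dvd_add_left h2.2).1 h2.1, h2.2⟩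
    have h0 : ((0 : L p)) ∈ k := zero_mem k
    obtain ⟨u', A', B', h2, h3, h4⟩ := trans_step hk (fun j => coef_opA h0 (hI.hF j))
      (coef_opA h0 hI.hu) hAB (Nat.le_add_left B A) hI.h0 (opA_map0 u) h1
    refine ⟨_, u', A', B', h2, h3, Or.inl ⟨α, fun j => (opA_trs α (F j)).symm, ?_⟩⟩
    rw [← h4, opA_trs α (sp u A B), opA_sp]
  · have h1 := moveB (sit_sub h hr) hr0 hα
    refine ⟨_, _, _, _, h1, ⟨fun j => coef_opB (hI.hF j), coef_opB hI.hu, ?_, fun h2 =>
      hI.hAB ⟨h2.2, (Nat.dvd_add_right h2.2).1 h2.1⟩⟩, Or.inr ⟨fun j => rfl, (opB_sp u A B).symm⟩⟩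
    rw [ev_opB, mul_zero]
    exact hI.h0

/-- Proof: otherwise iterate `step`; `term` for the family with `sp u A B`; `tame`. -/
theorem not_bd3 [Finite J] {k : IntermediateField (K p) (L p)} (hk : RC k)
    (hI : Inv k F u A B) : ¬ Bd3 (k : Set (L p)) 0 F u A B := by
  intro hF
  have hstep : ∀ G : {G : (J → (L p)[X][X]) × (L p)[X][X] × ℕ × ℕ //
      Bd3 (k : Set (L p)) 0 G.1 G.2.1 G.2.2.1 G.2.2.2 ∧ Inv k G.1 G.2.1 G.2.2.1 G.2.2.2},
      ∃ G' : {G : (J → (L p)[X][X]) × (L p)[X][X] × ℕ × ℕ //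
        Bd3 (k : Set (L p)) 0 G.1 G.2.1 G.2.2.1 G.2.2.2 ∧ Inv k G.1 G.2.1 G.2.2.1 G.2.2.2},
      (∃ α, ∀ o : Option J, (o.elim (sp G'.1.2.1 G'.1.2.2.1 G'.1.2.2.2) G'.1.1) =
        opA α (o.elim (sp G.1.2.1 G.1.2.2.1 G.1.2.2.2) G.1.1)) ∨
      ∀ o : Option J, (o.elim (sp G'.1.2.1 G'.1.2.2.1 G'.1.2.2.2) G'.1.1) =
        opB (o.elim (sp G.1.2.1 G.1.2.2.1 G.1.2.2.2) G.1.1) := by
    intro G
    obtain ⟨F', u', A', B', h1, h2, h3⟩ := step hk G.2.2 G.2.1
    refine ⟨⟨(F', u', A', B'), h1, h2⟩, ?_⟩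
    rcases h3 with ⟨α, h4, h5⟩ | ⟨h4, h5⟩
    · exact Or.inl ⟨α, fun o => by cases o with
        | none => exact h5
        | some j => exact h4 j⟩
    · exact Or.inr fun o => by cases o with
        | none => exact h5
        | some j => exact h4 j
  choose st hst using hstep
  obtain ⟨S, hS⟩ : ∃ S : ℕ → {G : (J → (L p)[X][X]) × (L p)[X][X] × ℕ × ℕ //
      Bd3 (k : Set (L p)) 0 G.1 G.2.1 G.2.2.1 G.2.2.2 ∧ Inv k G.1 G.2.1 G.2.2.1 G.2.2.2},
      ∀ i, S (i + 1) = st (S i) :=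
    ⟨fun i => Nat.rec ⟨(F, u, A, B), hF, hI⟩ (fun _ G => st G) i, fun i => rfl⟩
  have : CharP (L p) p := (ta_L p).char
  obtain ⟨i, hi⟩ := term (tL p) (ta_L p).rep
    (fun i => fun o : Option J => o.elim (sp (S i).1.2.1 (S i).1.2.2.1 (S i).1.2.2.2) (S i).1.1)
    (fun i => by
      have h1 := hst (S i)
      rw [← hS i] at h1
      exact h1)
  exact tame hi (S i).2.2.h0 (S i).2.2.hAB (S i).2.1

end Moves

end TF43
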