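import Pool.Agent.W_4ce76a_h43.KeyM

set_option autoImplicit false
set_option linter.unusedSectionVars false

/-!
# MP_4ce76a_lc, T3: `∃ y, ¬ ∃ z, φ` is locally constant
-/

namespace TF43

open TF14 TF45 MvPolynomial

variable {p : ℕ} [hp : Fact p.Prime] {n : ℕ}

/-- the formula is, as a formula in `z`, `u`, determined by the type of the values of some polynomials and by locally constant
predicates which do not depend on `z`, `u` -/
def PT2 (z u : Fin n) (φ : Form (K p) n) : Prop :=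
  ∃ (fs : List (MvPolynomial (Fin n) (K p))) (Ψ : List ((Fin n → L p) → Prop)),
    (∀ R ∈ Ψ, LCp p R ∧ ∀ s a b, (R (Function.update (Function.update s z a) u b) ↔ R s)) ∧
    ∀ s s', (∀ f ∈ fs, (aeval s' f = 0 ↔ aeval s f = 0)) →
      (∀ f ∈ fs, ∀ g ∈ fs, (Dv (aeval s' f) (aeval s' g) ↔ Dv (aeval s f) (aeval s g))) →
      (∀ R ∈ Ψ, (R s' ↔ R s)) → (HL p φ s' ↔ HL p φ s)

theorem pt2_eq (z u : Fin n) (f : MvPolynomial (Fin n) (K p)) : PT2 z u (.eq f) := by
  refine ⟨[f], [], by simp, fun s s' h1 _ _ => ?_⟩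
  have h2 := h1 f (List.mem_singleton.2 rfl)
  show f.eval₂ (algebraMap (K p) (L p)) s' = 0 ↔ f.eval₂ (algebraMap (K p) (L p)) s = 0
  rw [aeval_def, aeval_def] at h2
  exact h2

theorem pt2_dvd (z u : Fin n) (f g : MvPolynomial (Fin n) (K p)) : PT2 z u (.dvd f g) := by
  refine ⟨[f, g], [], by simp, fun s s' _ h1 _ => ?_⟩
  have h2 := h1 f (by simp) g (by simp)
  rw [aeval_def, aeval_def, aeval_def, aeval_def] at h2
  exact h2

theorem pt2_not {z u : Fin n} {φ : Form (K p) n} (h : PT2 z u φ) : PT2 z u (.not φ) := by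
  obtain ⟨fs, Ψ, h1, h2⟩ := h
  exact ⟨fs, Ψ, h1, fun s s' h3 h4 h5 => not_congr (h2 s s' h3 h4 h5)⟩

theorem pt2_and {z u : Fin n} {φ ψ : Form (K p) n} (h : PT2 z u φ) (h' : PT2 z u ψ) :
    PT2 z u (.and φ ψ) := by
  obtain ⟨fs, Ψ, h1, h2⟩ := h
  obtain ⟨gs, Ω, h3, h4⟩ := h'
  refine ⟨fs ++ gs, Ψ ++ Ω, fun R hR => ?_, fun s s' h5 h6 h7 => and_congr
    (h2 s s' (fun f hf => h5 f (List.mem_append_left _ hf))
      (fun f hf g hg => h6 f (List.mem_append_left _ hf) g (List.mem_append_left _ hg))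
      fun R hR => h7 R (List.mem_append_left _ hR))
    (h4 s s' (fun f hf => h5 f (List.mem_append_right _ hf))
      (fun f hf g hg => h6 f (List.mem_append_right _ hf) g (List.mem_append_right _ hg))
      fun R hR => h7 R (List.mem_append_right _ hR))⟩
  rcases List.mem_append.1 hR with hR | hR
  · exact h1 R hR
  · exact h3 R hR

theorem pt2_leaf {z u : Fin n} {φ : Form (K p) n} (hφ : LCp p (HL p φ)) (hz : ¬ φ.Free z)
    (hu : ¬ φ.Free u) : PT2 z u φ := by
  refine ⟨[], [HL p φ], fun R hR => ?_, fun s s' _ _ h1 => h1 _ (List.mem_singleton.2 rfl)⟩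
  rw [List.mem_singleton] at hR
  rw [hR]
  refine ⟨hφ, fun s a b => ?_⟩
  refine φ.holds_congr fun w hw => ?_
  have h1 : w ≠ u := by
    rintro rfl
    exact hu hw
  have h2 : w ≠ z := by
    rintro rfl
    exact hz hw
  rw [Function.update_of_ne h1, Function.update_of_ne h2]

theorem pt2_pv2 {z u : Fin n} {φ : Form (K p) n} (h : PT2 z u φ) : PV2 z u φ := by
  obtain ⟨fs, Ψ, h1, h2⟩ := h
  exact ⟨fs, Ψ, h1, fun s s' h3 h4 => h2 s s' (fun f hf => eqv_zero (h3 f hf))
    (fun f hf g hg => dv_eqv (h3 f hf) (h3 g hg)) h4⟩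

theorem pt2_clo {φ : Form (K p) n} (h : φ.Clo) (z u : Fin n) (hs : φ.Sep2 z u) : PT2 z u φ := by
  induction h with
  | eq f => exact pt2_eq z u f
  | dvd f g => exact pt2_dvd z u f g
  | and h1 h2 ih1 ih2 => exact pt2_and (ih1 hs.1) (ih2 hs.2)
  | or h1 h2 ih1 ih2 => exact pt2_not (pt2_and (pt2_not (ih1 hs.1)) (pt2_not (ih2 hs.2)))
  | ex w h1 ih => exact pt2_leaf (lc_clo (.ex w h1)) hs.1 hs.2

theorem SynE_ev {z u : Fin n} (hzu : z ≠ u) (f : MvPolynomial (Fin n) (K p)) :
    ∃ g : MvPolynomial (Fin n ⊕ Fin 2) (K p), ∀ (s : Fin n → L p) (a b : L p),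
      aeval (Sum.elim s ![a, b]) g =
        aeval (Function.update (Function.update s z a) u b) f := by
  refine ⟨rename (fun i => if i = z then Sum.inr 0 else if i = u then Sum.inr 1 else Sum.inl i) f,
    fun s a b => ?_⟩
  rw [aeval_rename]
  congr 1
  apply congrArg
  funext i
  rw [Function.comp_apply]
  by_cases h1 : i = z
  · rw [if_pos h1, h1, Function.update_of_ne hzu, Function.update_self, Sum.elim_inr]
    rfl
  · rw [if_neg h1]
    by_cases h2 : i = u
    · rw [if_pos h2, h2, Function.update_self, Sum.elim_inr]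
      rfl
    · rw [if_neg h2, Function.update_of_ne h2, Function.update_of_ne h1, Sum.elim_inl]

/-- finitely many locally constant predicates have the limit values for large `n` -/
theorem SynE_psi (Ψ : List ((Fin n → L p) → Prop)) (hΨ : ∀ R ∈ Ψ, LCp p R)
    {c : Fin n → L p} {cn : ℕ → Fin n → L p} (hT : Tk c cn) :
    ∃ n0 : ℕ, ∀ m ≥ n0, ∀ R ∈ Ψ, (R (cn m) ↔ R c) := by
  induction Ψ with
  | nil => exact ⟨0, fun m _ R hR => by simp at hR⟩
  | cons R Ψ ih =>
    obtain ⟨n1, h1⟩ := ih fun R' hR' => hΨ R' (List.mem_cons_of_mem _ hR')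
    obtain ⟨m, e, he, h2⟩ := hΨ R List.mem_cons_self c
    obtain ⟨n2, h3⟩ := hT m e he
    refine ⟨max n1 n2, fun k hk R' hR' => ?_⟩
    rcases List.mem_cons.1 hR' with rfl | hR'
    · exact h2 _ (h3 k ((le_max_right _ _).trans hk))
    · exact h1 k ((le_max_left _ _).trans hk) R' hR'

/-- the new rule -/
theorem lc_ea {z u : Fin n} (hzu : z ≠ u) {φ : Form (K p) n} (hφ : LCp p (HL p (.ex u φ)))
    (h : PT2 z u φ) : LCp p (HL p (.ex z (.not (.ex u φ)))) := by
  classical
  intro c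
  by_cases hc : HL p (.ex z (.not (.ex u φ))) c
  · obtain ⟨a, ha⟩ := hc
    obtain ⟨m1, e1, he1, h1⟩ := hφ (Function.update c z a)
    obtain ⟨m3, e3, he3, h3⟩ := lift hp.out (ta_K p) (ta_L p) (emb_KL p) c a m1 he1
    refine ⟨m3, e3, he3, fun c' hc' => iff_of_true ?_ ⟨a, ha⟩⟩
    obtain ⟨a', ha'⟩ := h3 c' hc'
    exact ⟨a', fun hb => ha ((h1 _ (near_upd hp.out (ta_L p) z ha')).1 hb)⟩
  · by_contra hcon
    push Not at hcon
    have ht := t_ne_zero (ta_L p)
    choose c' hn hR using fun n : ℕ => hcon n (tL p ^ n) (pow_ne_zero n ht)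
    have hR' : ∀ m, HL p (.ex z (.not (.ex u φ))) (c' m) := by
      intro m
      rcases hR m with h1 | h1
      · exact h1.1
      · exact absurd h1.2 hc
    have hTk : Tk c c' := by
      intro m e he
      obtain ⟨n0, hn0⟩ := QEqv_small e he
      exact ⟨max n0 m, fun n hn' => comp_near p ((le_max_right _ _).trans hn')
        (hn0 n ((le_max_left _ _).trans hn')) (hn n)⟩
    obtain ⟨fs, Ψ, hΨ, hdet⟩ := h
    obtain ⟨n0, hn0⟩ := SynE_psi Ψ (fun R hR => (hΨ R hR).1) hTk
    have hsh : StrictMono fun n : ℕ => n + n0 := fun a b hab => Nat.add_lt_add_right hab _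
    choose y hy using fun m => hR' (m + n0)
    have hfin : Finite {f // f ∈ fs} := (List.finite_toSet fs).to_subtype
    choose g hg using fun f : {f // f ∈ fs} => SynE_ev (p := p) hzu f.1
    obtain ⟨r, hr, h1 | ⟨w, h1⟩⟩ := key_main g (tk_sub hTk hsh) y
    · obtain ⟨v, hv⟩ := h1
      apply hc
      obtain ⟨m1, e1, he1, h2⟩ := hφ (Function.update c z v)
      obtain ⟨n1, h3⟩ := hv m1 e1 he1
      have h4 := h2 _ (near_upd hp.out (ta_L p) z (h3 n1 le_rfl))
      exact ⟨v, fun hb => hy (r n1) (h4.2 hb)⟩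
    · have h2 : ∀ m, ∃ b, HL p φ (Function.update (Function.update c z (w m)) u b) := by
        intro m
        by_contra h3
        exact hc ⟨w m, fun h4 => h3 h4⟩
      choose b hb using h2
      obtain ⟨m, z', hS⟩ := h1 b
      refine hy (r m) ⟨z', ?_⟩
      refine (hdet (Function.update (Function.update c z (w m)) u (b m)) _ ?_ ?_ ?_).2 (hb m)
      · intro f hf
        have h3 := hS.1 ⟨f, hf⟩
        simp only [hg] at h3
        exact h3
      · intro f hf g' hg'
        have h3 := hS.2 ⟨f, hf⟩ ⟨g', hg'⟩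
        simp only [hg] at h3
        exact h3
      · intro R hR
        rw [(hΨ R hR).2, (hΨ R hR).2]
        exact hn0 _ (Nat.le_add_left _ _) R hR

end TF43
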