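import Pool.Agent.W_4ce76a_h43.Cls
import Pool.Agent.W_4ce76a_h43.SynE

set_option autoImplicit false
set_option linter.unusedSectionVars false

/-!
# MP_4ce76a_lc, T3: the larger class of formulas and the transfer
-/

namespace TF43

open TF14 TF45 MvPolynomial

section Class

variable {K : Type} [Field K] {n : ℕ}

theorem qf_nea {φ : Form K n} (h : φ.Qf) : Nea φ := by
  induction φ with
  | eq f => exact .eq f
  | dvd f g => exact .dvd f g
  | not φ ih => exact .not (ih h)
  | and φ ψ ih1 ih2 => exact .and (ih1 h.1) (ih2 h.2)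
  | ex w φ _ => exact h.elim

theorem qf_sep2 {φ : Form K n} (h : φ.Qf) (z u : Fin n) : φ.Sep2 z u :=
  (Form.qf_nsq h).2 z u

theorem nea_two (φ : Form K 2) : Nea φ := by
  induction φ with
  | eq f => exact .eq f
  | dvd f g => exact .dvd f g
  | not φ ih => exact .not ih
  | and φ ψ ih1 ih2 => exact .and ih1 ih2
  | ex v φ ih => exact .ex v ih (Form.sep_two v φ)

/-- up to double negations a formula with two quantifiers in front is in the class -/
theorem nea_qt (b b' : Bool) (z u : Fin n) {θ : Form K n} (h : θ.Qf) :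
    ∃ φ : Form K n, Nea φ ∧ ∀ (N : Type) [Field N] (j : K →+* N) (O : ValuationSubring N)
      (s : Fin n → N), φ.Holds j O s ↔ (qt b z (qt b' u θ)).Holds j O s := by
  cases b with
  | true =>
    cases b' with
    | true => exact ⟨_, .ee z u (qf_nea h) (qf_sep2 h z u), fun N _ j O s => Iff.rfl⟩
    | false => exact ⟨_, .ea z u (.not (qf_nea h)) (qf_sep2 h z u), fun N _ j O s => Iff.rfl⟩
  | false =>
    cases b' with
    | true => exact ⟨_, .not (.ea z u (qf_nea h) (qf_sep2 h z u)), fun N _ j O s => Iff.rfl⟩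
    | false =>
      refine ⟨_, .not (.ee z u (.not (qf_nea h)) (qf_sep2 h z u)), fun N _ j O s => ?_⟩
      refine not_congr (exists_congr fun a => ?_)
      exact (not_not (a := (Form.ex u θ.not).Holds j O (Function.update s z a))).symm

end Class

variable {p : ℕ} [hp : Fact p.Prime] {n : ℕ}

theorem nea_main {φ : Form (K p) n} (h : Nea φ) : LCp p (HL p φ) ∧ (∀ v, φ.Sep v → PV v φ) ∧
    ∀ z u, φ.Sep2 z u → PT2 z u φ := by
  induction h with
  | eq f => exact ⟨lc_eq hp.out (ta_L p) (emb_KL p) f, fun v _ => pv_eq v f,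
      fun z u _ => pt2_eq z u f⟩
  | dvd f g => exact ⟨lc_dvd hp.out (ta_L p) (emb_KL p) f g, fun v _ => pv_dvd v f g,
      fun z u _ => pt2_dvd z u f g⟩
  | not h ih => exact ⟨lcp_not ih.1, fun v hv => pv_not (ih.2.1 v hv),
      fun z u hv => pt2_not (ih.2.2 z u hv)⟩
  | and h1 h2 ih1 ih2 =>
    exact ⟨lcp_and ih1.1 ih2.1, fun v hv => pv_and (ih1.2.1 v hv.1) (ih2.2.1 v hv.2),
      fun z u hv => pt2_and (ih1.2.2 z u hv.1) (ih2.2.2 z u hv.2)⟩
  | ex w h hs ih =>
    have h1 := lc_ex (ih.2.1 w hs)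
    exact ⟨h1, fun v hv => pv_leaf h1 hv, fun z u hv => pt2_leaf h1 hv.1 hv.2⟩
  | ee z0 u0 h hs ih =>
    rename_i φ
    have h1 : LCp p (HL p (.ex z0 (.ex u0 φ))) := by
      by_cases hzu : z0 = u0
      · subst hzu
        refine lcp_congr (R := HL p (.ex z0 φ)) (fun s => ?_)
          (lc_ex (ih.2.1 z0 (Form.sep2_sep hs)))
        constructor
        · rintro ⟨a, ha⟩
          refine ⟨a, a, ?_⟩
          rw [Function.update_idem]
          exact ha
        · rintro ⟨a, b, hb⟩
          rw [Function.update_idem] at hb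
          exact ⟨b, hb⟩
      · exact lc_ex2 hzu ih.1 (pt2_pv2 (ih.2.2 z0 u0 hs))
    exact ⟨h1, fun v hv => pv_leaf h1 hv, fun z u hv => pt2_leaf h1 hv.1 hv.2⟩
  | ea z0 u0 h hs ih =>
    rename_i φ
    have h2 : LCp p (HL p (.ex u0 φ)) := lc_ex (ih.2.1 u0 (Form.sep2_sep hs))
    have h1 : LCp p (HL p (.ex z0 (.not (.ex u0 φ)))) := by
      by_cases hzu : z0 = u0
      · subst hzu
        refine lcp_congr (R := fun s => ¬ HL p (.ex z0 φ) s) (fun s => ?_) (lcp_not h2)
        have h3 : ∀ a, HL p (.ex z0 φ) (Function.update s z0 a) ↔ HL p (.ex z0 φ) s := by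
          intro a
          refine exists_congr fun b => ?_
          rw [Function.update_idem]
        constructor
        · intro h4
          exact ⟨0, fun h5 => h4 ((h3 0).1 h5)⟩
        · rintro ⟨a, ha⟩ h4
          exact ha ((h3 a).2 h4)
      · exact lc_ea hzu h2 (ih.2.2 z0 u0 hs)
    exact ⟨h1, fun v hv => pv_leaf h1 hv, fun z u hv => pt2_leaf h1 hv.1 hv.2⟩
  | clo h => exact ⟨lc_clo h, fun v hv => pv_clo h v hv, fun z u hv => pt2_clo h z u hv⟩
  | closed vs h hf ih =>
    cases vs with
    | nil => exact ih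
    | cons w ws =>
      rename_i φ
      have h1 : LCp p (HL p (Form.exs (w :: ws) φ)) := by
        intro c
        refine ⟨0, 1, one_ne_zero, fun c' _ => ?_⟩
        exact Form.holds_congr _ fun u hu => absurd hu (hf u)
      refine ⟨h1, fun v _ => pv_leaf h1 (Or.inl (hf v)), fun z u _ => pt2_leaf h1 (hf z) (hf u)⟩
  | unary vs v0 h hcst hf ih =>
    cases vs with
    | nil => exact ih
    | cons w ws =>
      rename_i φ
      obtain ⟨χ, hχ⟩ : ∃ χ, χ = Form.exs (w :: ws) φ := ⟨_, rfl⟩
      have hcst' : χ.Cst := by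
        rw [hχ]
        exact Form.exs_cst _ hcst
      rw [← hχ] at hf
      have h1 : LCp p fun z : Unit → L p => HL p χ (fun _ => z ()) :=
        lc_inv p (fun z => HL p χ fun _ => z) fun σ hσ z =>
          Form.holds_aut χ hcst' σ hσ fun _ => z
      have h2 : LCp p (HL p χ) := by
        intro c
        obtain ⟨m, e, he, h3⟩ := h1 fun _ => c v0
        refine ⟨m, e, he, fun c' hc' => ?_⟩
        have h4 := h3 (fun _ => c' v0) (near_comp hp.out (ta_L p) hc' fun _ : Unit => v0)
        have h5 : ∀ s : Fin n → L p, HL p χ s ↔ HL p χ fun _ => s v0 := fun s =>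
          Form.holds_congr χ fun u hu => by rw [hf u hu]
        rw [h5 c, h5 c']
        exact h4
      rw [hχ] at h2
      exact ⟨h2, fun v hv => pv_leaf h2 hv, fun z u hv => pt2_leaf h2 hv.1 hv.2⟩

theorem tr_nea {φ : Form (K p) n} (h : Nea φ) : TR φ := by
  induction h with
  | eq f => exact tr_eq f
  | dvd f g => exact tr_dvd f g
  | not h ih => exact tr_not ih
  | and h1 h2 ih1 ih2 => exact tr_and ih1 ih2
  | ex v h hs ih => exact tr_exs [v] ih (nea_main h).1
  | ee z u h hs ih => exact tr_exs [z, u] ih (nea_main h).1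
  | ea z u h hs ih =>
    have h1 := lc_ex ((nea_main h).2.1 u (Form.sep2_sep hs))
    exact tr_exs [z] (tr_not (tr_exs [u] ih (nea_main h).1)) (lcp_not h1)
  | clo h => exact tr_clo h
  | closed vs h hf ih => exact tr_exs vs ih (nea_main h).1
  | unary vs v0 h hcst hf ih => exact tr_exs vs ih (nea_main h).1

/-- the theorem, for `K p` -/
theorem tr_main3 {φ : Form (K p) n} (h : Nea φ) (vs : List (Fin n)) : TR (Form.exs vs φ) :=
  tr_exs vs (tr_nea h) (nea_main h).1

theorem elem_nea (p : ℕ) [hp : Fact p.Prime] {n : ℕ} {φ : Form (Kt p) n} (h : Nea φ)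
    (vs : List (Fin n)) (s : Fin n → Kt p) :
    (Form.exs vs φ).Holds (RingHom.id (Kt p)) (OKt p) s ↔
      (Form.exs vs φ).Holds (inc p) (OL p) fun i => inc p (s i) :=
  tr_main3 (p := p) (n := n) (φ := φ) h vs s

/-- semantically equal formulas may be exchanged below a block of quantifiers -/
theorem exs_congr {K : Type} [Field K] {n : ℕ} {N : Type} [Field N] (j : K →+* N)
    (O : ValuationSubring N) {φ ψ : Form K n} (h : ∀ s, φ.Holds j O s ↔ ψ.Holds j O s)
    (vs : List (Fin n)) (s : Fin n → N) :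
    (Form.exs vs φ).Holds j O s ↔ (Form.exs vs ψ).Holds j O s := by
  induction vs generalizing s with
  | nil => exact h s
  | cons v vs ih => exact exists_congr fun a => ih (Function.update s v a)

/-- all prenex formulas with at most two quantifiers behind the first block -/
theorem elem_prenex (p : ℕ) [hp : Fact p.Prime] {n : ℕ} {θ : Form (Kt p) n} (h : θ.Qf)
    (b b' b'' : Bool) (vs : List (Fin n)) (z u : Fin n) (s : Fin n → Kt p) :
    (qts b vs (qt b' z (qt b'' u θ))).Holds (RingHom.id (Kt p)) (OKt p) s ↔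
      (qts b vs (qt b' z (qt b'' u θ))).Holds (inc p) (OL p) fun i => inc p (s i) := by
  obtain ⟨φ, hφ, h1⟩ := nea_qt b' b'' z u h
  cases b with
  | true =>
    refine (exs_congr _ _ (fun s => (h1 _ _ _ s).symm) vs s).trans
      ((elem_nea p hφ vs s).trans (exs_congr _ _ (fun s => h1 _ _ _ s) vs _))
  | false =>
    refine not_congr ((exs_congr (φ := .not (qt b' z (qt b'' u θ))) (ψ := .not φ) _ _
      (fun s => not_congr (h1 _ _ _ s).symm) vs s).trans ((elem_nea p (Nea.not hφ) vs s).trans
      (exs_congr (φ := .not φ) (ψ := .not (qt b' z (qt b'' u θ))) _ _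
        (fun s => not_congr (h1 _ _ _ s)) vs _)))

end TF43
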