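import Pool.Agent.W_4ce76a_h45.QSyn

set_option autoImplicit false
set_option linter.unusedSectionVars false

/-!
# MP_4ce76a_lc, one universal and one existential quantifier: the order of a Laurent series

`ord x` is the order of `x` (and `0` for `x = 0`), `VG n x` means that the order of `x` is at least `n` or `x = 0`.
-/

namespace TF43

open TF14 TF45 Polynomial

variable {p : ℕ} [hp : Fact p.Prime]

/-- the order -/
noncomputable def ord (x : L p) : ℤ := HahnSeries.order x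

/-- `x` is divisible by `t ^ n` -/
def VG (n : ℤ) (x : L p) : Prop := tL p ^ (-n) * x ∈ OL p

theorem tne : tL p ≠ 0 := t_ne_zero (ta_L p)

theorem ord_zero : ord (0 : L p) = 0 := HahnSeries.order_zero

theorem ord_one : ord (1 : L p) = 0 := HahnSeries.order_one

theorem ord_mul {x y : L p} (hx : x ≠ 0) (hy : y ≠ 0) : ord (x * y) = ord x + ord y :=
  HahnSeries.order_mul hx hy

theorem ord_t : ord (tL p) = 1 := HahnSeries.order_single one_ne_zero

theorem ord_inv {x : L p} (hx : x ≠ 0) : ord x⁻¹ = -ord x := by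
  have h := ord_mul hx (inv_ne_zero hx)
  rw [mul_inv_cancel₀ hx, ord_one] at h
  linarith

theorem ord_div {x y : L p} (hx : x ≠ 0) (hy : y ≠ 0) : ord (x / y) = ord x - ord y := by
  rw [div_eq_mul_inv, ord_mul hx (inv_ne_zero hy), ord_inv hy]
  ring

theorem ord_pow (x : L p) (n : ℕ) : ord (x ^ n) = n * ord x := by
  have h : ord (x ^ n) = n • ord x := HahnSeries.order_pow x n
  rw [h, nsmul_eq_mul]

theorem ord_tpow (n : ℕ) : ord (tL p ^ n) = n := by
  rw [ord_pow, ord_t, mul_one]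

theorem ord_tzpow (n : ℤ) : ord (tL p ^ n) = n := by
  rcases n with n | n
  · rw [Int.ofNat_eq_natCast, zpow_natCast, ord_tpow]
  · rw [zpow_negSucc, ord_inv (pow_ne_zero _ tne), ord_tpow]
    rfl

theorem mem_OL (x : L p) : x ∈ OL p ↔ 0 ≤ ord x := by
  constructor
  · rintro ⟨f, rfl⟩
    by_contra hneg
    push Not at hneg
    by_cases h0 : ((f : PowerSeries (ZMod p)) : L p) = 0
    · rw [h0, ord_zero] at hneg
      exact lt_irrefl _ hneg
    · have h1 : ((f : PowerSeries (ZMod p)) : L p).coeff (ord ((f : PowerSeries (ZMod p)) : L p)) ≠ 0 :=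
        fun h2 => h0 (HahnSeries.coeff_order_eq_zero.1 h2)
      apply h1
      rw [PowerSeries.coeff_coe, if_pos hneg]
  · intro h
    obtain ⟨n, hn⟩ := Int.eq_ofNat_of_zero_le h
    exact ⟨PowerSeries.X ^ n * LaurentSeries.powerSeriesPart x,
      LaurentSeries.X_order_mul_powerSeriesPart hn.symm⟩

theorem vg_zero (n : ℤ) : VG n (0 : L p) := by
  unfold VG
  rw [mul_zero]
  exact (OL p).zero_mem

theorem vg_ord {n : ℤ} {x : L p} (hx : x ≠ 0) : VG n x ↔ n ≤ ord x := by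
  unfold VG
  rw [mem_OL, ord_mul (zpow_ne_zero _ tne) hx, ord_tzpow]
  constructor <;> intro h <;> linarith

theorem vg_add {n : ℤ} {x y : L p} (hx : VG n x) (hy : VG n y) : VG n (x + y) := by
  unfold VG at *
  rw [mul_add]
  exact add_mem hx hy

theorem vg_neg {n : ℤ} {x : L p} (hx : VG n x) : VG n (-x) := by
  unfold VG at *
  rw [mul_neg]
  exact neg_mem hx

theorem vg_sub {n : ℤ} {x y : L p} (hx : VG n x) (hy : VG n y) : VG n (x - y) := by
  rw [sub_eq_add_neg]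
  exact vg_add hx (vg_neg hy)

theorem vg_mul {m n : ℤ} {x y : L p} (hx : VG m x) (hy : VG n y) : VG (m + n) (x * y) := by
  unfold VG at *
  have h : tL p ^ (-(m + n)) * (x * y) = (tL p ^ (-m) * x) * (tL p ^ (-n) * y) := by
    rw [neg_add, zpow_add₀ tne]
    ring
  rw [h]
  exact mul_mem hx hy

theorem vg_mem {x : L p} : VG 0 x ↔ x ∈ OL p := by
  unfold VG
  rw [neg_zero, zpow_zero, one_mul]

theorem vg_tz (n : ℤ) : VG n (tL p ^ n) :=
  (vg_ord (zpow_ne_zero _ tne)).2 (ord_tzpow n).ge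

theorem vg_mono {m n : ℤ} (h : m ≤ n) {x : L p} (hx : VG n x) : VG m x := by
  by_cases h0 : x = 0
  · rw [h0]
    exact vg_zero m
  · exact (vg_ord h0).2 (h.trans ((vg_ord h0).1 hx))

theorem vg_one : VG 0 (1 : L p) := vg_mem.2 (OL p).one_mem

theorem vg_pow {n : ℤ} {x : L p} (hx : VG n x) (k : ℕ) : VG (k * n) (x ^ k) := by
  induction k with
  | zero =>
    rw [pow_zero, Nat.cast_zero, zero_mul]
    exact vg_one
  | succ k ih =>
    rw [pow_succ]
    have h : ((k + 1 : ℕ) : ℤ) * n = k * n + n := by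
      push_cast
      ring
    rw [h]
    exact vg_mul ih hx

theorem vg_sum {ι : Type} (s : Finset ι) (f : ι → L p) {n : ℤ} (h : ∀ i ∈ s, VG n (f i)) :
    VG n (∑ i ∈ s, f i) := by
  classical
  induction s using Finset.induction_on with
  | empty =>
    rw [Finset.sum_empty]
    exact vg_zero n
  | insert a s ha ih =>
    rw [Finset.sum_insert ha]
    exact vg_add (h a (Finset.mem_insert_self _ _))
      (ih fun i hi => h i (Finset.mem_insert_of_mem hi))

/-- the order of a sum with a dominating summand -/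
theorem ord_add_of_vg {x y : L p} (hx : x ≠ 0) (hy : VG (ord x + 1) y) :
    x + y ≠ 0 ∧ ord (x + y) = ord x := by
  have h1 : ¬ VG (ord x + 1) (x + y) := by
    intro h
    have h2 := vg_sub h hy
    rw [add_sub_cancel_right] at h2
    have h3 := (vg_ord hx).1 h2
    linarith
  have h0 : x + y ≠ 0 := by
    intro h
    rw [h] at h1
    exact h1 (vg_zero _)
  refine ⟨h0, le_antisymm ?_ ?_⟩
  · by_contra h
    exact h1 ((vg_ord h0).2 (by omega))
  · exact (vg_ord h0).1 (vg_add ((vg_ord hx).2 le_rfl) (vg_mono (by omega) hy))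

/-- a nonzero element has an order -/
theorem vg_bound (x : L p) : ∃ N : ℕ, VG (-(N : ℤ)) x := by
  by_cases h0 : x = 0
  · exact ⟨0, by rw [h0]; exact vg_zero _⟩
  · exact ⟨(ord x).natAbs, (vg_ord h0).2 (by omega)⟩

/-- `Cl` in terms of the order -/
theorem cl_vg {n : ℤ} {a b : L p} : Cl (OL p) (tL p ^ n) a b ↔ VG n (a - b) := by
  unfold VG
  constructor
  · rintro ⟨u, hu, h⟩
    rw [h, ← mul_assoc, ← zpow_add₀ tne, neg_add_cancel, zpow_zero, one_mul]
    exact hu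
  · intro h
    exact ⟨_, h, by rw [← mul_assoc, ← zpow_add₀ tne, add_neg_cancel, zpow_zero, one_mul]⟩

theorem cl_vg_of {e a b : L p} (he : e ≠ 0) : Cl (OL p) e a b ↔ VG (ord e) (a - b) := by
  constructor
  · rintro ⟨u, hu, h⟩
    rw [h]
    have h1 := vg_mul ((vg_ord he).2 le_rfl) (vg_mem.2 hu)
    rwa [add_zero] at h1
  · intro h
    refine ⟨e⁻¹ * (a - b), ?_, by rw [← mul_assoc, mul_inv_cancel₀ he, one_mul]⟩
    have h1 := vg_mul ((vg_ord (inv_ne_zero he)).2 le_rfl) h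
    rw [ord_inv he, neg_add_cancel] at h1
    exact vg_mem.1 h1

theorem tnd_iff {a : ℕ → L p} {b : L p} :
    Tnd a b ↔ ∀ N : ℤ, ∃ n0 : ℕ, ∀ n ≥ n0, VG N (a n - b) := by
  constructor
  · intro h N
    obtain ⟨n0, hn0⟩ := h (tL p ^ N) (zpow_ne_zero _ tne)
    exact ⟨n0, fun n hn => cl_vg.1 (hn0 n hn)⟩
  · intro h e he
    obtain ⟨n0, hn0⟩ := h (ord e)
    exact ⟨n0, fun n hn => (cl_vg_of he).2 (hn0 n hn)⟩

theorem tnd_const (a : L p) : Tnd (fun _ => a) a := fun e _ => ⟨0, fun _ _ => cl_refl e a⟩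

theorem tnd_add {a a' : ℕ → L p} {b b' : L p} (h : Tnd a b) (h' : Tnd a' b') :
    Tnd (fun n => a n + a' n) (b + b') := by
  rw [tnd_iff] at *
  intro N
  obtain ⟨n0, hn0⟩ := h N
  obtain ⟨n1, hn1⟩ := h' N
  refine ⟨max n0 n1, fun n hn => ?_⟩
  have h1 := vg_add (hn0 n ((le_max_left _ _).trans hn)) (hn1 n ((le_max_right _ _).trans hn))
  have h2 : a n + a' n - (b + b') = a n - b + (a' n - b') := by ring
  rwa [h2]

/-- a convergent sequence is bounded -/
theorem tnd_bound {a : ℕ → L p} {b : L p} (h : Tnd a b) :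
    ∃ (N : ℕ) (n0 : ℕ), ∀ n ≥ n0, VG (-(N : ℤ)) (a n) := by
  obtain ⟨N, hN⟩ := vg_bound b
  obtain ⟨n0, hn0⟩ := tnd_iff.1 h 0
  refine ⟨N, n0, fun n hn => ?_⟩
  have h1 := vg_add (vg_mono (by omega : (-(N : ℤ)) ≤ 0) (hn0 n hn)) hN
  rwa [sub_add_cancel] at h1

theorem tnd_mul {a a' : ℕ → L p} {b b' : L p} (h : Tnd a b) (h' : Tnd a' b') :
    Tnd (fun n => a n * a' n) (b * b') := by
  obtain ⟨N, n0, h0⟩ := tnd_bound h
  obtain ⟨N', hN'⟩ := vg_bound b'
  rw [tnd_iff] at h h' ⊢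
  intro M
  obtain ⟨n1, h1⟩ := h (M + N')
  obtain ⟨n2, h2⟩ := h' (M + N)
  refine ⟨max n0 (max n1 n2), fun n hn => ?_⟩
  have e1 := h0 n ((le_max_left _ _).trans hn)
  have e2 := h1 n ((le_max_left _ _).trans ((le_max_right _ _).trans hn))
  have e3 := h2 n ((le_max_right _ _).trans ((le_max_right _ _).trans hn))
  have e4 : a n * a' n - b * b' = a n * (a' n - b') + (a n - b) * b' := by ring
  rw [e4]
  refine vg_add ?_ ?_
  · have e5 := vg_mul e1 e3
    rwa [show -(N : ℤ) + (M + N) = M by ring] at e5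
  · have e5 := vg_mul e2 hN'
    rwa [show M + N' + -(N' : ℤ) = M by ring] at e5

theorem tnd_pow {a : ℕ → L p} {b : L p} (h : Tnd a b) (k : ℕ) :
    Tnd (fun n => a n ^ k) (b ^ k) := by
  induction k with
  | zero =>
    simp only [pow_zero]
    exact tnd_const 1
  | succ k ih =>
    simp only [pow_succ]
    exact tnd_mul ih h

/-- eventually the order is that of the limit -/
theorem tnd_ord {a : ℕ → L p} {b : L p} (h : Tnd a b) (hb : b ≠ 0) :
    ∃ n0 : ℕ, ∀ n ≥ n0, a n ≠ 0 ∧ ord (a n) = ord b := by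
  obtain ⟨n0, hn0⟩ := tnd_iff.1 h (ord b + 1)
  refine ⟨n0, fun n hn => ?_⟩
  have h1 := ord_add_of_vg hb (hn0 n hn)
  rwa [add_sub_cancel] at h1

theorem tnd_inv {a : ℕ → L p} {b : L p} (h : Tnd a b) (hb : b ≠ 0) :
    Tnd (fun n => (a n)⁻¹) b⁻¹ := by
  obtain ⟨n0, hn0⟩ := tnd_ord h hb
  rw [tnd_iff] at h ⊢
  intro N
  obtain ⟨n1, hn1⟩ := h (N + 2 * ord b)
  refine ⟨max n0 n1, fun n hn => ?_⟩
  obtain ⟨h1, h2⟩ := hn0 n ((le_max_left _ _).trans hn)
  have h3 := hn1 n ((le_max_right _ _).trans hn)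
  have h4 : (a n)⁻¹ - b⁻¹ = -((a n)⁻¹ * b⁻¹ * (a n - b)) := by
    field_simp
    ring
  rw [h4]
  have h5 := vg_mul (vg_mul ((vg_ord (inv_ne_zero h1)).2 le_rfl)
    ((vg_ord (inv_ne_zero hb)).2 le_rfl)) h3
  rw [ord_inv h1, ord_inv hb, h2] at h5
  refine vg_neg (vg_mono (le_of_eq ?_) h5)
  ring

/-- `Eqv` in terms of the order -/
theorem eqv_iff {a b : L p} (hb : b ≠ 0) : Eqv a b ↔ a ≠ 0 ∧ ord a = ord b := by
  constructor
  · rintro ⟨w, hw0, hw, hwi, rfl⟩
    refine ⟨mul_ne_zero hb hw0, ?_⟩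
    rw [mem_OL] at hw hwi
    rw [ord_inv hw0] at hwi
    rw [ord_mul hb hw0]
    linarith
  · rintro ⟨ha, h⟩
    refine ⟨a / b, div_ne_zero ha hb, ?_, ?_, by rw [mul_div_cancel₀ _ hb]⟩
    · rw [mem_OL, ord_div ha hb]
      linarith
    · rw [inv_div, mem_OL, ord_div hb ha]
      linarith

end TF43
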